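import Pool.Agent.R721.CD.Count

set_option linter.unusedSectionVars false
set_option linter.style.haveILetI false
set_option autoImplicit false

open scoped BigOperators Classical
open Representation Pool.Agent.Helper884.IC

noncomputable section

namespace Pool.Agent.R721.CD

/-- the facts about `K = M(25)` acting on the projective line which are used -/
structure KCfg (K Om : Type) [Group K] [Fintype K] [MulAction K Om] [Fintype Om] where
  S : Subgroup K
  N : Subgroup K
  inf : Om
  o : Om
  hio : inf ≠ o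
  cardOm : Fintype.card Om = 26
  cardK : Nat.card K = 15600
  cardS : Nat.card S = 7800
  normS : S.Normal
  comS : ∀ g h : K, g * h * g⁻¹ * h⁻¹ ∈ S
  sharp : ∀ g : K, ∀ P Q R : Om, P ≠ Q → P ≠ R → Q ≠ R → g • P = P → g • Q = Q → g • R = R → g = 1
  trans : ∀ P Q : Om, P ≠ Q → ∃ s ∈ S, s • inf = P ∧ s • o = Q
  NS : N ≤ S
  cardN : Nat.card N = 25
  Ninf : ∀ n ∈ N, n • inf = inf
  Ntr : ∀ P : Om, P ≠ inf → ∃ n ∈ N, n • o = P
  Nfree : ∀ n ∈ N, n ≠ 1 → ∀ P, P ≠ inf → n • P ≠ P
  Nmem : ∀ g ∈ S, g • inf = inf → (∀ P, P ≠ inf → g • P ≠ P) → g ∈ N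
  Nconj : ∀ n ∈ N, ∀ n' ∈ N, n ≠ 1 → n' ≠ 1 → ∃ x : K, x * n * x⁻¹ = n'
  cardT : Nat.card (S ⊓ MulAction.stabilizer K inf ⊓ MulAction.stabilizer K o : Subgroup K) = 12
  lam : (S ⊓ MulAction.stabilizer K inf : Subgroup K) →* ℂˣ
  lamN : ∀ n (hn : n ∈ (S ⊓ MulAction.stabilizer K inf : Subgroup K)), n ∈ N → lam ⟨n, hn⟩ = 1
  lamT : ∀ t (ht : t ∈ (S ⊓ MulAction.stabilizer K inf : Subgroup K)), t • o = o →
    lam ⟨t, ht⟩ = 1 → t = 1
  s : K
  hs : ∀ t ∈ S, t • inf = inf → t • o = o → s * t * s⁻¹ = t ^ 5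
  w : K
  hw : ∀ t ∈ S, t • inf = inf → t • o = o → w * t * w⁻¹ = t⁻¹
  inv1 : ∀ g ∈ S, ∀ P : Om, g • g • P = P → ∃ Q : Om, g • Q = Q
  inv2 : ∀ g : K, g * g = 1 → ∃ Q : Om, g • Q = Q

namespace KCfg

variable {K Om : Type} [Group K] [Fintype K] [MulAction K Om] [Fintype Om] (c : KCfg K Om)

def BS : Subgroup K := c.S ⊓ MulAction.stabilizer K c.inf

def T : Subgroup K := c.BS ⊓ MulAction.stabilizer K c.o

lemma mem_BS {g : K} : g ∈ c.BS ↔ g ∈ c.S ∧ g • c.inf = c.inf := by
  unfold BS
  rw [Subgroup.mem_inf, MulAction.mem_stabilizer_iff]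

lemma mem_T {g : K} : g ∈ c.T ↔ (g ∈ c.S ∧ g • c.inf = c.inf) ∧ g • c.o = c.o := by
  unfold T
  rw [Subgroup.mem_inf, c.mem_BS, MulAction.mem_stabilizer_iff]

/-- fixed point free elements of `S` -/
def ES (g : K) : Prop := g ∈ c.S ∧ ∀ P : Om, g • P ≠ P

lemma E_sum0 (f : K → ℂ) (hf : ∀ g ∈ c.S, ∀ x ∈ c.S, f (x * g * x⁻¹) = f g) :
    ∑ g : K, (if c.ES g then f g else 0) =
      sm c.S f - 26 * sm c.BS f + 325 * sm c.T f - 300 * f 1 := by
  have h1 := sum_fix c.S c.inf (Finset.univ : Finset Om) f hf (by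
    intro q _
    by_cases hq : q = c.o
    · obtain ⟨x, hx, h, -⟩ := c.trans q c.inf (by rw [hq]; exact c.hio.symm)
      exact ⟨x, hx, h⟩
    · obtain ⟨x, hx, h, -⟩ := c.trans q c.o hq
      exact ⟨x, hx, h⟩)
  have h2 := sum_fix (X := Om × Om) c.S (c.inf, c.o) ((Finset.univ : Finset Om).offDiag) f hf (by
    rintro ⟨P, Q⟩ hq
    rw [Finset.mem_offDiag] at hq
    obtain ⟨x, hx, h, h'⟩ := c.trans P Q hq.2.2
    exact ⟨x, hx, by ext <;> simp [h, h']⟩)
  have hT : c.S ⊓ MulAction.stabilizer K ((c.inf, c.o) : Om × Om) = c.T := by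
    ext g
    rw [Subgroup.mem_inf, MulAction.mem_stabilizer_iff, c.mem_T, and_assoc, Prod.smul_mk,
      Prod.mk.injEq]
  rw [hT] at h2
  rw [Finset.card_univ, c.cardOm] at h1
  have hod : ((Finset.univ : Finset Om).offDiag.card : ℂ) = 650 := by
    rw [Finset.offDiag_card, Finset.card_univ, c.cardOm]
    norm_num
  rw [hod] at h2
  have h3 : ∑ g : K, (if c.ES g then f g else 0) =
      sm c.S (fun g => ((f g - f g * (fixc (Finset.univ : Finset Om) g : ℂ))
        + 1 / 2 * (f g * (fixc (Finset.univ : Finset Om).offDiag g : ℂ)))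
        - 300 * (if g = 1 then f g else 0)) := by
    unfold sm
    refine Finset.sum_congr rfl fun g _ => ?_
    by_cases hg : g ∈ c.S
    swap
    · rw [if_neg hg, if_neg (fun h => hg h.1)]
    rw [if_pos hg]
    have hoff : fixc (Finset.univ : Finset Om).offDiag g =
        ((Finset.univ : Finset Om).filter (fun q => g • q = q)).offDiag.card := by
      unfold fixc
      congr 1
      ext ⟨P, Q⟩
      simp only [Finset.mem_filter, Finset.mem_offDiag, Finset.mem_univ, true_and, Prod.smul_mk,
        Prod.mk.injEq]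
      tauto
    beta_reduce
    rw [hoff, Finset.offDiag_card]
    unfold fixc
    set A := (Finset.univ : Finset Om).filter (fun q => g • q = q) with hA
    by_cases hg1 : g = 1
    · have hAu : A = Finset.univ := by
        rw [hA, hg1]
        simp
      rw [if_pos hg1, hAu, Finset.card_univ, c.cardOm]
      have hnE : ¬ c.ES g := fun h => h.2 c.inf (by rw [hg1, one_smul])
      rw [if_neg hnE]
      norm_num
      ring
    · rw [if_neg hg1]
      have hle : A.card ≤ 2 := by
        by_contra hcon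
        push Not at hcon
        obtain ⟨P, Q, R, hP, hQ, hR, hPQ, hPR, hQR⟩ := Finset.two_lt_card_iff.mp hcon
        rw [hA, Finset.mem_filter] at hP hQ hR
        exact hg1 (c.sharp g P Q R hPQ hPR hQR hP.2 hQ.2 hR.2)
      have hcase : A.card = 0 ∨ A.card = 1 ∨ A.card = 2 := by omega
      rcases hcase with h | h | h
      · have hE : c.ES g := by
          refine ⟨hg, fun P hP => ?_⟩
          rw [Finset.card_eq_zero] at h
          have : P ∈ A := by
            rw [hA, Finset.mem_filter]
            exact ⟨Finset.mem_univ _, hP⟩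
          rw [h] at this
          exact absurd this (Finset.notMem_empty _)
        rw [if_pos hE, h]
        norm_num
      · have hnE : ¬ c.ES g := by
          intro hE
          obtain ⟨P, hP⟩ := Finset.card_pos.mp (by omega : 0 < A.card)
          rw [hA, Finset.mem_filter] at hP
          exact hE.2 P hP.2
        rw [if_neg hnE, h]
        norm_num
      · have hnE : ¬ c.ES g := by
          intro hE
          obtain ⟨P, hP⟩ := Finset.card_pos.mp (by omega : 0 < A.card)
          rw [hA, Finset.mem_filter] at hP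
          exact hE.2 P hP.2
        rw [if_neg hnE, h]
        norm_num
        ring
  rw [h3, sm_sub, sm_add, sm_sub, sm_mul, sm_mul, sm_one_point, h1, h2]
  unfold BS
  norm_num
  ring

lemma N_sum (h : K → ℂ) (hh : ∀ g ∈ c.BS, ∀ x ∈ c.BS, h (x * g * x⁻¹) = h g) :
    sm c.N h = sm c.BS h - 25 * sm c.T h + 25 * h 1 := by
  have h1 := sum_fix c.BS c.o ((Finset.univ : Finset Om).erase c.inf) h hh (by
    intro q hq
    rw [Finset.mem_erase] at hq
    obtain ⟨n, hn, h⟩ := c.Ntr q hq.1
    exact ⟨n, c.mem_BS.mpr ⟨c.NS hn, c.Ninf n hn⟩, h⟩)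
  rw [Finset.card_erase_of_mem (Finset.mem_univ _), Finset.card_univ, c.cardOm] at h1
  have h3 : sm c.N h = sm c.BS (fun g => (h g - h g *
      (fixc ((Finset.univ : Finset Om).erase c.inf) g : ℂ))
      + 25 * (if g = 1 then h g else 0)) := by
    unfold sm
    refine Finset.sum_congr rfl fun g _ => ?_
    by_cases hg : g ∈ c.BS
    swap
    · rw [if_neg hg, if_neg (fun hN => hg (c.mem_BS.mpr ⟨c.NS hN, c.Ninf g hN⟩))]
    rw [if_pos hg]
    have hgS := (c.mem_BS.mp hg).1
    have hgi := (c.mem_BS.mp hg).2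
    beta_reduce
    unfold fixc
    set A := ((Finset.univ : Finset Om).erase c.inf).filter (fun q => g • q = q) with hA
    by_cases hg1 : g = 1
    · have hAu : A = (Finset.univ : Finset Om).erase c.inf := by
        rw [hA, hg1]
        simp
      rw [if_pos hg1, hAu, Finset.card_erase_of_mem (Finset.mem_univ _), Finset.card_univ, c.cardOm,
        if_pos (by rw [hg1]; exact one_mem _)]
      norm_num
      ring
    · rw [if_neg hg1]
      have hle : A.card ≤ 1 := by
        rw [Finset.card_le_one]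
        intro P hP Q hQ
        by_contra hPQ
        rw [hA, Finset.mem_filter, Finset.mem_erase] at hP hQ
        exact hg1 (c.sharp g c.inf P Q (Ne.symm hP.1.1) (Ne.symm hQ.1.1) hPQ hgi hP.2 hQ.2)
      have hcase : A.card = 0 ∨ A.card = 1 := by omega
      rcases hcase with h | h
      · have hN : g ∈ c.N := by
          apply c.Nmem g hgS hgi
          intro P hP hgP
          rw [Finset.card_eq_zero] at h
          have : P ∈ A := by
            rw [hA, Finset.mem_filter, Finset.mem_erase]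
            exact ⟨⟨hP, Finset.mem_univ _⟩, hgP⟩
          rw [h] at this
          exact absurd this (Finset.notMem_empty _)
        rw [if_pos hN, h]
        norm_num
      · have hN : g ∉ c.N := by
          intro hN
          obtain ⟨P, hP⟩ := Finset.card_pos.mp (by omega : 0 < A.card)
          rw [hA, Finset.mem_filter, Finset.mem_erase] at hP
          exact c.Nfree g hN hg1 P hP.1.1 hP.2
        rw [if_neg hN, h]
        norm_num
  rw [h3, sm_add, sm_sub, sm_mul, sm_one_point, h1]
  unfold T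
  norm_num

lemma E_sum (f : K → ℂ) (hf : IsClass f) :
    ∑ g : K, (if c.ES g then f g else 0) =
      sm c.S f - 26 * sm c.N f - 325 * sm c.T f + 350 * f 1 := by
  rw [c.E_sum0 f (fun g _ x _ => hf g x), c.N_sum f (fun g _ x _ => hf g x)]
  ring

lemma card_T : Nat.card c.T = 12 := c.cardT

lemma card_BS : Nat.card c.BS = 300 := by
  have h := c.N_sum (fun _ => 1) (fun _ _ _ _ => rfl)
  rw [sm_const_one, sm_const_one, sm_const_one, c.cardN, c.card_T] at h
  have h2 : ((Nat.card c.BS : ℕ) : ℂ) = ((300 : ℕ) : ℂ) := by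
    push_cast at h ⊢
    linear_combination -h
  exact_mod_cast h2

lemma card_ES : ∑ g : K, (if c.ES g then (1 : ℂ) else 0) = 3600 := by
  have h := c.E_sum (fun _ => 1) (fun _ _ => rfl)
  rw [sm_const_one, sm_const_one, sm_const_one, c.cardN, c.card_T, c.cardS] at h
  rw [h]
  norm_num

end KCfg

end Pool.Agent.R721.CD
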