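import Pool.Agent.Helper884.IC.Suf1
import Pool.Agent.H254R3.IN.Chars
import Pool.Agent.W540.BE.Rep

set_option linter.unusedSectionVars false
set_option linter.style.haveILetI false
set_option autoImplicit false

open scoped BigOperators Classical
open Representation Pool.Agent.Helper884.IC

noncomputable section

namespace Pool.Agent.R721.CD

variable {G : Type} [Group G] [Fintype G]

/-- characters of arbitrary finite-dimensional complex representations -/
def IsRepChar {G : Type} [Group G] (f : G → ℂ) : Prop :=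
  ∃ (V : Type) (_ : AddCommGroup V) (_ : Module ℂ V) (_ : FiniteDimensional ℂ V)
    (rho : Representation ℂ G V), f = rho.character

lemma IsRepChar.of_irr {f : G → ℂ} (h : IsIrrChar f) : IsRepChar f := by
  obtain ⟨V, _, _, _, rho, _, h⟩ := h
  exact ⟨V, _, _, inferInstance, rho, h⟩

lemma IsRepChar.comp {K : Type} [Group K] {f : G → ℂ} (h : IsRepChar f) (i : K →* G) :
    IsRepChar (fun k => f (i k)) := by
  obtain ⟨V, _, _, _, rho, rfl⟩ := h
  exact ⟨V, _, _, inferInstance, rho.comp i, rfl⟩

lemma IsRepChar.isClass {f : G → ℂ} (h : IsRepChar f) : IsClass f := by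
  obtain ⟨V, _, _, _, rho, rfl⟩ := h
  exact isClass_char rho

/-- multiplicities are natural numbers -/
lemma mult_nat_rep {f psi : G → ℂ} (hf : IsRepChar f) (h : IsRepChar psi) :
    ∃ n : ℕ, B f psi = n := by
  obtain ⟨V, _, _, _, rho, rfl⟩ := hf
  obtain ⟨W, _, _, _, sig, rfl⟩ := h
  haveI : Invertible (Nat.card G : ℂ) := invertibleOfNonzero cardG_ne
  have h1 := Representation.card_inv_mul_sum_char_mul_char_eq_finrank (G := G) sig rho
  exact ⟨_, h1⟩

/-- the value at an inverse is the complex conjugate -/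
lemma char_inv {f : G → ℂ} (h : IsRepChar f) (g : G) : f g⁻¹ = (starRingEnd ℂ) (f g) := by
  obtain ⟨V, _, _, _, rho, rfl⟩ := h
  let b := Module.finBasis ℂ V
  have e : ∀ x : G, rho.character x = ((LinearMap.toMatrix b b) (rho x)).trace := fun x =>
    LinearMap.trace_eq_matrix_trace ℂ b _
  obtain ⟨k, hk⟩ : ∃ k, Nat.card G = k + 1 := ⟨Nat.card G - 1, by
    have := Nat.card_pos (α := G); omega⟩
  have h1 := Pool.Agent.W540.BE.trace_conj_matrix (LinearMap.toMatrix b b (rho g))
    (LinearMap.toMatrix b b (rho g⁻¹)) (by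
      rw [← LinearMap.toMatrix_mul, ← map_mul, mul_inv_cancel, map_one, LinearMap.toMatrix_one])
    (k := k) (by
      have : (LinearMap.toMatrix b b (rho g)) ^ (k + 1) = LinearMap.toMatrix b b (rho g ^ (k + 1)) :=
        (map_pow (LinearMap.toMatrixAlgEquiv b) (rho g) (k + 1)).symm
      rw [this, ← map_pow, ← hk, pow_card_eq_one', map_one, LinearMap.toMatrix_one])
  rw [e, e]
  exact h1.symm

lemma char_integral {f : G → ℂ} (h : IsIrrChar f) (g : G) : IsIntegral ℤ (f g) :=
  Pool.Agent.H254R3.IN.IsIrr.isIntegral h g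

lemma int_of_rat {z : ℂ} (h : IsIntegral ℤ z) (a b : ℤ) (hb : b ≠ 0) (hz : (b : ℂ) * z = a) :
    ∃ m : ℤ, z = m := by
  have hb' : (b : ℂ) ≠ 0 := by exact_mod_cast hb
  have h1 : z = (a : ℂ) / b := by
    rw [← hz]
    field_simp
  rw [h1] at h
  obtain ⟨m, rfl⟩ := int_of_integral_rat hb h
  refine ⟨m, ?_⟩
  rw [h1]
  push_cast
  field_simp

lemma irr_deg {chi : G → ℂ} (h : IsIrrChar chi) : ∃ n : ℕ, 0 < n ∧ chi 1 = n := by
  obtain ⟨n, hn, h1⟩ := Pool.Agent.H254R3.IN.IsIrr.deg h
  exact ⟨n, hn, h1.symm⟩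

lemma expand_at (f : G → ℂ) (hf : IsClass f) (g : G) : f g = ∑ chi ∈ Irr G, B f chi * chi g := by
  have := congrFun (expand f hf) g
  simpa using this

lemma indChar_one (C : Subgroup G) (lam : C →* ℂˣ) :
    indChar C lam 1 = (Nat.card C : ℂ)⁻¹ * Nat.card G := by
  unfold indChar
  have : ∀ y : G, lamExt C lam (y⁻¹ * 1 * y) = 1 := by
    intro y
    have : y⁻¹ * 1 * y = 1 := by group
    rw [this]
    unfold lamExt
    rw [dif_pos (one_mem C)]
    have : (⟨1, one_mem C⟩ : C) = 1 := rfl
    rw [this, map_one, Units.val_one]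
  simp only [this]
  simp

/-- if `chi` occurs in `indChar C lam` then its degree is at most the index -/
lemma deg_le (C : Subgroup G) (lam : C →* ℂˣ) {chi : G → ℂ} (h : IsIrrChar chi)
    (hB : B (indChar C lam) chi ≠ 0) {d : ℕ} (hd : chi 1 = d) {m : ℕ}
    (hm : Nat.card G = m * Nat.card C) : d ≤ m := by
  have h1 := expand_at _ (isClass_indChar C lam) 1
  rw [indChar_one, hm] at h1
  have h2 : ((Nat.card C : ℕ) : ℂ)⁻¹ * ((m * Nat.card C : ℕ) : ℂ) = m := by
    have := cardC_ne C
    push_cast
    field_simp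
  rw [h2] at h1
  have key : ∀ psi ∈ Irr G, ∃ n : ℕ, B (indChar C lam) psi * psi 1 = n := by
    intro psi hpsi
    obtain ⟨n1, hn1⟩ := mult_nat C lam (mem_Irr.mp hpsi)
    obtain ⟨n2, -, hn2⟩ := irr_deg (mem_Irr.mp hpsi)
    exact ⟨n1 * n2, by rw [hn1, hn2]; push_cast; rfl⟩
  choose! nn hnn using key
  rw [Finset.sum_congr rfl hnn] at h1
  have h3 : m = ∑ psi ∈ Irr G, nn psi := by exact_mod_cast h1
  have hmem : chi ∈ Irr G := mem_Irr.mpr h
  have h4 : nn chi ≤ m := by
    rw [h3]
    exact Finset.single_le_sum (f := nn) (fun _ _ => Nat.zero_le _) hmem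
  obtain ⟨n1, hn1⟩ := mult_nat C lam h
  have h5 := hnn chi hmem
  rw [hn1, hd] at h5
  have h6 : n1 * d = nn chi := by exact_mod_cast h5
  have h7 : 0 < n1 := by
    rcases Nat.eq_zero_or_pos n1 with h | h
    · rw [h] at hn1
      exact absurd (by simpa using hn1) hB
    · exact h
  nlinarith

/-- existence of constituents -/
lemma exists_const (C : Subgroup G) (lam : C →* ℂˣ) :
    ∃ chi, IsIrrChar chi ∧ B (indChar C lam) chi ≠ 0 := by
  by_contra hcon
  push Not at hcon
  have h1 := expand_at _ (isClass_indChar C lam) 1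
  rw [indChar_one] at h1
  rw [Finset.sum_eq_zero (fun psi hpsi => by rw [hcon psi (mem_Irr.mp hpsi), zero_mul])] at h1
  have h2 := cardC_ne C
  have h3 := cardG_ne (G := G)
  rcases mul_eq_zero.mp h1 with h | h
  · exact (inv_ne_zero h2) h
  · exact h3 h

/-- dichotomy for a normal subgroup with abelian quotient -/
lemma dichotomy (D : Subgroup G) (hD : D.Normal) (hab : ∀ g h : G, g * h * g⁻¹ * h⁻¹ ∈ D)
    {chi : G → ℂ} (h : IsIrrChar chi) :
    (∑ g : G, if g ∈ D then chi g else 0) = 0 ∨
      (chi 1 = 1 ∧ (∀ g ∈ D, chi g = 1) ∧ ∀ g h, chi (g * h) = chi g * chi h) := by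
  obtain ⟨V, _, _, _, rho, hr, rfl⟩ := h
  have hχ : IsIrrChar rho.character := ⟨V, _, _, inferInstance, rho, hr, rfl⟩
  haveI := Pool.Agent.H254R3.IN.irr_nontrivial rho hr
  have h1 := Pool.Agent.H254R3.IN.class_scalar rho hr (fun g => if g ∈ D then 1 else 0) (by
    intro g y
    have : y * g * y⁻¹ ∈ D ↔ g ∈ D := by
      constructor
      · intro h
        have := hD.conj_mem _ h y⁻¹
        simpa [mul_assoc] using this
      · intro h
        exact hD.conj_mem _ h y
    simp only [this])
  simp only [ite_mul, one_mul, zero_mul, ite_smul, one_smul, zero_smul] at h1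
  set c := (∑ g : G, if g ∈ D then rho.character g else 0) / rho.character 1 with hc
  by_cases h0 : c = 0
  · left
    have h2 : rho.character 1 ≠ 0 := by
      obtain ⟨n, hn, h⟩ := irr_deg hχ
      rw [h]
      exact_mod_cast hn.ne'
    rw [hc] at h0
    rcases div_eq_zero_iff.mp h0 with h | h
    · exact h
    · exact absurd h h2
  · right
    have h2 : ∀ s ∈ D, rho s = 1 := by
      intro s hs
      have h3 : rho s * (∑ g : G, if g ∈ D then rho g else 0) =
          ∑ g : G, if g ∈ D then rho g else 0 := by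
        rw [Finset.mul_sum]
        refine Fintype.sum_equiv (Equiv.mulLeft s) _ _ fun g => ?_
        show rho s * (if g ∈ D then rho g else 0) = if s * g ∈ D then rho (s * g) else 0
        by_cases hg : g ∈ D
        · rw [if_pos hg, if_pos (mul_mem hs hg), map_mul]
        · rw [if_neg hg, if_neg (fun h => hg ((Subgroup.mul_mem_cancel_left D hs).mp h)), mul_zero]
      rw [h1] at h3
      have h4 : rho s * (c • (LinearMap.id : V →ₗ[ℂ] V)) = c • rho s := by
        ext v
        simp
      rw [h4] at h3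
      have h5 := congrArg (fun T => c⁻¹ • T) h3
      simp only [smul_smul, inv_mul_cancel₀ h0, one_smul] at h5
      exact h5
    have hcomm : ∀ g h : G, rho g * rho h = rho h * rho g := by
      intro g h
      have h3 := h2 _ (hab g h)
      have h4 : g * h = (g * h * g⁻¹ * h⁻¹) * (h * g) := by group
      rw [← map_mul, h4, map_mul, h3, one_mul, map_mul]
    have hsc : ∀ g : G, ∃ z : ℂ, rho g = z • LinearMap.id := by
      intro g
      apply Pool.Agent.H254R3.IN.schur rho hr
      intro h v
      have := congrArg (fun T : V →ₗ[ℂ] V => T v) (hcomm g h)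
      exact this
    choose z hz using hsc
    have hfr : Module.finrank ℂ V = 1 := by
      -- every line is a subrepresentation
      obtain ⟨v, hv⟩ := exists_ne (0 : V)
      rw [finrank_eq_one_iff_of_nonzero v hv]
      let W : Subrepresentation rho :=
        { toSubmodule := Submodule.span ℂ {v}
          apply_mem_toSubmodule := by
            intro g w hw
            rw [hz g]
            exact Submodule.smul_mem _ _ hw }
      haveI := hr
      have hs : IsSimpleOrder (Subrepresentation rho) := hr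
      rcases hs.eq_bot_or_eq_top W with h | h
      · exfalso
        have h3 : v ∈ W := Submodule.mem_span_singleton_self v
        rw [h] at h3
        have h4 : v ∈ (⊥ : Submodule ℂ V) := h3
        exact hv ((Submodule.mem_bot ℂ).mp h4)
      · have h4 : W.toSubmodule = ⊤ := by
          rw [h]; rfl
        exact h4
    have hone : rho.character 1 = 1 := by
      rw [rho.char_one, hfr, Nat.cast_one]
    have hval : ∀ g, rho.character g = z g := by
      intro g
      unfold Representation.character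
      rw [hz g, map_smul, LinearMap.trace_id, hfr]
      simp
    refine ⟨hone, ?_, ?_⟩
    · intro g hg
      have : rho.character g = rho.character 1 := by
        unfold Representation.character
        rw [h2 g hg, MonoidHom.map_one]
      rw [this, hone]
    · intro g h
      rw [hval, hval, hval]
      have h3 : z (g * h) • (LinearMap.id : V →ₗ[ℂ] V) = (z g * z h) • LinearMap.id := by
        rw [← hz, map_mul, hz g, hz h]
        ext v
        simp [smul_smul, mul_comm]
      exact Pool.Agent.H254R3.IN.scalar_inj h3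

/-- a linear constituent: `D ≤ C` with `C / D` abelian, `chi` not orthogonal to `1_D` -/
lemma lin_const (C D : Subgroup G) (hDC : D ≤ C) (hnorm : ∀ c ∈ C, ∀ d ∈ D, c * d * c⁻¹ ∈ D)
    (hab : ∀ g ∈ C, ∀ h ∈ C, g * h * g⁻¹ * h⁻¹ ∈ D) {chi : G → ℂ} (h : IsIrrChar chi)
    (hne : (∑ g : G, if g ∈ D then chi g else 0) ≠ 0) :
    ∃ lam : C →* ℂˣ, B (indChar C lam) chi ≠ 0 := by
  let D' : Subgroup C := D.subgroupOf C
  have hD' : D'.Normal := ⟨fun d hd c => by
    have := hnorm c c.2 d hd
    exact this⟩
  have hab' : ∀ g h : C, g * h * g⁻¹ * h⁻¹ ∈ D' := fun g h => hab g g.2 h h.2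
  -- the indicator function of D' in C
  let f : C → ℂ := fun c => if c ∈ D' then 1 else 0
  have hf : IsClass f := by
    intro g y
    have : y * g * y⁻¹ ∈ D' ↔ g ∈ D' := by
      constructor
      · intro h
        have := hD'.conj_mem _ h y⁻¹
        simpa [mul_assoc] using this
      · intro h
        exact hD'.conj_mem _ h y
    simp only [f, this]
  have h1 : ∑ c : C, f c * chi ((c : G)⁻¹) = ∑ g : G, if g ∈ D then chi g else 0 := by
    have e1 : ∑ g : G, (if g ∈ D then chi g else 0) = ∑ g : G, if g ∈ D then chi g⁻¹ else 0 := by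
      refine Fintype.sum_equiv (Equiv.inv G) _ _ fun g => ?_
      show (if g ∈ D then chi g else 0) = if g⁻¹ ∈ D then chi g⁻¹⁻¹ else 0
      rw [inv_inv]
      simp only [inv_mem_iff]
    rw [e1]
    have e2 : ∑ g : G, (if g ∈ D then chi g⁻¹ else 0) =
        ∑ g ∈ Finset.univ.filter (· ∈ C), if g ∈ D then chi g⁻¹ else 0 := by
      rw [Finset.sum_filter]
      refine Finset.sum_congr rfl fun g _ => ?_
      by_cases hg : g ∈ C
      · rw [if_pos hg]
      · rw [if_neg hg, if_neg (fun h => hg (hDC h))]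
    rw [e2, Finset.sum_subtype (p := fun g => g ∈ C) (F := inferInstance) _ (by simp)]
    refine Finset.sum_congr rfl fun c _ => ?_
    show (if c ∈ D' then (1 : ℂ) else 0) * chi ((c : G)⁻¹) = if (c : G) ∈ D then chi (c : G)⁻¹ else 0
    by_cases hc : (c : G) ∈ D
    · rw [if_pos (show c ∈ D' from hc), if_pos hc, one_mul]
    · rw [if_neg (show ¬ c ∈ D' from hc), if_neg hc, zero_mul]
  have h2 : ∑ psi ∈ Irr C, B f psi * ∑ c : C, psi c * chi ((c : G)⁻¹) ≠ 0 := by
    have e : ∑ psi ∈ Irr C, B f psi * ∑ c : C, psi c * chi ((c : G)⁻¹) =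
        ∑ c : C, f c * chi ((c : G)⁻¹) := by
      simp only [Finset.mul_sum]
      rw [Finset.sum_comm]
      refine Finset.sum_congr rfl fun c _ => ?_
      rw [expand_at f hf c, Finset.sum_mul]
      refine Finset.sum_congr rfl fun psi _ => by ring
    rw [e, h1]
    exact hne
  obtain ⟨psi, hpsi, h3⟩ := Finset.exists_ne_zero_of_sum_ne_zero h2
  have hpsi' := mem_Irr.mp hpsi
  have hB : B f psi ≠ 0 := left_ne_zero_of_mul h3
  have hS : ∑ c : C, psi c * chi ((c : G)⁻¹) ≠ 0 := right_ne_zero_of_mul h3
  rcases dichotomy D' hD' hab' hpsi' with h4 | ⟨h4, -, h6⟩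
  · exfalso
    apply hB
    rw [B_comm]
    unfold B
    have : ∑ g : C, psi g * f g⁻¹ = 0 := by
      rw [← h4]
      refine Finset.sum_congr rfl fun g _ => ?_
      show psi g * (if g⁻¹ ∈ D' then (1 : ℂ) else 0) = _
      simp only [inv_mem_iff]
      split_ifs <;> simp
    rw [this, mul_zero]
  · have hunit : ∀ c : C, psi c * psi c⁻¹ = 1 := by
      intro c
      rw [← h6, mul_inv_cancel, h4]
    let lam : C →* ℂˣ :=
      { toFun := fun c => ⟨psi c, psi c⁻¹, hunit c, by rw [mul_comm]; exact hunit c⟩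
        map_one' := Units.ext h4
        map_mul' := fun a b => Units.ext (h6 a b) }
    refine ⟨lam, ?_⟩
    rw [frob _ _ _ h.isClass, sum_lamExt C lam (fun g => chi g⁻¹)]
    exact mul_ne_zero (inv_ne_zero (cardC_ne C)) hS

end Pool.Agent.R721.CD
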