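import Pool.Agent.R721.CD.Four

set_option linter.unusedSectionVars false
set_option linter.style.haveILetI false
set_option autoImplicit false

open scoped BigOperators Classical
open Representation Pool.Agent.Helper884.IC

noncomputable section

namespace Pool.Agent.R721.CD.KCfg

variable {K Om : Type} [Group K] [Fintype K] [MulAction K Om] [Fintype Om] (c : KCfg K Om)

lemma cent_free {g : K} (hg : c.ES g) {x : K} (hx : x * g = g * x) {P : Om} (hP : x • P = P) :
    x = 1 := by
  have h1 : x • g • P = g • P := by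
    rw [smul_smul, hx, mul_smul, hP]
  have h2 : x • g • g • P = g • g • P := by
    rw [smul_smul, hx, mul_smul, h1]
  refine c.sharp x P (g • P) (g • g • P) (hg.2 P).symm ?_ (hg.2 _).symm hP h1 h2
  intro h
  obtain ⟨Q, hQ⟩ := c.inv1 g hg.1 P h.symm
  exact hg.2 Q hQ

lemma card_cent {g : K} (hg : c.ES g) : Nat.card (Subgroup.centralizer ({g} : Set K)) = 13 := by
  set C := Subgroup.centralizer ({g} : Set K) with hC
  have hmem : ∀ x : K, x ∈ C ↔ x * g = g * x := by
    intro x
    rw [hC, Subgroup.mem_centralizer_singleton_iff]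
  have hfree : ∀ x : C, ∀ P : Om, x • P = P → x = 1 := by
    intro x P hP
    exact Subtype.ext (c.cent_free hg ((hmem x).mp x.2) (P := P) hP)
  have hdvd : Nat.card C ∣ 26 := by
    haveI : Fintype (Quotient (MulAction.orbitRel C Om)) := Fintype.ofFinite _
    haveI : ∀ x : C, Fintype (MulAction.fixedBy Om x) := fun x => Fintype.ofFinite _
    have h1 := MulAction.sum_card_fixedBy_eq_card_orbits_mul_card_group C Om
    rw [Finset.sum_eq_single 1] at h1
    · have h2 : Fintype.card (MulAction.fixedBy Om (1 : C)) = 26 := by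
        rw [← c.cardOm]
        refine Fintype.card_congr ⟨fun x => x.1, fun x => ⟨x, one_smul _ _⟩, fun x => rfl, fun x => rfl⟩
      rw [h2] at h1
      rw [Nat.card_eq_fintype_card, h1]
      exact Dvd.intro_left _ rfl
    · intro x _ hx
      rw [Fintype.card_eq_zero_iff]
      exact ⟨fun P => hx (hfree x P.1 P.2)⟩
    · intro h
      exact absurd (Finset.mem_univ _) h
  have hodd : ¬ 2 ∣ Nat.card C := by
    intro h2
    haveI : Fact (Nat.Prime 2) := ⟨Nat.prime_two⟩
    obtain ⟨x, hx⟩ := exists_prime_orderOf_dvd_card' 2 h2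
    have h3 : x * x = 1 := by
      have := pow_orderOf_eq_one x
      rw [hx, pow_two] at this
      exact this
    obtain ⟨Q, hQ⟩ := c.inv2 (x : K) (by
      have := congrArg (fun y : C => (y : K)) h3
      exact this)
    have h4 := hfree x Q hQ
    rw [h4, orderOf_one] at hx
    omega
  have hne : Nat.card C ≠ 1 := by
    intro h1
    have h2 : g ∈ C := (hmem g).mpr rfl
    rw [Subgroup.card_eq_one] at h1
    rw [h1, Subgroup.mem_bot] at h2
    exact hg.2 c.inf (by rw [h2, one_smul])
  have hle : Nat.card C ≤ 26 := Nat.le_of_dvd (by norm_num) hdvd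
  interval_cases h : Nat.card C <;> revert hdvd hodd hne <;> decide

lemma ES_conj {g : K} (x : K) : c.ES (x * g * x⁻¹) ↔ c.ES g := by
  have key : ∀ (g x : K), c.ES g → c.ES (x * g * x⁻¹) := by
    intro g x hg
    refine ⟨c.normS.conj_mem _ hg.1 _, fun P hP => ?_⟩
    rw [mul_smul, mul_smul] at hP
    apply hg.2 (x⁻¹ • P)
    rw [eq_inv_smul_iff]
    exact hP
  constructor
  · intro h
    have := key _ x⁻¹ h
    have e : x⁻¹ * (x * g * x⁻¹) * x⁻¹⁻¹ = g := by group
    rwa [e] at this
  · exact key g x

lemma ES_integral (f : K → ℂ) (hf : IsClass f) (hint : ∀ g, IsIntegral ℤ (f g)) :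
    ∃ z : ℂ, IsIntegral ℤ z ∧ ∑ g : K, (if c.ES g then f g else 0) = 1200 * z := by
  haveI : Fintype (ConjClasses K) := Fintype.ofFinite _
  let rep : ConjClasses K → K := fun q => Quotient.out q
  refine ⟨∑ q : ConjClasses K, if c.ES (rep q) then f (rep q) else 0, ?_, ?_⟩
  · refine IsIntegral.sum _ fun q _ => ?_
    split_ifs
    · exact hint _
    · exact isIntegral_zero
  · rw [← Finset.sum_fiberwise (s := Finset.univ) (g := fun g : K => ConjClasses.mk g),
      Finset.mul_sum]
    refine Finset.sum_congr rfl fun q _ => ?_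
    have hrep : ConjClasses.mk (rep q) = q := Quotient.out_eq q
    have h1 : ∀ g ∈ Finset.univ.filter (fun g : K => ConjClasses.mk g = q),
        (if c.ES g then f g else 0) = if c.ES (rep q) then f (rep q) else 0 := by
      intro g hg
      rw [Finset.mem_filter] at hg
      have h2 : IsConj (rep q) g := by
        rw [← ConjClasses.mk_eq_mk_iff_isConj, hrep, hg.2]
      obtain ⟨x, hx⟩ := isConj_iff.mp h2
      rw [← hx, c.ES_conj, hf]
    rw [Finset.sum_congr rfl h1, Finset.sum_const, nsmul_eq_mul]
    by_cases hE : c.ES (rep q)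
    · rw [if_pos hE]
      congr 1
      have h3 := Pool.Agent.H254R3.IN.card_class_mul (rep q)
      rw [c.card_cent hE, c.cardK] at h3
      have h4 : Nat.card {y : K // IsConj (rep q) y} = 1200 := by omega
      have h5 : (Finset.univ.filter (fun g : K => ConjClasses.mk g = q)).card = 1200 := by
        rw [← h4, Nat.card_eq_fintype_card, Fintype.card_subtype]
        congr 1
        ext g
        rw [Finset.mem_filter, Finset.mem_filter, ← ConjClasses.mk_eq_mk_iff_isConj, hrep]
        exact ⟨fun h => ⟨h.1, h.2.symm⟩, fun h => ⟨h.1, h.2.symm⟩⟩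
      rw [h5]
      norm_num
    · rw [if_neg hE, mul_zero, mul_zero]

end Pool.Agent.R721.CD.KCfg
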