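import Pool.Agent.R721.CD.Char

set_option linter.unusedSectionVars false
set_option linter.style.haveILetI false
set_option autoImplicit false

open scoped BigOperators Classical
open Representation Pool.Agent.Helper884.IC

noncomputable section

namespace Pool.Agent.R721.CD

variable {K : Type} [Group K] [Fintype K]

/-- sum over a subgroup -/
def sm (H : Subgroup K) (f : K → ℂ) : ℂ := ∑ g : K, if g ∈ H then f g else 0

lemma sm_congr {H : Subgroup K} {f f' : K → ℂ} (h : ∀ g ∈ H, f g = f' g) : sm H f = sm H f' := by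
  unfold sm
  refine Finset.sum_congr rfl fun g _ => ?_
  split_ifs with hg
  · exact h g hg
  · rfl

lemma sm_add (H : Subgroup K) (f f' : K → ℂ) : sm H (fun g => f g + f' g) = sm H f + sm H f' := by
  unfold sm
  rw [← Finset.sum_add_distrib]
  refine Finset.sum_congr rfl fun g _ => ?_
  split_ifs <;> simp

lemma sm_sub (H : Subgroup K) (f f' : K → ℂ) : sm H (fun g => f g - f' g) = sm H f - sm H f' := by
  unfold sm
  rw [← Finset.sum_sub_distrib]
  refine Finset.sum_congr rfl fun g _ => ?_
  split_ifs <;> simp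

lemma sm_mul (H : Subgroup K) (c : ℂ) (f : K → ℂ) : sm H (fun g => c * f g) = c * sm H f := by
  unfold sm
  rw [Finset.mul_sum]
  refine Finset.sum_congr rfl fun g _ => ?_
  split_ifs <;> simp

lemma sm_one_point (H : Subgroup K) (f : K → ℂ) :
    sm H (fun g => if g = 1 then f g else 0) = f 1 := by
  unfold sm
  rw [Finset.sum_eq_single 1]
  · simp [one_mem]
  · intro g _ hg
    simp [hg]
  · intro h
    exact absurd (Finset.mem_univ _) h

lemma sm_const_one (H : Subgroup K) : sm H (fun _ => 1) = Nat.card H := by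
  unfold sm
  rw [Finset.sum_boole, Nat.card_eq_fintype_card, Fintype.card_subtype]

lemma sm_inv (H : Subgroup K) (f : K → ℂ) : sm H (fun g => f g⁻¹) = sm H f := by
  unfold sm
  refine Fintype.sum_equiv (Equiv.inv K) _ _ fun g => ?_
  show (if g ∈ H then f g⁻¹ else 0) = if g⁻¹ ∈ H then f g⁻¹ else 0
  simp only [inv_mem_iff]

lemma sm_subtype (H : Subgroup K) (f : K → ℂ) : sm H f = ∑ h : H, f h := by
  unfold sm
  rw [← Finset.sum_filter, Finset.sum_subtype (p := fun g => g ∈ H) (F := inferInstance) _ (by simp)]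

lemma sum_lamExt' (C : Subgroup K) (lam : C →* ℂˣ) (f : K → ℂ) :
    ∑ g : K, lamExt C lam g * f g = sm C (fun g => lamExt C lam g * f g) := by
  unfold sm
  refine Finset.sum_congr rfl fun g _ => ?_
  by_cases hg : g ∈ C
  · rw [if_pos hg]
  · rw [if_neg hg, lamExt, dif_neg hg, zero_mul]

/-- number of fixed points in `A` -/
def fixc {X : Type} [MulAction K X] (A : Finset X) (g : K) : ℕ :=
  (A.filter (fun q => g • q = q)).card

/-- double counting of fixed points -/
lemma sum_fix {X : Type} [MulAction K X] (H : Subgroup K) (p : X) (A : Finset X) (f : K → ℂ)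
    (hf : ∀ g ∈ H, ∀ x ∈ H, f (x * g * x⁻¹) = f g) (htr : ∀ q ∈ A, ∃ x ∈ H, x • p = q) :
    sm H (fun g => f g * (fixc A g : ℂ)) =
      (A.card : ℂ) * sm (H ⊓ MulAction.stabilizer K p) f := by
  unfold fixc
  have h1 : sm H (fun g => f g * ((A.filter (fun q => g • q = q)).card : ℂ)) =
      ∑ q ∈ A, ∑ g : K, if g ∈ H ∧ g • q = q then f g else 0 := by
    unfold sm
    rw [Finset.sum_comm]
    refine Finset.sum_congr rfl fun g _ => ?_
    by_cases hg : g ∈ H
    · rw [if_pos hg]
      have : ∑ q ∈ A, (if g ∈ H ∧ g • q = q then f g else 0) =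
          ∑ q ∈ A, if g • q = q then f g else 0 := by
        refine Finset.sum_congr rfl fun q _ => ?_
        simp only [hg, true_and]
      rw [this, ← Finset.sum_filter, Finset.sum_const, nsmul_eq_mul, mul_comm]
    · rw [if_neg hg]
      symm
      refine Finset.sum_eq_zero fun q _ => ?_
      simp [hg]
  rw [h1]
  have h2 : ∀ q ∈ A, (∑ g : K, if g ∈ H ∧ g • q = q then f g else 0) =
      sm (H ⊓ MulAction.stabilizer K p) f := by
    intro q hq
    obtain ⟨x, hx, rfl⟩ := htr q hq
    unfold sm
    symm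
    refine Fintype.sum_equiv (MulAut.conj x).toEquiv _ _ fun g => ?_
    show (if g ∈ H ⊓ MulAction.stabilizer K p then f g else 0) =
      if x * g * x⁻¹ ∈ H ∧ (x * g * x⁻¹) • x • p = x • p then f (x * g * x⁻¹) else 0
    have e1 : x * g * x⁻¹ ∈ H ↔ g ∈ H := by
      rw [Subgroup.mul_mem_cancel_right H (inv_mem hx), Subgroup.mul_mem_cancel_left H hx]
    have e2 : (x * g * x⁻¹) • x • p = x • p ↔ g • p = p := by
      rw [smul_smul, inv_mul_cancel_right, mul_smul]
      exact (MulAction.injective x).eq_iff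
    rw [e1, e2, Subgroup.mem_inf, MulAction.mem_stabilizer_iff]
    by_cases hg : g ∈ H ∧ g • p = p
    · rw [if_pos hg, if_pos hg, hf g hg.1 x hx]
    · rw [if_neg hg, if_neg hg]
  rw [Finset.sum_congr rfl h2, Finset.sum_const, nsmul_eq_mul]

end Pool.Agent.R721.CD
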