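import Pool.Agent.R721.CD.Main

set_option linter.unusedSectionVars false
set_option linter.style.haveILetI false
set_option autoImplicit false

open scoped BigOperators Classical
open Representation Pool.Agent.Helper884.IC

noncomputable section

namespace Pool.Agent.R721.CD

variable {K Om : Type} [Group K] [Fintype K] [MulAction K Om] [Fintype Om]

/-- multiplicity of the trivial character of a subgroup -/
lemma B_ind_one (C : Subgroup K) {chi : K → ℂ} (hcl : IsClass chi) :
    B (indChar C 1) chi = (Nat.card C : ℂ)⁻¹ * sm C chi := by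
  rw [frob _ _ _ hcl, sum_lamExt']
  congr 1
  rw [← sm_inv C chi]
  apply sm_congr
  intro g hg
  unfold lamExt
  rw [dif_pos hg]
  simp

lemma sm_bot (f : K → ℂ) : sm (⊥ : Subgroup K) f = f 1 := by
  rw [← sm_one_point ⊥ f]
  apply sm_congr
  intro g hg
  rw [Subgroup.mem_bot] at hg
  rw [if_pos hg]

lemma sum_sq : ∑ psi ∈ Irr K, psi 1 * psi 1 = (Nat.card K : ℂ) := by
  have h1 := expand_at _ (isClass_indChar (⊥ : Subgroup K) 1) 1
  rw [indChar_one] at h1
  simp only [Subgroup.card_bot, Nat.cast_one, inv_one, one_mul] at h1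
  rw [h1]
  refine Finset.sum_congr rfl fun psi hpsi => ?_
  rw [B_ind_one _ (mem_Irr.mp hpsi).isClass, sm_bot]
  simp

lemma sum_ind (C : Subgroup K) :
    ∑ psi ∈ Irr K, ((Nat.card C : ℂ)⁻¹ * sm C psi) * psi 1 = (Nat.card C : ℂ)⁻¹ * Nat.card K := by
  have h1 := expand_at _ (isClass_indChar C 1) 1
  rw [indChar_one] at h1
  rw [h1]
  refine Finset.sum_congr rfl fun psi hpsi => ?_
  rw [B_ind_one _ (mem_Irr.mp hpsi).isClass]

namespace KCfg

variable (c : KCfg K Om)

lemma nk_triv {psi : K → ℂ} (h : IsIrrChar psi) (h1 : psi 1 = 1) (hS : ∀ g ∈ c.S, psi g = 1) (k : ℕ) :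
    12 * c.nk k psi = ∑ t : c.T, ((c.lt t : ℂˣ) : ℂ) ^ k := by
  have h2 := c.nk_eq psi h.isClass k
  have h3 : sm c.N psi = 25 := by
    have : sm c.N psi = sm c.N (fun _ => 1) := sm_congr (fun g hg => hS g (c.NS hg))
    rw [this, sm_const_one, c.cardN]
    norm_num
  have h4 : ∑ t : c.T, ((c.lt t : ℂˣ) : ℂ) ^ k * psi ((t : K)⁻¹) =
      ∑ t : c.T, ((c.lt t : ℂˣ) : ℂ) ^ k := by
    refine Finset.sum_congr rfl fun t _ => ?_
    rw [hS _ (inv_mem (c.mem_T.mp t.2).1.1), mul_one]
  rw [h3, h4, h1] at h2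
  linear_combination h2 / 25

lemma lt_sum {k : ℕ} (hk : ¬ 12 ∣ k) : ∑ t : c.T, ((c.lt t : ℂˣ) : ℂ) ^ k = 0 := by
  -- a nontrivial character sums to zero
  have hex : ∃ t0 : c.T, c.lt t0 ^ k ≠ 1 := by
    by_contra hcon
    push Not at hcon
    -- then the image of `lt` has exponent dividing gcd(k, 12) < 12
    have h1 : ∀ t : c.T, t ^ k = 1 := by
      intro t
      apply c.lt_inj
      rw [map_pow, hcon t, map_one]
    haveI : IsCyclic c.T := isCyclic_of_injective_ringHom ((Units.coeHom ℂ).comp c.lt)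
      (fun x y h => c.lt_inj (Units.ext h))
    obtain ⟨g, hg⟩ := IsCyclic.exists_ofOrder_eq_natCard (α := c.T)
    rw [c.card_T] at hg
    apply hk
    rw [← hg]
    exact orderOf_dvd_of_pow_eq_one (h1 g)
  obtain ⟨t0, ht0⟩ := hex
  have h2 : ((c.lt t0 : ℂˣ) : ℂ) ^ k * ∑ t : c.T, ((c.lt t : ℂˣ) : ℂ) ^ k =
      ∑ t : c.T, ((c.lt t : ℂˣ) : ℂ) ^ k := by
    rw [Finset.mul_sum]
    refine Fintype.sum_equiv (Equiv.mulLeft t0) _ _ fun t => ?_
    show ((c.lt t0 : ℂˣ) : ℂ) ^ k * ((c.lt t : ℂˣ) : ℂ) ^ k = ((c.lt (t0 * t) : ℂˣ) : ℂ) ^ k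
    rw [map_mul, Units.val_mul, mul_pow]
  have h3 : ((c.lt t0 : ℂˣ) : ℂ) ^ k ≠ 1 := by
    intro h
    apply ht0
    apply Units.ext
    rw [Units.val_pow_eq_pow_val, h, Units.val_one]
  have h4 : (((c.lt t0 : ℂˣ) : ℂ) ^ k - 1) * ∑ t : c.T, ((c.lt t : ℂˣ) : ℂ) ^ k = 0 := by
    rw [sub_mul, h2, one_mul, sub_self]
  rcases mul_eq_zero.mp h4 with h | h
  · exact absurd (sub_eq_zero.mp h) h3
  · exact h

/-- characters with `lam ^ 6` in their restriction have degree 26 -/
theorem deg26 {psi : K → ℂ} (h : IsIrrChar psi) (h6 : c.nk 6 psi ≠ 0) : psi 1 = 26 := by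
  rcases c.cls h with ⟨h1, hS⟩ | ⟨-, n, a, D, hn, -, ha, -, hD, hc⟩
  · exfalso
    have h2 := c.nk_triv h h1 hS 6
    rw [c.lt_sum (by decide)] at h2
    exact h6 (by linear_combination h2 / 12)
  · have hn6 : n 6 ≠ 0 := by
      rw [hn 6] at h6
      exact_mod_cast h6
    have sym : ∀ j k : ℕ, 12 ∣ j + k → n k = n j := by
      intro j k hjk
      have := c.nk_sym_w psi h.isClass hjk
      rw [hn, hn] at this
      exact_mod_cast this
    rcases hc with ⟨rfl, ha1, h0⟩ | ⟨rfl, -, -⟩ | ⟨rfl, ha1, -⟩ | ⟨rfl, ha1, h0, hsq⟩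
    · exfalso
      rw [ha1] at ha
      simp only [Finset.sum_range_succ, Finset.sum_range_zero] at ha
      omega
    · rw [hD]; norm_num
    · exfalso
      rw [ha1] at ha
      simp only [Finset.sum_range_succ, Finset.sum_range_zero] at ha
      omega
    · exfalso
      rw [ha1] at ha
      simp only [Finset.sum_range_succ, Finset.sum_range_zero] at ha
      have e1 := sym 1 11 (by decide)
      have e2 := sym 2 10 (by decide)
      have e3 := sym 3 9 (by decide)
      have e4 := sym 4 8 (by decide)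
      have e5 := sym 5 7 (by decide)
      have hle : n 6 ≤ 1 := by
        have h4 : ∑ j ∈ Finset.range 12, n j = ∑ j ∈ Finset.range 12, (n j) ^ 2 := by
          rw [hsq]
          simp only [Finset.sum_range_succ, Finset.sum_range_zero]
          omega
        have h5 : ∀ j ∈ Finset.range 12, n j ≤ (n j) ^ 2 := by
          intro j _
          rcases Nat.eq_zero_or_pos (n j) with h | h
          · rw [h]; simp
          · nlinarith
        have h6 := (Finset.sum_eq_sum_iff_of_le h5).mp h4 6 (by simp)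
        by_contra hcon
        have h7 : 2 ≤ n 6 := by omega
        nlinarith
      omega

/-- characters with `lam` in their restriction have degree 52 -/
theorem deg52 {psi : K → ℂ} (h : IsIrrChar psi) (h6 : c.nk 1 psi ≠ 0) : psi 1 = 52 := by
  rcases c.cls h with ⟨h1, hS⟩ | ⟨-, n, a, D, hn, -, ha, -, hD, hc⟩
  · exfalso
    have h2 := c.nk_triv h h1 hS 1
    rw [c.lt_sum (by decide)] at h2
    exact h6 (by linear_combination h2 / 12)
  · have hn6 : n 1 ≠ 0 := by
      rw [hn 1] at h6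
      exact_mod_cast h6
    have sym : ∀ j k : ℕ, 12 ∣ j + k → n k = n j := by
      intro j k hjk
      have := c.nk_sym_w psi h.isClass hjk
      rw [hn, hn] at this
      exact_mod_cast this
    have e1 := sym 1 11 (by decide)
    have e2 := sym 5 7 (by decide)
    have e3 : n 5 = n 1 := by
      have := c.nk_sym_s psi h.isClass 1
      rw [hn, hn] at this
      exact_mod_cast this
    simp only [Finset.sum_range_succ, Finset.sum_range_zero] at ha
    rcases hc with ⟨rfl, ha1, h0⟩ | ⟨rfl, ha1, -⟩ | ⟨rfl, ha1, -⟩ | ⟨rfl, ha1, h0, hsq⟩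
    · omega
    · omega
    · omega
    · rw [hD]; norm_num

include c in
theorem exists25 : ∃ psi : K → ℂ, IsIrrChar psi ∧ psi 1 = 25 := by
  by_contra hcon
  push Not at hcon
  have h1 := sum_ind c.BS
  have h2 := sum_ind c.S
  have h3 : ∀ psi ∈ Irr K, ((Nat.card c.BS : ℂ)⁻¹ * sm c.BS psi) = ((Nat.card c.S : ℂ)⁻¹ * sm c.S psi) := by
    intro psi hpsi
    have hi := mem_Irr.mp hpsi
    rcases c.cls hi with ⟨h1, hS⟩ | ⟨hS0, n, a, D, hn, -, ha, -, hD, hc⟩
    · have e1 : sm c.BS psi = Nat.card c.BS := by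
        rw [← sm_const_one]
        exact sm_congr (fun g hg => hS g (c.mem_BS.mp hg).1)
      have e2 : sm c.S psi = Nat.card c.S := by
        rw [← sm_const_one]
        exact sm_congr (fun g hg => hS g hg)
      rw [e1, e2, inv_mul_cancel₀ (cardC_ne _), inv_mul_cancel₀ (cardC_ne _)]
    · rw [hS0, mul_zero]
      have h0 : n 0 = 0 := by
        rcases hc with ⟨rfl, -, -⟩ | ⟨-, -, h⟩ | ⟨-, -, h⟩ | ⟨-, -, h, -⟩
        · exact absurd (by rw [hD]; norm_num) (hcon psi hi)
        · exact h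
        · exact h
        · exact h
      have h4 := hn 0
      unfold nk at h4
      have e0 : c.lam' ^ 0 = 1 := by
        ext x
        rw [MonoidHom.pow_apply]
        simp
      rw [e0, B_ind_one _ hi.isClass, h0] at h4
      rw [h4]
      simp
  rw [Finset.sum_congr rfl (fun psi hpsi => by rw [h3 psi hpsi])] at h1
  rw [h2, c.card_BS, c.cardS, c.cardK] at h1
  norm_num at h1

include c in
theorem exists48 : ∃ psi : K → ℂ, IsIrrChar psi ∧ psi 1 = 48 := by
  by_contra hcon
  push Not at hcon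
  have h1 := sum_ind c.N
  have h2 := sum_sq (K := K)
  have key : ∀ psi ∈ Irr K, ∃ D a : ℕ, psi 1 = D ∧ ((Nat.card c.N : ℂ)⁻¹ * sm c.N psi) = a ∧
      D * D ≤ 25 * (a * D) ∧ (D = 1 → a = 1) := by
    intro psi hpsi
    have hi := mem_Irr.mp hpsi
    rcases c.cls hi with ⟨h1, hS⟩ | ⟨hS0, n, a, D, hn, hN, ha, -, hD, hc⟩
    · refine ⟨1, 1, by rw [h1]; simp, ?_, by norm_num, fun _ => rfl⟩
      have e1 : sm c.N psi = Nat.card c.N := by
        rw [← sm_const_one]
        exact sm_congr (fun g hg => hS g (c.NS hg))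
      rw [e1, inv_mul_cancel₀ (cardC_ne _)]
      simp
    · refine ⟨D, a, hD, ?_, ?_, ?_⟩
      · rw [hN, c.cardN]
        push_cast
        ring
      · rcases hc with ⟨rfl, h, -⟩ | ⟨rfl, h, -⟩ | ⟨rfl, -, -⟩ | ⟨rfl, h, -, -⟩
        · rw [h]
        · rw [h]; norm_num
        · exact absurd (by rw [hD]; norm_num) (hcon psi hi)
        · rw [h]; norm_num
      · intro h
        rcases hc with ⟨h', -, -⟩ | ⟨h', -, -⟩ | ⟨h', -, -⟩ | ⟨h', -, -, -⟩ <;> omega
  choose! D a hD ha hle hone using key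
  have h3 : ∑ psi ∈ Irr K, D psi * D psi = 15600 := by
    have : ∑ psi ∈ Irr K, psi 1 * psi 1 = ∑ psi ∈ Irr K, ((D psi : ℂ) * D psi) :=
      Finset.sum_congr rfl fun psi hpsi => by rw [hD psi hpsi]
    rw [this, c.cardK] at h2
    exact_mod_cast h2
  have h4 : ∑ psi ∈ Irr K, a psi * D psi = 624 := by
    have : ∑ psi ∈ Irr K, ((Nat.card c.N : ℂ)⁻¹ * sm c.N psi) * psi 1 =
        ∑ psi ∈ Irr K, ((a psi : ℂ) * D psi) :=
      Finset.sum_congr rfl fun psi hpsi => by rw [ha psi hpsi, hD psi hpsi]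
    rw [this, c.cardK, c.cardN] at h1
    have h5 : ((∑ psi ∈ Irr K, a psi * D psi : ℕ) : ℂ) = ((624 : ℕ) : ℂ) := by
      push_cast
      rw [h1]
      norm_num
    exact_mod_cast h5
  -- the principal character is strict
  have htriv : IsIrrChar (fun _ : K => (1 : ℂ)) := by
    obtain ⟨chi, hchi, hB⟩ := exists_const (⊤ : Subgroup K) 1
    rw [B_ind_one _ hchi.isClass] at hB
    have h5 : sm (⊤ : Subgroup K) chi ≠ 0 := right_ne_zero_of_mul hB
    rcases dichotomy (⊤ : Subgroup K) inferInstance (fun _ _ => Subgroup.mem_top _) hchi with h | h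
    · exact absurd h h5
    · have : chi = fun _ => (1 : ℂ) := funext fun g => h.2.1 g (Subgroup.mem_top _)
      rw [← this]
      exact hchi
  have hmem : (fun _ : K => (1 : ℂ)) ∈ Irr K := mem_Irr.mpr htriv
  have hD1 : D (fun _ : K => (1 : ℂ)) = 1 := by
    have := hD _ hmem
    exact_mod_cast this.symm
  have ha1 := hone _ hmem hD1
  have h5 : ∑ psi ∈ Irr K, D psi * D psi < ∑ psi ∈ Irr K, 25 * (a psi * D psi) := by
    refine Finset.sum_lt_sum hle ⟨_, hmem, ?_⟩
    rw [hD1, ha1]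
    norm_num
  rw [← Finset.mul_sum, h3, h4] at h5
  norm_num at h5

end KCfg

end Pool.Agent.R721.CD
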