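import Pool.Agent.R721.CD.Mob6

set_option linter.unusedSectionVars false
set_option linter.style.haveILetI false
set_option autoImplicit false

open scoped BigOperators Classical MatrixGroups
open Matrix Representation Pool.Agent.Helper884.IC

noncomputable section

namespace Pool.Agent.R721.CD

/-- The set of degrees of the irreducible complex representations of `X`. -/
def cd (X : Type) [Group X] : Set ℕ :=
  {d | ∃ (V : Type) (_ : AddCommGroup V) (_ : Module ℂ V) (_ : FiniteDimensional ℂ V)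
    (ρ : Representation ℂ X V), ρ.IsIrreducible ∧ Module.finrank ℂ V = d}

lemma mem_cd {X : Type} [Group X] {n : ℕ} : n ∈ cd X ↔ ∃ chi : X → ℂ, IsIrrChar chi ∧ chi 1 = n := by
  constructor
  · rintro ⟨V, i1, i2, i3, rho, hr, hd⟩
    refine ⟨rho.character, ⟨V, i1, i2, i3, rho, hr, rfl⟩, ?_⟩
    rw [rho.char_one, hd]
  · rintro ⟨chi, ⟨V, i1, i2, i3, rho, hr, rfl⟩, h⟩
    refine ⟨V, i1, i2, i3, rho, hr, ?_⟩
    rw [rho.char_one] at h
    exact_mod_cast h

lemma irr_comp {X Y V : Type} [Group X] [Group Y] [AddCommGroup V] [Module ℂ V]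
    (e : X ≃* Y) (rho : Representation ℂ Y V) (h : rho.IsIrreducible) :
    Representation.IsIrreducible (MonoidHom.comp rho e.toMonoidHom : Representation ℂ X V) := by
  let sig : Representation ℂ X V := rho.comp e.toMonoidHom
  have o : Subrepresentation sig ≃o Subrepresentation rho :=
    { toFun := fun W => ⟨W.toSubmodule, fun g w hw => by
        have := W.apply_mem_toSubmodule (e.symm g) hw
        have e1 : sig (e.symm g) = rho g := by
          show rho (e (e.symm g)) = rho g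
          rw [MulEquiv.apply_symm_apply]
        rwa [e1] at this⟩
      invFun := fun W => ⟨W.toSubmodule, fun g w hw => W.apply_mem_toSubmodule (e g) hw⟩
      left_inv := fun W => rfl
      right_inv := fun W => rfl
      map_rel_iff' := Iff.rfl }
  exact (OrderIso.isSimpleOrder_iff o).mpr h

lemma cd_le {X Y : Type} [Group X] [Group Y] (e : X ≃* Y) : cd Y ⊆ cd X := by
  rintro n ⟨V, i1, i2, i3, rho, hr, hd⟩
  exact ⟨V, i1, i2, i3, rho.comp e.toMonoidHom, irr_comp e rho hr, hd⟩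

lemma cd_congr {X Y : Type} [Group X] [Group Y] (e : X ≃* Y) : cd X = cd Y :=
  Set.Subset.antisymm (cd_le e.symm) (cd_le e)

lemma triv_irr {X : Type} [Group X] [Fintype X] : IsIrrChar (fun _ : X => (1 : ℂ)) := by
  obtain ⟨chi, hchi, hB⟩ := exists_const (⊤ : Subgroup X) 1
  rw [B_ind_one _ hchi.isClass] at hB
  have h5 : sm (⊤ : Subgroup X) chi ≠ 0 := right_ne_zero_of_mul hB
  rcases dichotomy (⊤ : Subgroup X) inferInstance (fun _ _ => Subgroup.mem_top _) hchi with h | h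
  · exact absurd h h5
  · have : chi = fun _ => (1 : ℂ) := funext fun g => h.2.1 g (Subgroup.mem_top _)
    rw [← this]
    exact hchi

section

variable {F : Type} [Field F] [Fintype F] [hF : Fact (Fintype.card F = 25)]

lemma cd_KK : cd (KK F) = {1, 25, 26, 48, 52} := by
  ext n
  rw [mem_cd]
  constructor
  · rintro ⟨chi, h, hn⟩
    rcases (kc F).cls h with ⟨h1, -⟩ | ⟨-, m, a, D, -, -, -, -, hD, hc⟩
    · rw [h1] at hn
      have : n = 1 := by exact_mod_cast hn.symm
      subst this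
      simp
    · rw [hD] at hn
      have : n = D := by exact_mod_cast hn.symm
      subst this
      rcases hc with ⟨h, -⟩ | ⟨h, -⟩ | ⟨h, -⟩ | ⟨h, -⟩ <;> rw [h] <;> simp
  · intro hn
    rcases hn with rfl | rfl | rfl | rfl | rfl
    · exact ⟨_, triv_irr, by norm_num⟩
    · obtain ⟨chi, h, h1⟩ := (kc F).exists25
      exact ⟨chi, h, by rw [h1]; norm_num⟩
    · obtain ⟨psi, hpsi, hn⟩ := exists_const (kc F).BS ((kc F).lam' ^ 6)
      exact ⟨psi, hpsi, by rw [(kc F).deg26 hpsi hn]; norm_num⟩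
    · obtain ⟨chi, h, h1⟩ := (kc F).exists48
      exact ⟨chi, h, by rw [h1]; norm_num⟩
    · obtain ⟨psi, hpsi, hn⟩ := exists_const (kc F).BS ((kc F).lam' ^ 1)
      exact ⟨psi, hpsi, by rw [(kc F).deg52 hpsi hn]; norm_num⟩

lemma cd_GG : cd (GG F) = {1, 25, 26, 48, 52} := by
  ext n
  rw [mem_cd]
  constructor
  · rintro ⟨chi, h, hn⟩
    have key : ∀ m : ℕ, chi 1 = m → n = m := by
      intro m hm
      rw [hm] at hn
      exact_mod_cast hn.symm
    rcases (gc F).g_upper h with h1 | h1 | h1 | h1 | h1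
    · rw [key 1 (by rw [h1]; norm_num)]; simp
    · rw [key 25 (by rw [h1]; norm_num)]; simp
    · rw [key 26 (by rw [h1]; norm_num)]; simp
    · rw [key 48 (by rw [h1]; norm_num)]; simp
    · rw [key 52 (by rw [h1]; norm_num)]; simp
  · intro hn
    rcases hn with rfl | rfl | rfl | rfl | rfl
    · exact ⟨_, triv_irr, by norm_num⟩
    · obtain ⟨chi, h, h1⟩ := (gc F).g25
      exact ⟨chi, h, by rw [h1]; norm_num⟩
    · obtain ⟨chi, h, h1⟩ := (gc F).g26
      exact ⟨chi, h, by rw [h1]; norm_num⟩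
    · obtain ⟨chi, h, h1⟩ := (gc F).g48
      exact ⟨chi, h, by rw [h1]; norm_num⟩
    · obtain ⟨chi, h, h1⟩ := (gc F).g52
      exact ⟨chi, h, by rw [h1]; norm_num⟩

/-- the action of `SL(2,F)` on the projective line -/
def jj : SL(2, F) →* Equiv.Perm (OnePoint F) := mm.comp Matrix.SpecialLinearGroup.toGL

lemma jj_ker : (jj (F := F)).ker = Subgroup.center SL(2, F) := by
  ext A
  rw [MonoidHom.mem_ker, Matrix.SpecialLinearGroup.mem_center_iff]
  constructor
  · intro h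
    have h0 : ∀ x : OnePoint F, (Matrix.SpecialLinearGroup.toGL A) • x = x := fun x =>
      congrArg (fun σ : Equiv.Perm (OnePoint F) => σ x) h
    obtain ⟨e1, e2, e3⟩ := scalar_of_fix (h0 _) (h0 _) (h0 _)
    have e1' : A.1 1 0 = 0 := e1
    have e2' : A.1 0 1 = 0 := e2
    have e3' : A.1 0 0 = A.1 1 1 := e3
    refine ⟨A.1 0 0, ?_, ?_⟩
    · have hd := A.2
      rw [Matrix.det_fin_two, e1', e2', ← e3'] at hd
      rw [Fintype.card_fin]
      linear_combination hd
    · ext i j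
      fin_cases i <;> fin_cases j
      · simp [Matrix.scalar]
      · simp [Matrix.scalar, e2']
      · simp [Matrix.scalar, e1']
      · simp [Matrix.scalar, e3']
  · rintro ⟨r, hr, h⟩
    have e1 : A.1 1 0 = 0 := by rw [← h]; simp [Matrix.scalar]
    have e2 : A.1 0 1 = 0 := by rw [← h]; simp [Matrix.scalar]
    have e3 : A.1 0 0 = A.1 1 1 := by rw [← h]; simp [Matrix.scalar]
    ext x
    exact smul_of_scalar (C := Matrix.SpecialLinearGroup.toGL A) e1 e2 e3 x

lemma jj_range : (jj (F := F)).range = SS F := by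
  ext σ
  constructor
  · rintro ⟨A, rfl⟩
    refine ⟨Matrix.SpecialLinearGroup.toGL A, ?_, ?_⟩
    · rw [qq_one_iff]
      have : (Matrix.SpecialLinearGroup.toGL A).1.det = 1 := A.2
      rw [this]
      exact ⟨1, by simp⟩
    · unfold el
      rw [cond_false, mul_one]
      rfl
  · rintro ⟨A, hA, rfl⟩
    rw [qq_one_iff] at hA
    obtain ⟨c, hc⟩ := hA
    have hc0 : c ≠ 0 := by
      rintro rfl
      exact A.det_ne_zero (by rw [hc]; ring)
    let B : SL(2, F) := ⟨c⁻¹ • A.1, by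
      rw [Matrix.det_smul, hc, Fintype.card_fin]
      field_simp⟩
    refine ⟨B, ?_⟩
    have hCd : c⁻¹ * c⁻¹ - 0 * 0 ≠ 0 := by
      rw [zero_mul, sub_zero]
      exact mul_ne_zero (inv_ne_zero hc0) (inv_ne_zero hc0)
    have h1 : Matrix.SpecialLinearGroup.toGL B = A * mk c⁻¹ 0 0 c⁻¹ hCd := by
      ext i j
      have e00 : (mk c⁻¹ 0 0 c⁻¹ hCd).1 0 0 = c⁻¹ := rfl
      have e01 : (mk c⁻¹ 0 0 c⁻¹ hCd).1 0 1 = 0 := rfl
      have e10 : (mk c⁻¹ 0 0 c⁻¹ hCd).1 1 0 = 0 := rfl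
      have e11 : (mk c⁻¹ 0 0 c⁻¹ hCd).1 1 1 = c⁻¹ := rfl
      show c⁻¹ * A.1 i j = (A.1 * (mk c⁻¹ 0 0 c⁻¹ hCd).1) i j
      rw [Matrix.mul_apply, Fin.sum_univ_two]
      fin_cases j
      · show c⁻¹ * A.1 i 0 = A.1 i 0 * (mk c⁻¹ 0 0 c⁻¹ hCd).1 0 0 + A.1 i 1 * (mk c⁻¹ 0 0 c⁻¹ hCd).1 1 0
        rw [e00, e10]; ring
      · show c⁻¹ * A.1 i 1 = A.1 i 0 * (mk c⁻¹ 0 0 c⁻¹ hCd).1 0 1 + A.1 i 1 * (mk c⁻¹ 0 0 c⁻¹ hCd).1 1 1
        rw [e01, e11]; ring
    show mm (Matrix.SpecialLinearGroup.toGL B) = el A false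
    rw [h1, map_mul]
    unfold el
    rw [cond_false, mul_one]
    have h2 : mm (mk c⁻¹ 0 0 c⁻¹ hCd) = 1 := by
      ext x
      exact smul_of_scalar (C := mk c⁻¹ 0 0 c⁻¹ hCd) rfl rfl rfl x
    rw [h2, mul_one]

/-- `PSL(2,F)` is isomorphic to `SS` -/
def ePSL : PSL(2, F) ≃* SS F :=
  ((QuotientGroup.quotientMulEquivOfEq (jj_ker (F := F))).symm.trans
    (QuotientGroup.quotientKerEquivRange (jj (F := F)))).trans
      (MulEquiv.subgroupCongr (jj_range (F := F)))

lemma SG : SS F ≤ GG F := (SK (F := F)).trans KG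

instance : ((SS F).subgroupOf (GG F)).Normal := ⟨fun n hn g => norm_SS g.2 hn⟩

def eS : ((SS F).subgroupOf (GG F) : Subgroup (GG F)) ≃* PSL(2, F) :=
  (Subgroup.subgroupOfEquivOfLe (SG (F := F))).trans (ePSL (F := F)).symm

/-- `PΓL(2,25)` acts on `PSL(2,25)` -/
def Phi : GG F →* MulAut PSL(2, F) :=
  (MulAut.congr (eS (F := F))).toMonoidHom.comp MulAut.conjNormal

lemma Phi_apply (g : GG F) (x : PSL(2, F)) :
    Phi g x = eS (MulAut.conjNormal g (eS.symm x)) := rfl

lemma Phi_inj : Function.Injective (Phi (F := F)) := by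
  rw [injective_iff_map_eq_one]
  intro g hg
  have hcomm : ∀ s ∈ SS F, (g : Equiv.Perm (OnePoint F)) * s = s * g := by
    intro s hs
    let s' : ((SS F).subgroupOf (GG F) : Subgroup (GG F)) := ⟨⟨s, SG hs⟩, hs⟩
    have h1 : Phi g (eS s') = eS s' := by rw [hg]; rfl
    rw [Phi_apply, MulEquiv.symm_apply_apply] at h1
    have h2 := eS.injective h1
    have h3 : (g : Equiv.Perm (OnePoint F)) * s * (g : Equiv.Perm (OnePoint F))⁻¹ = s :=
      congrArg (fun z : ((SS F).subgroupOf (GG F) : Subgroup (GG F)) =>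
        ((z : GG F) : Equiv.Perm (OnePoint F))) h2
    rw [mul_inv_eq_iff_eq_mul] at h3
    exact h3
  apply Subtype.ext
  ext P
  show (g : Equiv.Perm (OnePoint F)) P = P
  obtain ⟨Q, hQ⟩ : ∃ Q : OnePoint F, P ≠ Q := by
    by_cases h : P = (OnePoint.infty : OnePoint F)
    · exact ⟨((0 : F) : OnePoint F), by rw [h]; exact OnePoint.infty_ne_coe _⟩
    · exact ⟨(OnePoint.infty : OnePoint F), h⟩
  obtain ⟨τ, hτ, h1, -⟩ := trans_SS hQ
  have hn : af (1 : F) 1 false one_ne_zero ∈ SS F := NSS ⟨1, rfl⟩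
  obtain ⟨n, hnn⟩ : ∃ n : Equiv.Perm (OnePoint F), n = af (1 : F) 1 false one_ne_zero := ⟨_, rfl⟩
  rw [← hnn] at hn
  have hs : τ * n * τ⁻¹ ∈ SS F := mul_mem (mul_mem hτ hn) (inv_mem hτ)
  have h2 := hcomm _ hs
  have h3 : (τ * n * τ⁻¹) P = P := by
    rw [Equiv.Perm.mul_apply, Equiv.Perm.mul_apply, ← h1, inv_ap, hnn, af_inf]
  have h4 : (τ * n * τ⁻¹) ((g : Equiv.Perm (OnePoint F)) P) =
      (g : Equiv.Perm (OnePoint F)) P := by
    rw [← Equiv.Perm.mul_apply, ← h2, Equiv.Perm.mul_apply, h3]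
  rw [Equiv.Perm.mul_apply, Equiv.Perm.mul_apply] at h4
  have h5 := congrArg (fun z => τ⁻¹ z) h4
  beta_reduce at h5
  rw [inv_ap] at h5
  generalize hR : τ⁻¹ ((g : Equiv.Perm (OnePoint F)) P) = R at h5
  cases R with
  | infty =>
    have h6 := congrArg (fun z => τ z) hR
    beta_reduce at h6
    rw [ap_inv, h1] at h6
    exact h6
  | coe r =>
    exfalso
    rw [hnn, af_coe, OnePoint.coe_eq_coe] at h5
    have h6 : 1 * r + 1 = r := h5
    have : (1 : F) = 0 := by linear_combination h6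
    exact one_ne_zero this

theorem main (F : Type) [Field F] (hF : Nat.card F = 25) :
    IsSimpleGroup PSL(2, F) ∧
    ∃ H K : Subgroup (MulAut PSL(2, F)),
      (MulAut.conj : PSL(2, F) →* MulAut PSL(2, F)).range ≤ K ∧ K ≤ H ∧
      Nat.card H = 31200 ∧ Nat.card K = 15600 ∧
      cd H = {1, 25, 26, 48, 52} ∧ cd K = {1, 25, 26, 48, 52} ∧
      ∀ (A : Subgroup K) [A.Normal], (∀ a ∈ A, ∀ b ∈ A, a * b = b * a) → IsEmpty (K ⧸ A ≃* H) := by
  haveI : Finite F := Nat.finite_of_card_ne_zero (by rw [hF]; norm_num)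
  letI : Fintype F := Fintype.ofFinite F
  haveI : Fact (Fintype.card F = 25) := ⟨by rw [← Nat.card_eq_fintype_card, hF]⟩
  refine ⟨Matrix.ProjectiveSpecialLinearGroup.rank_two_simple (by rw [hF]; norm_num), ?_⟩
  let eH : GG F ≃* (Phi (F := F)).range := MonoidHom.ofInjective Phi_inj
  let K0 : Subgroup (GG F) := (KK F).subgroupOf (GG F)
  let eK0 : K0 ≃* (K0.map (Phi (F := F)) : Subgroup (MulAut PSL(2, F))) :=
    K0.equivMapOfInjective Phi Phi_inj
  let eK : KK F ≃* (K0.map (Phi (F := F)) : Subgroup (MulAut PSL(2, F))) :=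
    (Subgroup.subgroupOfEquivOfLe (KG (F := F))).symm.trans eK0
  have hcH : Nat.card (Phi (F := F)).range = 31200 := by
    rw [← Nat.card_congr eH.toEquiv, card_GG]
  have hcK : Nat.card (K0.map (Phi (F := F)) : Subgroup (MulAut PSL(2, F))) = 15600 := by
    rw [← Nat.card_congr eK.toEquiv, card_KK]
  refine ⟨(Phi (F := F)).range, K0.map Phi, ?_, ?_, hcH, hcK, ?_, ?_, ?_⟩
  · rintro _ ⟨x, rfl⟩
    refine ⟨((eS.symm x : ((SS F).subgroupOf (GG F) : Subgroup (GG F))) : GG F), ?_, ?_⟩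
    · exact SK (eS.symm x).2
    · ext y
      rw [Phi_apply]
      have : MulAut.conjNormal ((eS.symm x : ((SS F).subgroupOf (GG F) : Subgroup (GG F))) : GG F)
          (eS.symm y) = eS.symm x * eS.symm y * (eS.symm x)⁻¹ := by
        apply Subtype.ext
        rfl
      rw [this, map_mul, map_mul, map_inv, MulEquiv.apply_symm_apply, MulEquiv.apply_symm_apply]
      rfl
  · rintro _ ⟨k, -, rfl⟩
    exact ⟨k, rfl⟩
  · rw [← cd_congr eH, cd_GG]
  · rw [← cd_congr eK, cd_KK]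
  · intro A _ _
    refine ⟨fun e => ?_⟩
    have h1 := Nat.card_congr e.toEquiv
    haveI : Finite (K0.map (Phi (F := F)) : Subgroup (MulAut PSL(2, F))) :=
      Nat.finite_of_card_ne_zero (by rw [hcK]; norm_num)
    have h2 := Subgroup.card_eq_card_quotient_mul_card_subgroup A
    rw [h1, hcH, hcK] at h2
    have h3 : 0 < Nat.card A := Nat.card_pos
    omega

/-- the simple group `PSL(2,25)` -/
def PSL25 : Type := PSL(2, GaloisField 5 2)

instance : Group PSL25 := (inferInstance : Group PSL(2, GaloisField 5 2))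

/-- `H` is an almost simple group with socle `L`: `L` is simple and `Inn(L) ≤ H ≤ Aut(L)`. -/
def AlmostSimple (L : Type) [Group L] (H : Subgroup (MulAut L)) : Prop :=
  IsSimpleGroup L ∧ (MulAut.conj : L →* MulAut L).range ≤ H

/-- `G / A` is isomorphic to `H` for some abelian normal subgroup `A` of `G`. -/
def AbelianByIso (G H : Type) [Group G] [Group H] : Prop :=
  ∃ (A : Subgroup G) (_ : A.Normal), (∀ a ∈ A, ∀ b ∈ A, a * b = b * a) ∧ Nonempty (G ⧸ A ≃* H)

/-- `H` is an almost simple group with socle `L`, of order `n` and with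
`cd(H) = {1, 25, 26, 48, 52}`. -/
def HasData (L : Type) [Group L] (H : Subgroup (MulAut L)) (n : ℕ) : Prop :=
  AlmostSimple L H ∧ Nat.card H = n ∧ cd H = {1, 25, 26, 48, 52}

theorem main25 : ∃ H K : Subgroup (MulAut PSL25),
    HasData PSL25 H 31200 ∧ HasData PSL25 K 15600 ∧ K ≤ H ∧ ¬ AbelianByIso K H := by
  obtain ⟨h0, H, K, h1, h2, h3, h4, h5, h6, h7⟩ := main (GaloisField 5 2) (by
    have : Fact (Nat.Prime 5) := ⟨by norm_num⟩
    rw [GaloisField.card 5 2 (by norm_num)]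
    norm_num)
  refine ⟨H, K, ⟨⟨h0, h1.trans h2⟩, h3, h5⟩, ⟨⟨h0, h1⟩, h4, h6⟩, h2, ?_⟩
  rintro ⟨A, hA, hab, ⟨e⟩⟩
  exact (@h7 A hA hab).false e

end

end Pool.Agent.R721.CD
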