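import Pool.Agent.R721.CD.Cfg

set_option linter.unusedSectionVars false
set_option linter.style.haveILetI false
set_option autoImplicit false

open scoped BigOperators Classical
open Representation Pool.Agent.Helper884.IC

noncomputable section

namespace Pool.Agent.R721.CD.KCfg

variable {K Om : Type} [Group K] [Fintype K] [MulAction K Om] [Fintype Om] (c : KCfg K Om)

def lam' : c.BS →* ℂˣ := c.lam

lemma T_le : c.T ≤ c.BS := inf_le_left

def lt : c.T →* ℂˣ := c.lam'.comp (Subgroup.inclusion c.T_le)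

lemma lt_inj : Function.Injective c.lt := by
  rw [injective_iff_map_eq_one]
  intro t ht
  have h1 := (c.mem_T.mp t.2)
  have h2 := c.lamT t (c.T_le t.2) h1.2 ht
  exact Subtype.ext h2

lemma t_pow (t : c.T) : t ^ 12 = 1 := by
  rw [← c.card_T]
  exact pow_card_eq_one'

/-- multiplicity of `lam ^ k` in the restriction to `BS` -/
def nk (k : ℕ) (chi : K → ℂ) : ℂ := B (indChar c.BS (c.lam' ^ k)) chi

lemma lamExt_N (k : ℕ) {n : K} (hn : n ∈ c.N) : lamExt c.BS (c.lam' ^ k) n = 1 := by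
  have hB : n ∈ c.BS := c.mem_BS.mpr ⟨c.NS hn, c.Ninf n hn⟩
  unfold lamExt
  rw [dif_pos hB, MonoidHom.pow_apply]
  have : c.lam' ⟨n, hB⟩ = 1 := c.lamN n hB hn
  rw [this, one_pow, Units.val_one]

lemma lamExt_T (k : ℕ) (t : c.T) : lamExt c.BS (c.lam' ^ k) (t : K) = ((c.lt t : ℂˣ) : ℂ) ^ k := by
  unfold lamExt
  rw [dif_pos (c.T_le t.2), MonoidHom.pow_apply, Units.val_pow_eq_pow_val]
  rfl

lemma lamExt_mul (k : ℕ) {g h : K} (hg : g ∈ c.BS) (hh : h ∈ c.BS) :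
    lamExt c.BS (c.lam' ^ k) (g * h) =
      lamExt c.BS (c.lam' ^ k) g * lamExt c.BS (c.lam' ^ k) h := by
  unfold lamExt
  rw [dif_pos hg, dif_pos hh, dif_pos (mul_mem hg hh)]
  have : (⟨g * h, mul_mem hg hh⟩ : c.BS) = ⟨g, hg⟩ * ⟨h, hh⟩ := rfl
  rw [this, map_mul, Units.val_mul]

lemma nk_eq (chi : K → ℂ) (hcl : IsClass chi) (k : ℕ) :
    300 * c.nk k chi = sm c.N chi +
      25 * ∑ t : c.T, ((c.lt t : ℂˣ) : ℂ) ^ k * chi ((t : K)⁻¹) - 25 * chi 1 := by
  unfold nk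
  rw [frob _ _ _ hcl, sum_lamExt', c.card_BS]
  set h : K → ℂ := fun g => lamExt c.BS (c.lam' ^ k) g * chi g⁻¹ with hh
  have h1 := c.N_sum h (by
    intro g hg x hx
    have e1 : lamExt c.BS (c.lam' ^ k) (x * g * x⁻¹) = lamExt c.BS (c.lam' ^ k) g := by
      have e0 : lamExt c.BS (c.lam' ^ k) (x * g * x⁻¹ * x) =
          lamExt c.BS (c.lam' ^ k) (x * g) := by
        congr 1; group
      rw [c.lamExt_mul k (mul_mem (mul_mem hx hg) (inv_mem hx)) hx, c.lamExt_mul k hx hg,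
        mul_comm] at e0
      have hx0 : lamExt c.BS (c.lam' ^ k) x ≠ 0 := by
        unfold lamExt
        rw [dif_pos hx]
        exact Units.ne_zero _
      exact mul_left_cancel₀ hx0 e0
    simp only [hh]
    rw [e1]
    have e2 : (x * g * x⁻¹)⁻¹ = x * g⁻¹ * x⁻¹ := by group
    rw [e2, hcl])
  have h2 : sm c.N h = sm c.N chi := by
    rw [← sm_inv c.N chi]
    apply sm_congr
    intro g hg
    simp only [hh]
    rw [c.lamExt_N k hg, one_mul]
  have h3 : sm c.T h = ∑ t : c.T, ((c.lt t : ℂˣ) : ℂ) ^ k * chi ((t : K)⁻¹) := by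
    rw [sm_subtype]
    refine Finset.sum_congr rfl fun t _ => ?_
    simp only [hh]
    rw [c.lamExt_T k t]
  have h4 : h 1 = chi 1 := by
    simp only [hh]
    rw [c.lamExt_N k (one_mem _), one_mul, inv_one]
  rw [h2, h3, h4] at h1
  push_cast
  linear_combination -h1

lemma nk_nat {chi : K → ℂ} (h : IsIrrChar chi) (k : ℕ) : ∃ n : ℕ, c.nk k chi = n :=
  mult_nat _ _ h

lemma nk_sym_w (chi : K → ℂ) (hcl : IsClass chi) {k k' : ℕ} (hk : 12 ∣ k + k') :
    c.nk k' chi = c.nk k chi := by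
  have h1 := c.nk_eq chi hcl k
  have h2 := c.nk_eq chi hcl k'
  have h3 : ∑ t : c.T, ((c.lt t : ℂˣ) : ℂ) ^ k' * chi ((t : K)⁻¹) =
      ∑ t : c.T, ((c.lt t : ℂˣ) : ℂ) ^ k * chi ((t : K)⁻¹) := by
    refine Fintype.sum_equiv (Equiv.inv c.T) _ _ fun t => ?_
    show ((c.lt t : ℂˣ) : ℂ) ^ k' * chi ((t : K)⁻¹) =
      ((c.lt t⁻¹ : ℂˣ) : ℂ) ^ k * chi (((t⁻¹ : c.T) : K)⁻¹)
    have e1 : chi (((t⁻¹ : c.T) : K)⁻¹) = chi ((t : K)⁻¹) := by
      have ht := c.mem_T.mp t.2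
      have := c.hw t ht.1.1 ht.1.2 ht.2
      rw [← this, hcl]
      congr 1
      simp
    rw [e1]
    congr 1
    obtain ⟨m, hm⟩ := hk
    have e2 : ((c.lt t : ℂˣ) : ℂ) ^ 12 = 1 := by
      rw [← Units.val_pow_eq_pow_val, ← map_pow, c.t_pow, map_one, Units.val_one]
    have e3 : ((c.lt t : ℂˣ) : ℂ) ^ k * ((c.lt t : ℂˣ) : ℂ) ^ k' = 1 := by
      rw [← pow_add, hm, pow_mul, e2, one_pow]
    rw [map_inv, Units.val_inv_eq_inv_val, inv_pow]
    exact (inv_eq_of_mul_eq_one_right e3).symm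
  rw [h3] at h2
  linear_combination (h2 - h1) / 300

lemma nk_sym_s (chi : K → ℂ) (hcl : IsClass chi) (k : ℕ) :
    c.nk (5 * k) chi = c.nk k chi := by
  have h1 := c.nk_eq chi hcl k
  have h2 := c.nk_eq chi hcl (5 * k)
  have h3 : ∑ t : c.T, ((c.lt t : ℂˣ) : ℂ) ^ (5 * k) * chi ((t : K)⁻¹) =
      ∑ t : c.T, ((c.lt t : ℂˣ) : ℂ) ^ k * chi ((t : K)⁻¹) := by
    have hcop : (Nat.card c.T).Coprime 5 := by rw [c.card_T]; decide
    refine Fintype.sum_equiv (powCoprime hcop) _ _ fun t => ?_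
    show ((c.lt t : ℂˣ) : ℂ) ^ (5 * k) * chi ((t : K)⁻¹) =
      ((c.lt (t ^ 5) : ℂˣ) : ℂ) ^ k * chi (((t ^ 5 : c.T) : K)⁻¹)
    have e1 : chi (((t ^ 5 : c.T) : K)⁻¹) = chi ((t : K)⁻¹) := by
      have ht := c.mem_T.mp t.2
      have h5 := c.hs t ht.1.1 ht.1.2 ht.2
      rw [← hcl ((t : K)⁻¹) c.s]
      congr 1
      rw [Subgroup.coe_pow, ← h5]
      group
    rw [e1, map_pow, Units.val_pow_eq_pow_val, ← pow_mul]
  rw [h3] at h2
  linear_combination (h2 - h1) / 300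

/-- all numerical data of the restriction to `BS` -/
theorem four {chi : K → ℂ} (h : IsIrrChar chi) : ∃ (n : ℕ → ℕ) (a : ℕ),
    (∀ k, c.nk k chi = n k) ∧ sm c.N chi = 25 * a ∧ a = ∑ j ∈ Finset.range 12, n j ∧
    sm c.T chi = 12 * n 0 + chi 1 - a ∧
    sm c.T (fun g => chi g * chi g⁻¹) =
      12 * ∑ j ∈ Finset.range 12, ((n j : ℂ) ^ 2) + chi 1 ^ 2 - (a : ℂ) ^ 2 := by
  have hcl := h.isClass
  choose n hn using fun k => c.nk_nat h k
  obtain ⟨a, ha⟩ := mult_nat' c.N 1 h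
  have haN : sm c.N chi = 25 * a := by
    rw [← ha, c.cardN, ← sm_inv, sm_subtype]
    simp
  set F : c.T → ℂ := fun t => chi t - (if t = 1 then chi 1 - a else 0) with hF
  have hco : ∀ j : ℕ, (Nat.card c.T : ℂ)⁻¹ * ∑ d : c.T, (((c.lt ^ j) d : ℂˣ) : ℂ) * F d⁻¹ = n j := by
    intro j
    have h1 := c.nk_eq chi hcl j
    have h2 : ∑ d : c.T, (((c.lt ^ j) d : ℂˣ) : ℂ) * F d⁻¹ =
        ∑ t : c.T, ((c.lt t : ℂˣ) : ℂ) ^ j * chi ((t : K)⁻¹) - (chi 1 - a) := by
      have e1 : ∀ d : c.T, (((c.lt ^ j) d : ℂˣ) : ℂ) * F d⁻¹ =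
          ((c.lt d : ℂˣ) : ℂ) ^ j * chi ((d : K)⁻¹) - (if d = 1 then chi 1 - a else 0) := by
        intro d
        simp only [hF, inv_eq_one]
        by_cases hd : d = 1
        · rw [if_pos hd, hd, map_one]
          simp
        · rw [if_neg hd, MonoidHom.pow_apply, Units.val_pow_eq_pow_val, sub_zero, sub_zero]
          rfl
      rw [Finset.sum_congr rfl fun d _ => e1 d, Finset.sum_sub_distrib]
      congr 1
      simp
    rw [h2, c.card_T, ← hn j]
    rw [haN] at h1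
    push_cast
    linear_combination -h1 / 300
  have hfo : ∀ t : c.T, F t = ∑ j ∈ Finset.range 12, (n j : ℂ) * (((c.lt ^ j) t : ℂˣ) : ℂ) := by
    intro t
    have := fourier c.lt c.lt_inj F t
    simp only [hco] at this
    rw [c.card_T] at this
    exact this
  refine ⟨n, a, hn, haN, ?_, ?_, ?_⟩
  · have h1 := hfo 1
    have h2 : F 1 = a := by
      simp [hF]
    rw [h2] at h1
    simp only [map_one, Units.val_one, mul_one] at h1
    exact_mod_cast h1
  · have h1 := c.nk_eq chi hcl 0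
    rw [hn 0, haN] at h1
    have h2 : ∑ t : c.T, ((c.lt t : ℂˣ) : ℂ) ^ 0 * chi ((t : K)⁻¹) = sm c.T chi := by
      rw [← sm_inv c.T, sm_subtype]
      simp
    rw [h2] at h1
    linear_combination -h1 / 25
  · have h1 : ∑ t : c.T, F t * F t⁻¹ = 12 * ∑ j ∈ Finset.range 12, ((n j : ℂ) ^ 2) := by
      have e1 : ∀ t : c.T, F t * F t⁻¹ =
          ∑ j ∈ Finset.range 12, (n j : ℂ) * ((((c.lt ^ j) t : ℂˣ) : ℂ) * F t⁻¹) := by
        intro t
        rw [hfo t, Finset.sum_mul]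
        refine Finset.sum_congr rfl fun j _ => by ring
      rw [Finset.sum_congr rfl fun t _ => e1 t, Finset.sum_comm, Finset.mul_sum]
      refine Finset.sum_congr rfl fun j _ => ?_
      rw [← Finset.mul_sum]
      have e2 := hco j
      rw [c.card_T] at e2
      push_cast at e2
      have e3 : ∑ d : c.T, (((c.lt ^ j) d : ℂˣ) : ℂ) * F d⁻¹ = 12 * n j := by
        linear_combination 12 * e2
      rw [e3]
      ring
    have h2 : ∑ t : c.T, F t * F t⁻¹ =
        sm c.T (fun g => chi g * chi g⁻¹) - (chi 1 ^ 2 - (a : ℂ) ^ 2) := by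
      rw [sm_subtype]
      have e1 : ∀ t : c.T, F t * F t⁻¹ = chi t * chi (t : K)⁻¹ -
          (if t = 1 then chi 1 ^ 2 - (a : ℂ) ^ 2 else 0) := by
        intro t
        simp only [hF, inv_eq_one]
        by_cases ht : t = 1
        · rw [if_pos ht, if_pos ht, ht]
          simp
          ring
        · rw [if_neg ht, if_neg ht]
          simp
      rw [Finset.sum_congr rfl fun t _ => e1 t, Finset.sum_sub_distrib]
      congr 1
      simp
    rw [h2] at h1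
    linear_combination h1

end Pool.Agent.R721.CD.KCfg
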