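import Pool.Agent.R721.CD.GMain

set_option linter.unusedSectionVars false
set_option linter.style.haveILetI false
set_option autoImplicit false

open scoped BigOperators Classical
open Representation Pool.Agent.Helper884.IC

noncomputable section

namespace Pool.Agent.R721.CD.GCfg

variable {G K Om : Type} [Group G] [Fintype G] [MulAction G Om] [Group K] [Fintype K]
    [MulAction K Om] [Fintype Om] {c : KCfg K Om} (d : GCfg G K Om c)

/-- the induced class function of a character of degree 48 -/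
def ind (psi : K → ℂ) (g : G) : ℂ := if h : ∃ k, d.i k = g then 2 * psi h.choose else 0

lemma ind_i (psi : K → ℂ) (k : K) : d.ind psi (d.i k) = 2 * psi k := by
  unfold ind
  have h : ∃ k', d.i k' = d.i k := ⟨k, rfl⟩
  rw [dif_pos h, d.inj h.choose_spec]

lemma ind_not (psi : K → ℂ) {g : G} (hg : g ∉ Set.range d.i) : d.ind psi g = 0 := by
  unfold ind
  rw [dif_neg]
  rintro ⟨k, hk⟩
  exact hg ⟨k, hk⟩

lemma no96 {chi : G → ℂ} (h : IsIrrChar chi) {psi psi' : K → ℂ} (hpsi : IsIrrChar psi)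
    (hD : psi 1 = 48) (hD' : psi' 1 = 48) (hne : psi' ≠ psi)
    (hB : B (d.res chi) psi ≠ 0) (hsum : ∀ k, d.res chi k = psi k + psi' k) : False := by
  have hcl : IsClass (d.ind psi) := by
    intro g y
    by_cases hg : g ∈ Set.range d.i
    · obtain ⟨k, rfl⟩ := hg
      obtain ⟨k', hk'⟩ := d.normK y k
      rw [hk', d.ind_i, d.ind_i, d.inv48 hpsi hD y k k' hk']
    · rw [d.ind_not psi hg, d.ind_not psi]
      rintro ⟨k, hk⟩
      apply hg
      obtain ⟨k', hk'⟩ := d.normK y⁻¹ k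
      refine ⟨k', ?_⟩
      rw [← hk', hk]
      group
  have hBf : ∀ x : G → ℂ, B (d.ind psi) x = B psi (d.res x) := by
    intro x
    unfold B
    rw [d.cardG, c.cardK]
    have h1 : ∑ g : G, d.ind psi g * x g⁻¹ = ∑ k : K, 2 * (psi k * d.res x k⁻¹) := by
      symm
      refine Fintype.sum_of_injective d.i d.inj _ _ ?_ ?_
      · intro g hg
        rw [d.ind_not psi hg, zero_mul]
      · intro k
        rw [d.ind_i]
        unfold res
        rw [map_inv]
        ring
    rw [h1, ← Finset.mul_sum]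
    push_cast
    ring
  have key : ∀ x ∈ Irr G, ∃ n D : ℕ, B (d.ind psi) x = n ∧ x 1 = D ∧ 0 < D := by
    intro x hx
    obtain ⟨n, hn⟩ := mult_nat_rep (IsRepChar.of_irr hpsi)
      (d.res_rep (IsRepChar.of_irr (mem_Irr.mp hx)))
    obtain ⟨D, hD0, hD⟩ := irr_deg (mem_Irr.mp hx)
    exact ⟨n, D, by rw [hBf, hn], hD, hD0⟩
  choose! n D hn hDx hD0 using key
  have hm : chi ∈ Irr G := mem_Irr.mpr h
  have h1 := expand_at _ hcl 1
  have h2 : d.ind psi 1 = 96 := by
    rw [← d.i.map_one, d.ind_i, hD]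
    norm_num
  have h3 : ∑ x ∈ Irr G, n x * D x = 96 := by
    have : ((∑ x ∈ Irr G, n x * D x : ℕ) : ℂ) = ((96 : ℕ) : ℂ) := by
      push_cast
      rw [← h2, h1]
      exact Finset.sum_congr rfl fun x hx => by rw [hn x hx, hDx x hx]
    exact_mod_cast this
  have h4 : D chi = 96 := by
    have : ((D chi : ℕ) : ℂ) = ((96 : ℕ) : ℂ) := by
      rw [← hDx chi hm]
      have := hsum 1
      unfold res at this
      rw [map_one] at this
      rw [this, hD, hD']
      norm_num
    exact_mod_cast this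
  have h5 : n chi ≠ 0 := by
    intro h0
    apply hB
    rw [B_comm, ← hBf, hn chi hm, h0, Nat.cast_zero]
  have h6 : ∀ x ∈ Irr G, x ≠ chi → n x = 0 := by
    intro x hx hxc
    have hsub : ({chi, x} : Finset (G → ℂ)) ⊆ Irr G := by
      intro y hy
      rcases Finset.mem_insert.mp hy with rfl | hy
      · exact hm
      · rw [Finset.mem_singleton.mp hy]; exact hx
    have h7 := Finset.sum_le_sum_of_subset (f := fun y => n y * D y) hsub
    rw [Finset.sum_pair (Ne.symm hxc), h3, h4] at h7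
    have h8 := hD0 x hx
    have h9 : 1 ≤ n chi := Nat.one_le_iff_ne_zero.mpr h5
    by_contra h0
    have h10 : 1 ≤ n x * D x := Nat.mul_pos (Nat.pos_of_ne_zero h0) h8
    omega
  have h7 : n chi = 1 := by
    rw [Finset.sum_eq_single chi (fun x hx hxc => by rw [h6 x hx hxc, zero_mul])
      (fun h => absurd hm h), h4] at h3
    omega
  apply hne
  funext k
  have h8 := expand_at _ hcl (d.i k)
  rw [Finset.sum_eq_single chi (fun x hx hxc => by rw [hn x hx, h6 x hx hxc]; simp)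
      (fun h => absurd hm h), hn chi hm, h7, d.ind_i] at h8
  have h9 := hsum k
  unfold res at h9
  rw [h9] at h8
  simp only [Nat.cast_one, one_mul] at h8
  linear_combination -h8

lemma sm_add2 (H : Subgroup K) {r f f' : K → ℂ} (h : ∀ k, r k = f k + f' k) :
    sm H r = sm H f + sm H f' := by
  rw [← sm_add]
  exact sm_congr (fun g _ => h g)

/-- main structural statement -/
theorem gmain {chi : G → ℂ} (h : IsIrrChar chi) (hS : sm c.S (d.res chi) = 0) {psi : K → ℂ}
    (hpsi : IsIrrChar psi) (hB : B (d.res chi) psi ≠ 0) :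
    chi 1 = psi 1 ∨ (psi 1 = 26 ∧ chi 1 = 52) := by
  have hr1 : d.res chi 1 = chi 1 := by unfold res; rw [map_one]
  rcases d.two h hpsi hB with h1 | ⟨psi', hpsi', hne, hB', hsum⟩
  · left
    rw [← hr1, h1]
  · right
    obtain ⟨E, hE0, hE⟩ := irr_deg h
    have hn1 := d.nontriv h hS hpsi hB
    have hn2 := d.nontriv h hS hpsi' hB'
    rcases kdata (c := c) hpsi with ⟨-, h0⟩ | ⟨-, D1, a1, b1, hD1, ha1, hb1, hc1⟩
    · rw [hn1] at h0
      norm_num at h0
    rcases kdata (c := c) hpsi' with ⟨-, h0⟩ | ⟨-, D2, a2, b2, hD2, ha2, hb2, hc2⟩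
    · rw [hn2] at h0
      norm_num at h0
    have hdeg : E = D1 + D2 := by
      have : (E : ℂ) = (D1 : ℂ) + D2 := by
        rw [← hE, ← hr1, hsum 1, hD1, hD2]
      exact_mod_cast this
    have hN : sm c.N (d.res chi) = ((25 * (a1 + a2) : ℕ) : ℂ) := by
      rw [sm_add2 c.N hsum, ha1, ha2]
      push_cast
      ring
    have hBS : sm c.BS (d.res chi) = ((300 * (b1 + b2) : ℕ) : ℂ) := by
      rw [sm_add2 c.BS hsum, hb1, hb2]
      push_cast
      ring
    have hA : a1 + a2 ≠ 0 → E ≤ 52 := by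
      intro h0
      refine d.abound h hE ?_
      rw [hN]
      exact_mod_cast (mul_ne_zero (by norm_num) h0)
    have hBb : b1 + b2 ≠ 0 → E ≤ 26 := by
      intro h0
      refine d.bbound h hE ?_
      rw [hBS]
      exact_mod_cast (mul_ne_zero (by norm_num) h0)
    have hfin : (D1 = 26 ∧ E = 52) ∨ (D1 = 48 ∧ D2 = 48) := by
      rcases hc1 with ⟨x1, x2, x3⟩ | ⟨x1, x2, x3⟩ | ⟨x1, x2, x3⟩ | ⟨x1, x2, x3⟩ <;>
      rcases hc2 with ⟨y1, y2, y3⟩ | ⟨y1, y2, y3⟩ | ⟨y1, y2, y3⟩ | ⟨y1, y2, y3⟩ <;>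
      omega
    rcases hfin with ⟨h1, h2⟩ | ⟨h1, h2⟩
    · rw [hD1, hE, h1, h2]
      exact ⟨by norm_num, by norm_num⟩
    · exfalso
      exact d.no96 h hpsi (by rw [hD1, h1]; norm_num) (by rw [hD2, h2]; norm_num) hne hB hsum

lemma normalS : (c.S.map d.i).Normal := ⟨by
  rintro _ ⟨k, hk, rfl⟩ g
  obtain ⟨k', hk', h⟩ := d.normS g k hk
  exact ⟨k', hk', h.symm⟩⟩

/-- dichotomy for `G` -/
lemma gdich {chi : G → ℂ} (h : IsIrrChar chi) :
    chi 1 = 1 ∨ sm c.S (d.res chi) = 0 := by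
  rcases dichotomy (c.S.map d.i) d.normalS (fun g h => by
    obtain ⟨k', hk', e⟩ := d.comS g h
    exact ⟨k', hk', e.symm⟩) h with h1 | h1
  · right
    have : sm (c.S.map d.i) chi = 0 := h1
    rw [sm_map d.i d.inj] at this
    exact this
  · left
    exact h1.1

lemma exists_below {chi : G → ℂ} (h : IsIrrChar chi) :
    ∃ psi : K → ℂ, IsIrrChar psi ∧ B (d.res chi) psi ≠ 0 := by
  by_contra hcon
  push Not at hcon
  have hr := d.res_rep (IsRepChar.of_irr h)
  have h1 := expand_at _ hr.isClass 1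
  rw [Finset.sum_eq_zero (fun x hx => by rw [hcon x (mem_Irr.mp hx), zero_mul])] at h1
  unfold res at h1
  rw [map_one] at h1
  obtain ⟨D, hD0, hD⟩ := irr_deg h
  rw [hD] at h1
  have : D = 0 := by exact_mod_cast h1
  omega

lemma exists_above {psi : K → ℂ} (h : IsIrrChar psi) :
    ∃ chi : G → ℂ, IsIrrChar chi ∧ B (d.res chi) psi ≠ 0 := by
  by_contra hcon
  push Not at hcon
  have h1 : ∀ k : K, indChar (⊥ : Subgroup G) 1 (d.i k) =
      ∑ x ∈ Irr G, B (indChar (⊥ : Subgroup G) 1) x * d.res x k := fun k =>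
    expand_at _ (isClass_indChar _ _) (d.i k)
  have h2 : ∑ k : K, indChar (⊥ : Subgroup G) 1 (d.i k) * psi k⁻¹ = 0 := by
    simp only [h1, Finset.sum_mul]
    rw [Finset.sum_comm]
    refine Finset.sum_eq_zero fun x hx => ?_
    have h3 := hcon x (mem_Irr.mp hx)
    unfold B at h3
    rcases mul_eq_zero.mp h3 with h4 | h4
    · exact absurd h4 (inv_ne_zero cardG_ne)
    · have h5 : ∑ k : K, B (indChar (⊥ : Subgroup G) 1) x * d.res x k * psi k⁻¹ =
          B (indChar (⊥ : Subgroup G) 1) x * ∑ k : K, d.res x k * psi k⁻¹ := by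
        rw [Finset.mul_sum]
        exact Finset.sum_congr rfl fun k _ => by ring
      rw [h5, h4, mul_zero]
  rw [Finset.sum_eq_single 1] at h2
  · rw [map_one, indChar_bot, if_pos rfl, inv_one] at h2
    obtain ⟨D, hD0, hD⟩ := irr_deg h
    rw [hD, d.cardG] at h2
    have : 31200 * D = 0 := by exact_mod_cast h2
    omega
  · intro k _ hk
    rw [indChar_bot, if_neg, zero_mul]
    intro h3
    apply hk
    apply d.inj
    rw [h3, map_one]
  · intro h3
    exact absurd (Finset.mem_univ _) h3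

include d in
/-- upper bound for the degrees of `G` -/
theorem g_upper {chi : G → ℂ} (h : IsIrrChar chi) :
    chi 1 = 1 ∨ chi 1 = 25 ∨ chi 1 = 26 ∨ chi 1 = 48 ∨ chi 1 = 52 := by
  rcases d.gdich h with h1 | h1
  · exact Or.inl h1
  right
  obtain ⟨psi, hpsi, hB⟩ := d.exists_below h
  have h2 := d.nontriv h h1 hpsi hB
  have h3 := d.gmain h h1 hpsi hB
  rcases kdata (c := c) hpsi with ⟨-, h0⟩ | ⟨-, D1, a1, b1, hD1, -, -, hc1⟩
  · rw [h2] at h0
    norm_num at h0
  rcases h3 with h3 | ⟨-, h3⟩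
  · rw [h3, hD1]
    rcases hc1 with ⟨rfl, -, -⟩ | ⟨rfl, -, -⟩ | ⟨rfl, -, -⟩ | ⟨rfl, -, -⟩ <;> norm_num
  · right; right; right
    exact h3

/-- nonlinear constituents force nontriviality -/
lemma nonlin {chi : G → ℂ} (h : IsIrrChar chi) {psi : K → ℂ} (hpsi : IsIrrChar psi)
    (hB : B (d.res chi) psi ≠ 0) (h1 : psi 1 ≠ 1) : sm c.S (d.res chi) = 0 := by
  rcases d.gdich h with h2 | h2
  · exfalso
    have hr1 : d.res chi 1 = chi 1 := by unfold res; rw [map_one]
    rcases d.two h hpsi hB with h3 | ⟨psi', hpsi', -, -, h3⟩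
    · apply h1
      rw [← h3, hr1, h2]
    · have h4 := h3 1
      obtain ⟨D1, hD1, e1⟩ := irr_deg hpsi
      obtain ⟨D2, hD2, e2⟩ := irr_deg hpsi'
      rw [hr1, h2, e1, e2] at h4
      have : 1 = D1 + D2 := by exact_mod_cast h4
      omega
  · exact h2

include d in
theorem g25 : ∃ chi : G → ℂ, IsIrrChar chi ∧ chi 1 = 25 := by
  obtain ⟨psi, hpsi, hD⟩ := c.exists25
  obtain ⟨chi, h, hB⟩ := d.exists_above hpsi
  have hS := d.nonlin h hpsi hB (by rw [hD]; norm_num)
  rcases d.gmain h hS hpsi hB with h1 | ⟨h1, -⟩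
  · exact ⟨chi, h, by rw [h1, hD]⟩
  · rw [hD] at h1
    norm_num at h1

include d in
theorem g48 : ∃ chi : G → ℂ, IsIrrChar chi ∧ chi 1 = 48 := by
  obtain ⟨psi, hpsi, hD⟩ := c.exists48
  obtain ⟨chi, h, hB⟩ := d.exists_above hpsi
  have hS := d.nonlin h hpsi hB (by rw [hD]; norm_num)
  rcases d.gmain h hS hpsi hB with h1 | ⟨h1, -⟩
  · exact ⟨chi, h, by rw [h1, hD]⟩
  · rw [hD] at h1
    norm_num at h1

include d in
theorem g52 : ∃ chi : G → ℂ, IsIrrChar chi ∧ chi 1 = 52 := by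
  obtain ⟨psi, hpsi, hn⟩ := exists_const c.BS (c.lam' ^ 1)
  have hD := c.deg52 hpsi hn
  obtain ⟨chi, h, hB⟩ := d.exists_above hpsi
  have hS := d.nonlin h hpsi hB (by rw [hD]; norm_num)
  rcases d.gmain h hS hpsi hB with h1 | ⟨h1, -⟩
  · exact ⟨chi, h, by rw [h1, hD]⟩
  · rw [hD] at h1
    norm_num at h1

include d in
theorem g26 : ∃ chi : G → ℂ, IsIrrChar chi ∧ chi 1 = 26 := by
  obtain ⟨chi, h, hn⟩ := exists_const (MulAction.stabilizer G c.inf) d.tau
  obtain ⟨E, hE0, hE⟩ := irr_deg h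
  have hle := deg_le _ _ h hn hE d.card_stab
  refine ⟨chi, h, ?_⟩
  have hrc := IsRepChar.of_irr h
  -- a constituent of the restriction containing lam ^ 6
  have h1 : ∑ x : MulAction.stabilizer G c.inf, ((d.tau x : ℂˣ) : ℂ) * chi ((x : G)⁻¹) ≠ 0 := by
    rw [frob _ _ _ h.isClass, sum_lamExt _ _ (fun g => chi g⁻¹)] at hn
    exact right_ne_zero_of_mul hn
  have h2 := twist_mono _ (c.BS.map d.i) d.tau hrc h1
  have h3 : ∑ x : MulAction.stabilizer G c.inf,
      (if (x : G) ∈ c.BS.map d.i then ((d.tau x : ℂˣ) : ℂ) * chi ((x : G)⁻¹) else 0) =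
      ∑ k : K, lamExt c.BS (c.lam' ^ 6) k * d.res chi k⁻¹ := by
    let f : c.BS → MulAction.stabilizer G c.inf := fun k => ⟨d.i k, d.BS_mem k.2⟩
    have hf : Function.Injective f := by
      intro a b hab
      have : d.i a = d.i b := congrArg (fun z : MulAction.stabilizer G c.inf => (z : G)) hab
      exact Subtype.ext (d.inj this)
    rw [sum_lamExt c.BS (c.lam' ^ 6) (fun k => d.res chi k⁻¹)]
    symm
    refine Fintype.sum_of_injective f hf _ _ ?_ ?_
    · intro x hx
      rw [if_neg]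
      rintro ⟨k, hk, hkx⟩
      exact hx ⟨⟨k, hk⟩, Subtype.ext hkx⟩
    · intro k
      have hm : ((f k : MulAction.stabilizer G c.inf) : G) ∈ c.BS.map d.i := ⟨k, k.2, rfl⟩
      rw [if_pos hm]
      have e1 : d.tau (f k) = (c.lam' ^ 6) k := by
        rw [MonoidHom.pow_apply]
        exact d.htau k k.2 _
      rw [e1]
      congr 1
      show chi (d.i ((k : K)⁻¹)) = chi ((d.i k)⁻¹)
      rw [map_inv]
  have h2' : ∑ k : K, lamExt c.BS (c.lam' ^ 6) k * d.res chi k⁻¹ ≠ 0 := by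
    rw [← h3]
    intro h0
    apply h2
    refine Eq.trans ?_ h0
    refine Finset.sum_congr ?_ (fun x _ => ?_)
    · ext x
      simp
    · split_ifs <;> rfl
  have h4 : B (indChar c.BS (c.lam' ^ 6)) (d.res chi) ≠ 0 := by
    rw [frob _ _ _ (d.res_rep hrc).isClass]
    exact mul_ne_zero (inv_ne_zero (cardC_ne _)) h2'
  rw [B_comm, B_expand _ _ (d.res_rep hrc).isClass] at h4
  obtain ⟨psi, hpsi, h5⟩ := Finset.exists_ne_zero_of_sum_ne_zero h4
  have hpsi' := mem_Irr.mp hpsi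
  have h6 : B (d.res chi) psi ≠ 0 := left_ne_zero_of_mul h5
  have h7 : c.nk 6 psi ≠ 0 := by
    unfold KCfg.nk
    rw [B_comm]
    exact right_ne_zero_of_mul h5
  have hD := c.deg26 hpsi' h7
  have hS := d.nonlin h hpsi' h6 (by rw [hD]; norm_num)
  rcases d.gmain h hS hpsi' h6 with h8 | ⟨-, h8⟩
  · rw [h8, hD]
  · exfalso
    rw [hE] at h8
    have : E = 52 := by exact_mod_cast h8
    omega

end Pool.Agent.R721.CD.GCfg
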