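import Pool.Agent.R721.CD.Val48

set_option linter.unusedSectionVars false
set_option linter.style.haveILetI false
set_option autoImplicit false

open scoped BigOperators Classical
open Representation Pool.Agent.Helper884.IC

noncomputable section

namespace Pool.Agent.R721.CD

/-- the facts about `G = PΓL(2,25)` over `K = M(25)` which are used -/
structure GCfg (G K Om : Type) [Group G] [Fintype G] [MulAction G Om] [Group K] [Fintype K]
    [MulAction K Om] [Fintype Om] (c : KCfg K Om) where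
  i : K →* G
  inj : Function.Injective i
  act : ∀ (k : K) (P : Om), i k • P = k • P
  cardG : Nat.card G = 31200
  normK : ∀ (g : G) (k : K), ∃ k' : K, g * i k * g⁻¹ = i k'
  idx : ∀ g h : G, (∀ k, i k ≠ g) → (∀ k, i k ≠ h) → ∃ k, i k = g * h
  normS : ∀ (g : G), ∀ k ∈ c.S, ∃ k' ∈ c.S, g * i k * g⁻¹ = i k'
  comS : ∀ g h : G, ∃ k ∈ c.S, g * h * g⁻¹ * h⁻¹ = i k
  comm : ∀ k : K, c.ES k → ∃ d : G, (∀ k, i k ≠ d) ∧ d * i k = i k * d
  C : Subgroup G
  cardC : Nat.card C = 600
  NC : ∀ k ∈ c.N, i k ∈ C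
  normN : ∀ g ∈ C, ∀ k ∈ c.N, ∃ k' ∈ c.N, g * i k * g⁻¹ = i k'
  comN : ∀ g ∈ C, ∀ h ∈ C, ∃ k ∈ c.N, g * h * g⁻¹ * h⁻¹ = i k
  tau : (MulAction.stabilizer G c.inf) →* ℂˣ
  htau : ∀ (k : K) (hk : k ∈ c.BS) (hk' : i k ∈ MulAction.stabilizer G c.inf),
    tau ⟨i k, hk'⟩ = (c.lam' ⟨k, hk⟩) ^ 6

section general

variable {G : Type} [Group G] [Fintype G]

/-- the character of the restriction, decomposed -/
lemma decomp {f : G → ℂ} (hf : IsRepChar f) :
    ∃ e : (G → ℂ) → ℕ, (∀ psi ∈ Irr G, B f psi = e psi) ∧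
      (∀ g, f g = ∑ psi ∈ Irr G, (e psi : ℂ) * psi g) ∧
      B f f = ((∑ psi ∈ Irr G, (e psi) ^ 2 : ℕ) : ℂ) := by
  have h1 : ∀ psi ∈ Irr G, ∃ n : ℕ, B f psi = n := fun psi hpsi =>
    mult_nat_rep hf (IsRepChar.of_irr (mem_Irr.mp hpsi))
  choose! e he using h1
  refine ⟨e, he, ?_, ?_⟩
  · intro g
    rw [expand_at f hf.isClass g]
    exact Finset.sum_congr rfl fun psi hpsi => by rw [he psi hpsi]
  · have h2 := B_expand f f hf.isClass
    rw [h2]
    push_cast
    refine Finset.sum_congr rfl fun psi hpsi => ?_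
    rw [B_comm psi f, he psi hpsi]
    ring

/-- invariants of a bigger group are invariants of a smaller one -/
lemma twist_mono (H D : Subgroup G) (tau : H →* ℂˣ) {f : G → ℂ} (hf : IsRepChar f)
    (hne : ∑ h : H, ((tau h : ℂˣ) : ℂ) * f ((h : G)⁻¹) ≠ 0) :
    ∑ h : H, (if (h : G) ∈ D then ((tau h : ℂˣ) : ℂ) * f ((h : G)⁻¹) else 0) ≠ 0 := by
  obtain ⟨V, _, _, _, rho, rfl⟩ := hf
  let sig : Representation ℂ H V :=
    { toFun := fun h => (((tau h)⁻¹ : ℂˣ) : ℂ) • rho (h : G)
      map_one' := by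
        have : rho ((1 : H) : G) = 1 := by rw [Subgroup.coe_one]; exact rho.map_one
        rw [this, map_one, inv_one, Units.val_one, one_smul]
      map_mul' := by
        intro a b
        have : rho ((a * b : H) : G) = rho a * rho b := by rw [Subgroup.coe_mul]; exact rho.map_mul _ _
        rw [this, map_mul, mul_inv, Units.val_mul]
        ext v
        simp [smul_smul, mul_comm] }
  have hchar : ∀ h : H, sig.character h = ((tau h⁻¹ : ℂˣ) : ℂ) * rho.character (h : G) := by
    intro h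
    show LinearMap.trace ℂ V ((((tau h)⁻¹ : ℂˣ) : ℂ) • rho (h : G)) = _
    rw [map_smul, smul_eq_mul, map_inv]
    rfl
  let D' : Subgroup H := D.subgroupOf H
  let sigD : Representation ℂ D' V := sig.comp D'.subtype
  haveI : Invertible (Nat.card H : ℂ) := invertibleOfNonzero cardG_ne
  haveI : Invertible (Nat.card D' : ℂ) := invertibleOfNonzero cardG_ne
  have h1 := Representation.card_inv_mul_sum_char_eq_finrank (G := H) sig
  have h2 := Representation.card_inv_mul_sum_char_eq_finrank (G := D') sigD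
  have e1 : ∑ h : H, sig.character h = ∑ h : H, ((tau h : ℂˣ) : ℂ) * rho.character ((h : G)⁻¹) := by
    refine Fintype.sum_equiv (Equiv.inv H) _ _ fun h => ?_
    rw [hchar]
    show ((tau h⁻¹ : ℂˣ) : ℂ) * rho.character (h : G) =
      ((tau h⁻¹ : ℂˣ) : ℂ) * rho.character (((h⁻¹ : H) : G)⁻¹)
    rw [Subgroup.coe_inv, inv_inv]
  have e2 : ∑ h : D', sigD.character h =
      ∑ h : H, (if (h : G) ∈ D then ((tau h : ℂˣ) : ℂ) * rho.character ((h : G)⁻¹) else 0) := by
    have e3 : ∑ h : H, (if (h : G) ∈ D then ((tau h : ℂˣ) : ℂ) * rho.character ((h : G)⁻¹) else 0) =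
        sm D' (fun h => sig.character h⁻¹) := by
      unfold sm
      refine Finset.sum_congr rfl fun h _ => ?_
      have hm : h ∈ D' ↔ (h : G) ∈ D := Iff.rfl
      beta_reduce
      rw [hchar, inv_inv, Subgroup.coe_inv]
      by_cases hh : (h : G) ∈ D
      · rw [if_pos hh, if_pos (hm.mpr hh)]
      · rw [if_neg hh, if_neg (fun h' => hh (hm.mp h'))]
    rw [e3, sm_inv, sm_subtype]
    rfl
  rw [e1] at h1
  rw [e2] at h2
  intro h0
  rw [h0, mul_zero] at h2
  have h3 : Module.finrank ℂ sigD.invariants = 0 := by exact_mod_cast h2.symm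
  have h4 : sigD.invariants = ⊥ := Submodule.finrank_eq_zero.mp h3
  have h5 : sig.invariants ≤ sigD.invariants := by
    intro v hv
    rw [Representation.mem_invariants] at hv ⊢
    intro g
    exact hv g
  have h6 : sig.invariants = ⊥ := le_bot_iff.mp (h4 ▸ h5)
  rw [h6, finrank_bot, Nat.cast_zero] at h1
  rcases mul_eq_zero.mp h1 with h | h
  · exact (inv_ne_zero (cardG_ne (G := H))) h
  · exact hne h

lemma indChar_bot (g : G) : indChar (⊥ : Subgroup G) 1 g = if g = 1 then (Nat.card G : ℂ) else 0 := by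
  unfold indChar
  have h1 : ∀ y : G, lamExt (⊥ : Subgroup G) 1 (y⁻¹ * g * y) = if g = 1 then 1 else 0 := by
    intro y
    unfold lamExt
    by_cases hg : g = 1
    · rw [if_pos hg, dif_pos (by rw [hg, Subgroup.mem_bot]; group)]
      simp
    · rw [if_neg hg, dif_neg]
      rw [Subgroup.mem_bot]
      intro h
      apply hg
      have : g = y * (y⁻¹ * g * y) * y⁻¹ := by group
      rw [this, h]; group
  simp only [h1]
  rw [Finset.sum_const, Finset.card_univ, nsmul_eq_mul, ← Nat.card_eq_fintype_card]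
  simp

lemma sm_map {K : Type} [Group K] [Fintype K] (i : K →* G) (hi : Function.Injective i)
    (H : Subgroup K) (f : G → ℂ) : sm (H.map i) f = sm H (fun k => f (i k)) := by
  unfold sm
  symm
  refine Fintype.sum_of_injective i hi _ _ ?_ ?_
  · intro g hg
    rw [if_neg]
    rintro ⟨k, -, rfl⟩
    exact hg ⟨k, rfl⟩
  · intro k
    by_cases hk : k ∈ H
    · rw [if_pos hk, if_pos ⟨k, hk, rfl⟩]
    · rw [if_neg hk, if_neg]
      rintro ⟨k', hk', h⟩
      rw [hi h] at hk'
      exact hk hk'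

lemma sm_decomp {f : G → ℂ} {e : (G → ℂ) → ℕ} (he : ∀ g, f g = ∑ psi ∈ Irr G, (e psi : ℂ) * psi g)
    (H : Subgroup G) : sm H f = ∑ psi ∈ Irr G, (e psi : ℂ) * sm H psi := by
  unfold sm
  simp only [Finset.mul_sum]
  rw [Finset.sum_comm]
  refine Finset.sum_congr rfl fun g _ => ?_
  by_cases hg : g ∈ H
  · simp only [if_pos hg]
    exact he g
  · simp [hg]

end general


end Pool.Agent.R721.CD
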