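import Pool.Agent.R721.CD.GLevel

set_option linter.unusedSectionVars false
set_option linter.style.haveILetI false
set_option autoImplicit false

open scoped BigOperators Classical
open Representation Pool.Agent.Helper884.IC

noncomputable section

namespace Pool.Agent.R721.CD.GCfg

variable {G K Om : Type} [Group G] [Fintype G] [MulAction G Om] [Group K] [Fintype K]
    [MulAction K Om] [Fintype Om] {c : KCfg K Om} (d : GCfg G K Om c)

/-- restriction to `K` -/
def res (chi : G → ℂ) : K → ℂ := fun k => chi (d.i k)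

lemma res_rep {chi : G → ℂ} (h : IsRepChar chi) : IsRepChar (d.res chi) := h.comp d.i

/-- at most two constituents -/
lemma res_norm {chi : G → ℂ} (h : IsIrrChar chi) {e : (K → ℂ) → ℕ}
    (he : B (d.res chi) (d.res chi) = ((∑ psi ∈ Irr K, (e psi) ^ 2 : ℕ) : ℂ)) :
    ∑ psi ∈ Irr K, (e psi) ^ 2 ≤ 2 := by
  have hr := d.res_rep (IsRepChar.of_irr h)
  have h1 : ∑ k : K, d.res chi k * d.res chi k⁻¹ = ((∑ k : K, ‖d.res chi k‖ ^ 2 : ℝ) : ℂ) := by
    push_cast
    refine Finset.sum_congr rfl fun k _ => ?_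
    rw [mul_inv_eq hr]
    push_cast
    rfl
  unfold B at he
  rw [h1, inv_mul_eq_iff_eq_mul₀ cardG_ne, c.cardK] at he
  have h2 : ∑ k : K, ‖d.res chi k‖ ^ 2 ≤ ∑ g : G, ‖chi g‖ ^ 2 := by
    have h3 : ∑ k : K, ‖d.res chi k‖ ^ 2 = ∑ g : G, if (∃ k, d.i k = g) then ‖chi g‖ ^ 2 else 0 := by
      refine Fintype.sum_of_injective d.i d.inj _ _ ?_ ?_
      · intro g hg
        rw [if_neg]
        rintro ⟨k, rfl⟩
        exact hg ⟨k, rfl⟩
      · intro k
        rw [if_pos ⟨k, rfl⟩]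
        rfl
    rw [h3]
    refine Finset.sum_le_sum fun g _ => ?_
    split_ifs
    · exact le_refl _
    · positivity
  rw [norm_sum h, d.cardG] at h2
  have h4 : ∑ k : K, ‖d.res chi k‖ ^ 2 = ((15600 : ℕ) : ℝ) * ((∑ psi ∈ Irr K, (e psi) ^ 2 : ℕ) : ℝ) := by
    exact_mod_cast he
  rw [h4] at h2
  have h5 : (((∑ psi ∈ Irr K, (e psi) ^ 2 : ℕ)) : ℝ) ≤ ((2 : ℕ) : ℝ) := by
    push_cast at h2 ⊢
    linarith
  exact_mod_cast h5

/-- one or two constituents -/
lemma two {chi : G → ℂ} (h : IsIrrChar chi) {psi : K → ℂ} (hpsi : IsIrrChar psi)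
    (hne : B (d.res chi) psi ≠ 0) :
    (∀ k, d.res chi k = psi k) ∨ (∃ psi' : K → ℂ, IsIrrChar psi' ∧ psi' ≠ psi ∧
      B (d.res chi) psi' ≠ 0 ∧ ∀ k, d.res chi k = psi k + psi' k) := by
  have hr := d.res_rep (IsRepChar.of_irr h)
  obtain ⟨e, he, hsum, hnorm⟩ := decomp hr
  have h2 := d.res_norm h hnorm
  have hm : psi ∈ Irr K := mem_Irr.mpr hpsi
  have he0 : e psi ≠ 0 := by
    intro h0
    apply hne
    rw [he psi hm, h0, Nat.cast_zero]
  have hle1 : ∀ x ∈ Irr K, e x ≤ 1 := by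
    intro x hx
    have h3 := Finset.single_le_sum (f := fun y => (e y) ^ 2) (fun _ _ => Nat.zero_le _) hx
    have h4 : (e x) ^ 2 ≤ 2 := le_trans h3 h2
    by_contra hcon
    have h5 : 2 ≤ e x := by omega
    nlinarith
  have he1 : e psi = 1 := by
    have := hle1 psi hm
    omega
  by_cases hex : ∃ x ∈ Irr K, x ≠ psi ∧ e x ≠ 0
  · right
    obtain ⟨x, hx, hxp, hex⟩ := hex
    have hex1 : e x = 1 := by
      have := hle1 x hx
      omega
    refine ⟨x, mem_Irr.mp hx, hxp, ?_, ?_⟩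
    · rw [he x hx, hex1]
      norm_num
    · intro k
      rw [hsum k]
      have hsub : ({psi, x} : Finset (K → ℂ)) ⊆ Irr K := by
        intro y hy
        rcases Finset.mem_insert.mp hy with rfl | hy
        · exact hm
        · rw [Finset.mem_singleton.mp hy]; exact hx
      have hz : ∀ y ∈ Irr K, y ∉ ({psi, x} : Finset (K → ℂ)) → e y = 0 := by
        intro y hy hyn
        by_contra hy0
        have hsub3 : ({y, psi, x} : Finset (K → ℂ)) ⊆ Irr K := by
          intro z hz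
          rcases Finset.mem_insert.mp hz with rfl | hz
          · exact hy
          · exact hsub hz
        have h3 := Finset.sum_le_sum_of_subset (f := fun y => (e y) ^ 2) hsub3
        rw [Finset.sum_insert hyn, Finset.sum_pair (Ne.symm hxp), he1, hex1] at h3
        have h4 : 1 ≤ (e y) ^ 2 := Nat.one_le_iff_ne_zero.mpr (pow_ne_zero _ hy0)
        omega
      rw [← Finset.sum_subset hsub (fun y hy hyn => by rw [hz y hy hyn]; simp),
        Finset.sum_pair (Ne.symm hxp), he1, hex1]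
      simp
  · left
    push Not at hex
    intro k
    rw [hsum k, Finset.sum_eq_single psi]
    · rw [he1]; simp
    · intro y hy hyp
      rw [hex y hy hyp]; simp
    · intro h; exact absurd hm h

lemma abound {chi : G → ℂ} (h : IsIrrChar chi) {D : ℕ} (hD : chi 1 = D)
    (hne : sm c.N (d.res chi) ≠ 0) : D ≤ 52 := by
  obtain ⟨lam, hlam⟩ := lin_const d.C (c.N.map d.i) (by
    rintro _ ⟨k, hk, rfl⟩
    exact d.NC k hk) (by
    rintro g hg _ ⟨k, hk, rfl⟩
    obtain ⟨k', hk', h⟩ := d.normN g hg k hk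
    exact ⟨k', hk', h.symm⟩) (by
    intro g hg h hh
    obtain ⟨k', hk', h⟩ := d.comN g hg h hh
    exact ⟨k', hk', h.symm⟩) h (by
    show sm (c.N.map d.i) chi ≠ 0
    rw [sm_map d.i d.inj]
    exact hne)
  exact deg_le _ lam h hlam hD (by rw [d.cardG, d.cardC])

include d in
lemma card_stab : Nat.card G = 26 * Nat.card (MulAction.stabilizer G c.inf) := by
  have htr : ∀ q : Om, ∃ x : G, x • c.inf = q := by
    intro q
    by_cases hq : q = c.o
    · obtain ⟨x, -, h, -⟩ := c.trans q c.inf (by rw [hq]; exact c.hio.symm)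
      exact ⟨d.i x, by rw [d.act]; exact h⟩
    · obtain ⟨x, -, h, -⟩ := c.trans q c.o hq
      exact ⟨d.i x, by rw [d.act]; exact h⟩
  haveI : MulAction.IsPretransitive G Om := by
    refine ⟨fun p q => ?_⟩
    obtain ⟨x, rfl⟩ := htr p
    obtain ⟨y, rfl⟩ := htr q
    exact ⟨y * x⁻¹, by rw [smul_smul, inv_mul_cancel_right]⟩
  have h1 := MulAction.index_stabilizer_of_transitive G c.inf
  have h2 := Subgroup.card_mul_index (MulAction.stabilizer G c.inf)
  rw [h1, Nat.card_eq_fintype_card (α := Om), c.cardOm] at h2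
  omega

lemma BS_mem {k : K} (hk : k ∈ c.BS) : d.i k ∈ MulAction.stabilizer G c.inf := by
  rw [MulAction.mem_stabilizer_iff, d.act]
  exact (c.mem_BS.mp hk).2

lemma bbound {chi : G → ℂ} (h : IsIrrChar chi) {D : ℕ} (hD : chi 1 = D)
    (hne : sm c.BS (d.res chi) ≠ 0) : D ≤ 26 := by
  have hfix : ∀ g ∈ MulAction.stabilizer G c.inf, ∀ k ∈ c.S, d.i k = g → k ∈ c.BS := by
    intro g hg k hk h
    rw [c.mem_BS]
    refine ⟨hk, ?_⟩
    rw [← d.act, h]
    exact hg
  obtain ⟨lam, hlam⟩ := lin_const (MulAction.stabilizer G c.inf) (c.BS.map d.i) (by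
    rintro _ ⟨k, hk, rfl⟩
    exact d.BS_mem hk) (by
    rintro g hg _ ⟨k, hk, rfl⟩
    obtain ⟨k', hk', h⟩ := d.normS g k (c.mem_BS.mp hk).1
    exact ⟨k', hfix _ (mul_mem (mul_mem hg (d.BS_mem hk)) (inv_mem hg)) k' hk' h.symm, h.symm⟩) (by
    intro g hg h hh
    obtain ⟨k', hk', e⟩ := d.comS g h
    exact ⟨k', hfix _ (mul_mem (mul_mem (mul_mem hg hh) (inv_mem hg)) (inv_mem hh)) k' hk' e.symm,
      e.symm⟩) h (by
    show sm (c.BS.map d.i) chi ≠ 0
    rw [sm_map d.i d.inj]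
    exact hne)
  exact deg_le _ lam h hlam hD d.card_stab

/-- data of an irreducible character of `K` -/
lemma kdata {psi : K → ℂ} (h : IsIrrChar psi) :
    (psi 1 = 1 ∧ sm c.S psi = 7800) ∨
    (sm c.S psi = 0 ∧ ∃ D a b : ℕ, psi 1 = D ∧ sm c.N psi = 25 * a ∧ sm c.BS psi = 300 * b ∧
      ((D = 25 ∧ a = 1 ∧ b = 1) ∨ (D = 26 ∧ a = 2 ∧ b = 0) ∨ (D = 48 ∧ a = 0 ∧ b = 0) ∨
        (D = 52 ∧ a = 4 ∧ b = 0))) := by
  rcases c.cls h with ⟨h1, hS⟩ | ⟨hS0, n, a, D, hn, hN, ha, hT, hD, hc⟩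
  · left
    refine ⟨h1, ?_⟩
    have : sm c.S psi = sm c.S (fun _ => 1) := sm_congr (fun g hg => hS g hg)
    rw [this, sm_const_one, c.cardS]
    norm_num
  · right
    refine ⟨hS0, D, a, n 0, hD, hN, ?_, ?_⟩
    · have h4 := hn 0
      unfold KCfg.nk at h4
      have e0 : c.lam' ^ 0 = 1 := by
        ext x
        rw [MonoidHom.pow_apply]
        simp
      rw [e0, B_ind_one _ h.isClass, c.card_BS] at h4
      rw [← h4]
      push_cast
      ring
    · rcases hc with h | h | h | h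
      · exact Or.inl h
      · exact Or.inr (Or.inl h)
      · exact Or.inr (Or.inr (Or.inl h))
      · exact Or.inr (Or.inr (Or.inr ⟨h.1, h.2.1, h.2.2.1⟩))

/-- all constituents of the restriction are nontrivial on `S` -/
lemma nontriv {chi : G → ℂ} (h : IsIrrChar chi) (hS : sm c.S (d.res chi) = 0) {psi : K → ℂ}
    (hpsi : IsIrrChar psi) (hne : B (d.res chi) psi ≠ 0) : sm c.S psi = 0 := by
  have hr := d.res_rep (IsRepChar.of_irr h)
  obtain ⟨e, he, hsum, -⟩ := decomp hr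
  have h1 := sm_decomp hsum c.S
  rw [hS] at h1
  have hm : psi ∈ Irr K := mem_Irr.mpr hpsi
  have key : ∀ x ∈ Irr K, ∃ t : ℕ, sm c.S x = t := by
    intro x hx
    rcases kdata (c := c) (mem_Irr.mp hx) with h | h
    · exact ⟨7800, by rw [h.2]; norm_num⟩
    · exact ⟨0, by rw [h.1]; norm_num⟩
  choose! t ht using key
  have h2 : ∑ x ∈ Irr K, e x * t x = 0 := by
    have : ((∑ x ∈ Irr K, e x * t x : ℕ) : ℂ) = 0 := by
      push_cast
      rw [h1]
      exact Finset.sum_congr rfl fun x hx => by rw [ht x hx]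
    exact_mod_cast this
  have h3 := (Finset.sum_eq_zero_iff.mp h2) psi hm
  have h4 : e psi ≠ 0 := by
    intro h0
    apply hne
    rw [he psi hm, h0, Nat.cast_zero]
  rw [ht psi hm]
  rcases Nat.mul_eq_zero.mp h3 with h | h
  · exact absurd h h4
  · rw [h, Nat.cast_zero]

/-- characters of degree 48 of `K` are `G`-invariant -/
lemma inv48 {psi : K → ℂ} (h : IsIrrChar psi) (hD : psi 1 = 48) (g : G) (k k' : K)
    (hk : g * d.i k * g⁻¹ = d.i k') : psi k' = psi k := by
  have hcl := h.isClass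
  by_cases hg : ∃ x, d.i x = g
  · obtain ⟨x, rfl⟩ := hg
    rw [← map_inv, ← map_mul, ← map_mul] at hk
    rw [← d.inj hk, hcl]
  push Not at hg
  obtain ⟨hv, -, -⟩ := c.vals48 h hD
  by_cases hkS : k ∈ c.S
  swap
  · have hkS' : k' ∉ c.S := by
      intro hk'
      obtain ⟨k'', hk'', e⟩ := d.normS g⁻¹ k' hk'
      rw [← hk] at e
      have : g⁻¹ * (g * d.i k * g⁻¹) * g⁻¹⁻¹ = d.i k := by group
      rw [this] at e
      rw [d.inj e] at hkS
      exact hkS hk''
    rw [hv k hkS, hv k' hkS']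
  have hkS' : k' ∈ c.S := by
    obtain ⟨k'', hk'', e⟩ := d.normS g k hkS
    rw [hk] at e
    rw [d.inj e]
    exact hk''
  by_cases hk1 : k = 1
  · have : k' = 1 := by
      apply d.inj
      rw [← hk, hk1]
      simp
    rw [this, hk1]
  have hk1' : k' ≠ 1 := by
    intro h0
    apply hk1
    apply d.inj
    rw [h0, map_one] at hk
    have : d.i k = g⁻¹ * (g * d.i k * g⁻¹) * g := by group
    rw [this, hk, map_one]
    group
  by_cases hES : c.ES k
  · obtain ⟨y, hy, hyk⟩ := d.comm k hES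
    have hy' : ∀ x, d.i x ≠ y⁻¹ := by
      intro x hx
      apply hy x⁻¹
      rw [map_inv, hx, inv_inv]
    obtain ⟨x, hx⟩ := d.idx g y⁻¹ hg hy'
    have hgx : g = d.i x * y := by rw [hx]; group
    rw [hgx] at hk
    have h2 : d.i x * y * d.i k * (d.i x * y)⁻¹ = d.i (x * k * x⁻¹) := by
      rw [map_mul, map_mul, map_inv]
      have : d.i x * y * d.i k * (d.i x * y)⁻¹ = d.i x * (y * d.i k) * y⁻¹ * (d.i x)⁻¹ := by group
      rw [this, hyk]
      group
    rw [h2] at hk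
    rw [← d.inj hk, hcl]
  · have hP : ∃ P : Om, k • P = P := by
      by_contra hcon
      push Not at hcon
      exact hES ⟨hkS, hcon⟩
    obtain ⟨P, hP⟩ := hP
    have hmove : ∀ Q : Om, k • Q = Q → k' • g • Q = g • Q := by
      intro Q hQ
      rw [← d.act, ← hk, mul_smul, mul_smul, inv_smul_smul, d.act, hQ]
    obtain ⟨h1, h2⟩ := c.val48 h hD hkS hk1 hP
    obtain ⟨h1', h2'⟩ := c.val48 h hD hkS' hk1' (hmove P hP)
    by_cases hQ : ∃ Q, Q ≠ P ∧ k • Q = Q
    · obtain ⟨Q, hQP, hQ⟩ := hQ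
      rw [h2 ⟨Q, hQP, hQ⟩, h2' ⟨g • Q, fun e => hQP (MulAction.injective g e), hmove Q hQ⟩]
    · push Not at hQ
      rw [h1 hQ, h1']
      intro R hR hkR
      apply hQ (g⁻¹ • R)
      · intro e
        apply hR
        rw [← e, smul_inv_smul]
      · rw [← d.act] at hkR ⊢
        rw [← hk, mul_smul, mul_smul] at hkR
        rw [← smul_left_cancel_iff g, hkR, smul_inv_smul]

end Pool.Agent.R721.CD.GCfg
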