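import Mathlib

set_option autoImplicit false

namespace Pool.Agent.R721.CD

/-- the arithmetic at the heart of the classification -/
lemma numeric (D a b R Q : ℕ) (u e : ℤ) (hD0 : 0 < D) (ha : a = b + R) (hRQ : R ≤ Q)
    (hu : (D : ℤ) + 24 * u = 25 * a) (he : 1200 * e = -325 * a - 3900 * b + 25 * D)
    (hq : 400 * e ^ 2 ≤ 15600 - (D : ℤ) ^ 2 - 624 * u ^ 2 - 3900 * ((b : ℤ) ^ 2 + Q) + 325 * (a : ℤ) ^ 2)
    (h52 : 0 < a → D ≤ 52) (h26 : 0 < b → D ≤ 26) :
    (D = 25 ∧ a = 1 ∧ b = 1) ∨ (D = 26 ∧ a = 2 ∧ b = 0) ∨ (D = 48 ∧ a = 0 ∧ b = 0) ∨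
      (D = 52 ∧ a = 4 ∧ b = 0 ∧ Q = 4) := by
  -- `y = a - 2u`, `D = 13 a + 12 y`, `4 e = y - 13 b`
  obtain ⟨y, hy⟩ : ∃ y : ℤ, y = a - 2 * u := ⟨_, rfl⟩
  have hDy : (D : ℤ) = 13 * a + 12 * y := by rw [hy]; linarith
  have hey : 4 * e = y - 13 * b := by
    have : 1200 * e = 300 * y - 3900 * b := by rw [he, hDy]; ring
    linarith
  have hq2 : 4 * e ^ 2 + 3 * y ^ 2 + 39 * (b : ℤ) ^ 2 + 39 * Q ≤ 156 := by
    have hu2 : 2 * u = a - y := by rw [hy]; ring
    have h1 : 624 * u ^ 2 = 156 * (a - y) ^ 2 := by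
      have : (2 * u) ^ 2 = (a - y) ^ 2 := by rw [hu2]
      nlinarith
    have h2 : (D : ℤ) ^ 2 = (13 * a + 12 * y) ^ 2 := by rw [hDy]
    nlinarith
  have hQ4 : Q ≤ 4 := by
    have : (39 : ℤ) * Q ≤ 156 := by nlinarith [sq_nonneg e, sq_nonneg y, sq_nonneg (b : ℤ)]
    omega
  have hb2 : b ≤ 2 := by
    by_contra hcon
    have h3 : (3 : ℤ) ≤ b := by exact_mod_cast (by omega : 3 ≤ b)
    nlinarith [sq_nonneg e, sq_nonneg y]
  have hy1 : y ≤ 7 := by
    by_contra hcon
    have : 8 ≤ y := by omega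
    nlinarith [sq_nonneg e, sq_nonneg (b : ℤ)]
  have hy2 : -7 ≤ y := by
    by_contra hcon
    have : y ≤ -8 := by omega
    nlinarith [sq_nonneg e, sq_nonneg (b : ℤ)]
  have hR4 : R ≤ 4 := by omega
  subst ha
  clear hq
  interval_cases b
  · -- b = 0
    have : y = 4 * e := by push_cast at hey; linarith
    subst this
    have he1 : e ≤ 1 := by omega
    have he2 : -1 ≤ e := by omega
    interval_cases e
    · omega
    · push_cast at hDy hu he
      interval_cases Q <;> interval_cases R <;> omega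
    · have hQ3 : Q ≤ 2 := by push_cast at hq2; omega
      push_cast at hDy hu he
      interval_cases Q <;> interval_cases R <;> omega
  · -- b = 1
    have : y = 4 * e + 13 := by push_cast at hey; linarith
    subst this
    have he1 : e ≤ -2 := by omega
    have he2 : -5 ≤ e := by omega
    interval_cases e
    · push_cast at hDy hu he hq2
      omega
    · push_cast at hDy hu he hq2
      omega
    · push_cast at hDy hu he hq2
      interval_cases Q <;> interval_cases R <;> omega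
    · push_cast at hDy hu he hq2
      interval_cases Q <;> interval_cases R <;> omega
  · have : y = 4 * e + 26 := by push_cast at hey; linarith
    subst this
    have he1 : e ≤ -4 := by omega
    have he2 : -9 ≤ e := by omega
    push_cast at hq2
    nlinarith

end Pool.Agent.R721.CD
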