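import Pool.Agent.R721.CD.Cls
import Pool.Agent.R721.CD.Num

set_option linter.unusedSectionVars false
set_option linter.style.haveILetI false
set_option autoImplicit false

open scoped BigOperators Classical
open Representation Pool.Agent.Helper884.IC

noncomputable section

namespace Pool.Agent.R721.CD

variable {K Om : Type} [Group K] [Fintype K] [MulAction K Om] [Fintype Om]

lemma mul_inv_eq {f : K → ℂ} (h : IsRepChar f) (g : K) :
    f g * f g⁻¹ = ((‖f g‖ ^ 2 : ℝ) : ℂ) := by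
  rw [char_inv h, Complex.mul_conj, Complex.normSq_eq_norm_sq]

lemma sq_class {f : K → ℂ} (h : IsRepChar f) : IsClass (fun g => f g * f g⁻¹) := by
  intro g y
  have e : (y * g * y⁻¹)⁻¹ = y * g⁻¹ * y⁻¹ := by group
  beta_reduce
  rw [e, h.isClass, h.isClass]

lemma norm_sum {f : K → ℂ} (h : IsIrrChar f) : ∑ g : K, ‖f g‖ ^ 2 = (Nat.card K : ℝ) := by
  have h1 := B_irr h h
  rw [if_pos rfl] at h1
  unfold B at h1
  have h2 : ∑ g : K, f g * f g⁻¹ = (((∑ g : K, ‖f g‖ ^ 2 : ℝ)) : ℂ) := by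
    push_cast
    refine Finset.sum_congr rfl fun g _ => ?_
    rw [mul_inv_eq (IsRepChar.of_irr h)]
    push_cast
    rfl
  rw [h2, inv_mul_eq_iff_eq_mul₀ cardG_ne, mul_one] at h1
  exact_mod_cast h1

namespace KCfg

variable (c : KCfg K Om)

lemma exists_n : ∃ n ∈ c.N, n ≠ 1 := by
  by_contra hcon
  push Not at hcon
  have h1 : c.N = ⊥ := (Subgroup.eq_bot_iff_forall _).mpr hcon
  have h2 := c.cardN
  rw [h1, Subgroup.card_bot] at h2
  omega

lemma sm_N (f : K → ℂ) (hf : IsClass f) {n : K} (hn : n ∈ c.N) (hn1 : n ≠ 1) :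
    sm c.N f = f 1 + 24 * f n := by
  have h1 : sm c.N f = sm c.N (fun g => f n * 1 + (if g = 1 then (f 1 - f n) else 0)) := by
    apply sm_congr
    intro g hg
    by_cases hg1 : g = 1
    · rw [if_pos hg1, hg1]; ring
    · rw [if_neg hg1]
      obtain ⟨x, hx⟩ := c.Nconj n hn g hg hn1 hg1
      rw [← hx, hf]
      ring
  rw [h1, sm_add, sm_mul, sm_const_one, c.cardN, sm_one_point c.N (fun _ => f 1 - f n)]
  push_cast
  ring

lemma card_stab : Nat.card K = 26 * Nat.card (MulAction.stabilizer K c.inf) := by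
  have htr : ∀ q : Om, ∃ x : K, x • c.inf = q := by
    intro q
    by_cases hq : q = c.o
    · obtain ⟨x, -, h, -⟩ := c.trans q c.inf (by rw [hq]; exact c.hio.symm)
      exact ⟨x, h⟩
    · obtain ⟨x, -, h, -⟩ := c.trans q c.o hq
      exact ⟨x, h⟩
  haveI : MulAction.IsPretransitive K Om := by
    refine ⟨fun p q => ?_⟩
    obtain ⟨x, rfl⟩ := htr p
    obtain ⟨y, rfl⟩ := htr q
    exact ⟨y * x⁻¹, by rw [smul_smul, inv_mul_cancel_right]⟩
  have h1 := MulAction.index_stabilizer_of_transitive K c.inf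
  have h2 := Subgroup.card_mul_index (MulAction.stabilizer K c.inf)
  rw [h1, Nat.card_eq_fintype_card (α := Om), c.cardOm] at h2
  omega

/-- the classification data of an irreducible character of `K` -/
theorem cls {chi : K → ℂ} (h : IsIrrChar chi) :
    (chi 1 = 1 ∧ (∀ g ∈ c.S, chi g = 1)) ∨
    (sm c.S chi = 0 ∧ ∃ (n : ℕ → ℕ) (a D : ℕ),
      (∀ k, c.nk k chi = n k) ∧ sm c.N chi = 25 * a ∧ a = ∑ j ∈ Finset.range 12, n j ∧
      sm c.T (fun g => chi g * chi g⁻¹) =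
        12 * ∑ j ∈ Finset.range 12, ((n j : ℂ) ^ 2) + chi 1 ^ 2 - (a : ℂ) ^ 2 ∧
      chi 1 = D ∧
      ((D = 25 ∧ a = 1 ∧ n 0 = 1) ∨ (D = 26 ∧ a = 2 ∧ n 0 = 0) ∨ (D = 48 ∧ a = 0 ∧ n 0 = 0) ∨
        (D = 52 ∧ a = 4 ∧ n 0 = 0 ∧ ∑ j ∈ Finset.range 12, (n j) ^ 2 = 4))) := by
  rcases dichotomy c.S c.normS c.comS h with hS | hS
  swap
  · exact Or.inl ⟨hS.1, hS.2.1⟩
  right
  have hS0 : sm c.S chi = 0 := hS
  obtain ⟨n, a, hn, haN, hasum, hT1, hT2⟩ := c.four h
  obtain ⟨D, hD0, hD⟩ := irr_deg h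
  refine ⟨hS0, n, a, D, hn, haN, hasum, hT2, hD, ?_⟩
  have hcl := h.isClass
  have hrc := IsRepChar.of_irr h
  -- the value at elements of order five
  obtain ⟨v, hv, hv1⟩ := c.exists_n
  have hN := c.sm_N chi hcl hv hv1
  rw [haN, hD] at hN
  obtain ⟨u, hu⟩ := int_of_rat (char_integral h v) (25 * a - D) 24 (by norm_num) (by
    push_cast
    linear_combination -hN)
  have hu' : (D : ℤ) + 24 * u = 25 * a := by
    rw [hu] at hN
    have : (25 : ℂ) * (a : ℂ) = ((D : ℕ) : ℂ) + 24 * (u : ℂ) := hN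
    have h2 : (25 : ℤ) * a = D + 24 * u := by exact_mod_cast this
    linarith
  -- the sum over the elliptic elements
  obtain ⟨z, hz, hE⟩ := c.ES_integral chi hcl (char_integral h)
  have hE' := c.E_sum chi hcl
  rw [hE, hS0, haN, hT1, hD] at hE'
  obtain ⟨e, he⟩ := int_of_rat hz (-325 * a - 3900 * n 0 + 25 * D) 1200 (by norm_num) (by
    push_cast
    linear_combination hE')
  rw [he] at hE hE'
  have he' : 1200 * e = -325 * (a : ℤ) - 3900 * (n 0 : ℤ) + 25 * D := by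
    have : (1200 : ℂ) * (e : ℂ) = -325 * (a : ℂ) - 3900 * (n 0 : ℂ) + 25 * (D : ℂ) := by
      linear_combination hE'
    exact_mod_cast this
  -- the sum of squares over the elliptic elements
  have hE2 := c.E_sum (fun g => chi g * chi g⁻¹) (sq_class hrc)
  rw [c.sm_N _ (sq_class hrc) hv hv1, hT2] at hE2
  have hvv : chi v * chi v⁻¹ = (u : ℂ) ^ 2 := by
    rw [char_inv hrc, hu]
    simp [pow_two]
  beta_reduce at hE2
  rw [hvv, inv_one, hD] at hE2
  have hES : ∑ g : K, (if c.ES g then chi g * chi g⁻¹ else 0) =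
      ((∑ g : K, (if c.ES g then ‖chi g‖ ^ 2 else 0) : ℝ) : ℂ) := by
    push_cast
    refine Finset.sum_congr rfl fun g _ => ?_
    split_ifs
    · rw [mul_inv_eq hrc]
    · rfl
  have hSS : sm c.S (fun g => chi g * chi g⁻¹) =
      ((∑ g : K, (if g ∈ c.S then ‖chi g‖ ^ 2 else 0) : ℝ) : ℂ) := by
    unfold sm
    push_cast
    refine Finset.sum_congr rfl fun g _ => ?_
    split_ifs
    · rw [mul_inv_eq hrc]
    · rfl
  set E2 : ℝ := ∑ g : K, (if c.ES g then ‖chi g‖ ^ 2 else 0) with hE2def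
  set S2 : ℝ := ∑ g : K, (if g ∈ c.S then ‖chi g‖ ^ 2 else 0) with hS2def
  set Q : ℕ := ∑ j ∈ Finset.range 12, (n j) ^ 2 with hQdef
  have hQc : ∑ j ∈ Finset.range 12, ((n j : ℂ) ^ 2) = (Q : ℂ) := by
    rw [hQdef]; push_cast; rfl
  rw [hES, hSS, hQc] at hE2
  have hE2r : E2 = S2 - 26 * ((D : ℝ) * D + 24 * (u : ℝ) ^ 2)
      - 325 * (12 * (Q : ℝ) + (D : ℝ) ^ 2 - (a : ℝ) ^ 2) + 350 * ((D : ℝ) * D) := by
    exact_mod_cast hE2
  have hS2le : S2 ≤ 15600 := by
    have h1 := norm_sum h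
    rw [c.cardK] at h1
    rw [hS2def]
    have h2 : ∑ g : K, (if g ∈ c.S then ‖chi g‖ ^ 2 else 0) ≤ ∑ g : K, ‖chi g‖ ^ 2 := by
      refine Finset.sum_le_sum fun g _ => ?_
      split_ifs
      · exact le_refl _
      · positivity
    rw [h1] at h2
    exact_mod_cast h2
  -- Cauchy-Schwarz
  have hCS : ((1200 : ℝ) * e) ^ 2 ≤ 3600 * E2 := by
    have h1 := Finset.sum_mul_sq_le_sq_mul_sq (Finset.univ : Finset K)
      (fun g => if c.ES g then (1 : ℝ) else 0) (fun g => if c.ES g then (chi g).re else 0)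
    have h2 : ∑ g : K, (if c.ES g then (1 : ℝ) else 0) * (if c.ES g then (chi g).re else 0) =
        1200 * e := by
      have h3 := congrArg Complex.re hE
      rw [Complex.re_sum] at h3
      have h4 : ((1200 : ℂ) * (e : ℂ)).re = 1200 * (e : ℝ) := by simp
      rw [h4] at h3
      rw [← h3]
      refine Finset.sum_congr rfl fun g _ => ?_
      split_ifs <;> simp
    have h3 : ∑ g : K, (if c.ES g then (1 : ℝ) else 0) ^ 2 = 3600 := by
      have h4 := congrArg Complex.re c.card_ES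
      rw [Complex.re_sum] at h4
      have h5 : ((3600 : ℂ)).re = 3600 := by simp
      rw [h5] at h4
      rw [← h4]
      refine Finset.sum_congr rfl fun g _ => ?_
      split_ifs <;> simp
    have h4 : ∑ g : K, (if c.ES g then (chi g).re else 0) ^ 2 ≤ E2 := by
      rw [hE2def]
      refine Finset.sum_le_sum fun g _ => ?_
      split_ifs
      · have := Complex.abs_re_le_norm (chi g)
        rw [← sq_abs]
        exact pow_le_pow_left₀ (abs_nonneg _) this 2
      · simp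
    rw [h2, h3] at h1
    linarith
  have hq : 400 * e ^ 2 ≤ 15600 - (D : ℤ) ^ 2 - 624 * u ^ 2 -
      3900 * (((n 0 : ℕ) : ℤ) ^ 2 + ((∑ j ∈ Finset.range 11, (n (j + 1)) ^ 2 : ℕ) : ℤ)) + 325 * (a : ℤ) ^ 2 := by
    have h1 : (400 : ℝ) * (e : ℝ) ^ 2 ≤ 15600 - (D : ℝ) ^ 2 - 624 * (u : ℝ) ^ 2 -
        3900 * (Q : ℝ) + 325 * (a : ℝ) ^ 2 := by
      have e1 : ((1200 : ℝ) * e) ^ 2 = 1440000 * (e : ℝ) ^ 2 := by ring
      have e2 : E2 = S2 - (D : ℝ) ^ 2 - 624 * (u : ℝ) ^ 2 - 3900 * (Q : ℝ) + 325 * (a : ℝ) ^ 2 := by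
        rw [hE2r]; ring
      rw [e1, e2] at hCS
      linarith
    have h2 : (Q : ℤ) = ((n 0 : ℕ) : ℤ) ^ 2 + ((∑ j ∈ Finset.range 11, (n (j + 1)) ^ 2 : ℕ) : ℤ) := by
      rw [hQdef, Finset.sum_range_succ']
      push_cast
      ring
    rw [← h2]
    have h3 : ((400 * e ^ 2 : ℤ) : ℝ) ≤ ((15600 - (D : ℤ) ^ 2 - 624 * u ^ 2 -
        3900 * (Q : ℤ) + 325 * (a : ℤ) ^ 2 : ℤ) : ℝ) := by
      push_cast
      exact h1
    exact Int.cast_le.mp h3
  have hasum' : a = n 0 + ∑ j ∈ Finset.range 11, n (j + 1) := by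
    rw [hasum, Finset.sum_range_succ']
    ring
  have hRQ : ∑ j ∈ Finset.range 11, n (j + 1) ≤ ∑ j ∈ Finset.range 11, (n (j + 1)) ^ 2 := by
    refine Finset.sum_le_sum fun j _ => ?_
    rcases Nat.eq_zero_or_pos (n (j + 1)) with h | h
    · rw [h]; simp
    · nlinarith
  have h52 : 0 < a → D ≤ 52 := by
    intro ha
    rw [hasum] at ha
    obtain ⟨j, -, hj⟩ := Finset.exists_ne_zero_of_sum_ne_zero ha.ne'
    refine deg_le c.BS (c.lam' ^ j) h ?_ hD (m := 52) ?_
    · have := hn j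
      unfold nk at this
      rw [this]
      exact_mod_cast hj
    · rw [c.cardK, c.card_BS]
  have h26 : 0 < n 0 → D ≤ 26 := by
    intro hb
    obtain ⟨lam, hlam⟩ := lin_const (MulAction.stabilizer K c.inf) c.BS inf_le_right (by
      intro x hx d hd
      exact Subgroup.mem_inf.mpr ⟨c.normS.conj_mem _ (c.mem_BS.mp hd).1 _,
        mul_mem (mul_mem hx (Subgroup.mem_inf.mp hd).2) (inv_mem hx)⟩) (by
      intro x hx y hy
      exact Subgroup.mem_inf.mpr ⟨c.comS x y,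
        mul_mem (mul_mem (mul_mem hx hy) (inv_mem hx)) (inv_mem hy)⟩) h (by
      have h1 := c.N_sum chi (fun g _ x _ => hcl g x)
      rw [haN, hT1] at h1
      have h2 : sm c.BS chi = 300 * n 0 := by linear_combination -h1
      show sm c.BS chi ≠ 0
      rw [h2]
      have : (n 0 : ℂ) ≠ 0 := by exact_mod_cast hb.ne'
      exact mul_ne_zero (by norm_num) this)
    exact deg_le _ lam h hlam hD c.card_stab
  have hfin := numeric D a (n 0) (∑ j ∈ Finset.range 11, n (j + 1))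
    (∑ j ∈ Finset.range 11, (n (j + 1)) ^ 2) u e hD0 hasum' hRQ hu' he' hq h52 h26
  rcases hfin with h | h | h | h
  · exact Or.inl h
  · exact Or.inr (Or.inl h)
  · exact Or.inr (Or.inr (Or.inl h))
  · refine Or.inr (Or.inr (Or.inr ⟨h.1, h.2.1, h.2.2.1, ?_⟩))
    rw [hQdef, Finset.sum_range_succ', h.2.2.1, h.2.2.2]
    norm_num

end KCfg

end Pool.Agent.R721.CD
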