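import Mathlib

set_option linter.unusedSectionVars false
set_option linter.style.haveILetI false
set_option autoImplicit false

open scoped BigOperators Classical
open Matrix

noncomputable section

namespace Pool.Agent.R721.CD

/-! Semilinear fractional maps over the field with 25 elements. -/

variable (F : Type) [Field F] [Fintype F] [hF : Fact (Fintype.card F = 25)]

instance charP5 : CharP F 5 := by
  haveI : Fact (Nat.Prime 5) := ⟨by norm_num⟩
  rw [CharP.charP_iff_prime_eq_zero (by norm_num : Nat.Prime 5)]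
  have h1 : ((Fintype.card F : ℕ) : F) = 0 := FiniteField.cast_card_eq_zero F
  rw [hF.out] at h1
  have h2 : ((5 : ℕ) : F) * ((5 : ℕ) : F) = 0 := by
    rw [← Nat.cast_mul]
    exact h1
  exact mul_self_eq_zero.mp h2

instance fact5 : Fact (Nat.Prime 5) := ⟨by norm_num⟩

/-- the Frobenius map -/
def phi : F →+* F := frobenius F 5

variable {F}

lemma phi_apply (x : F) : phi F x = x ^ 5 := rfl

lemma pow25 (x : F) : x ^ 25 = x := by
  have := FiniteField.pow_card x
  rwa [hF.out] at this

lemma phi_phi (x : F) : phi F (phi F x) = x := by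
  rw [phi_apply, phi_apply, ← pow_mul]
  exact pow25 x

lemma two_ne : (2 : F) ≠ 0 := by
  intro h
  have h5 : ((5 : ℕ) : F) = 0 := CharP.cast_eq_zero F 5
  have : (1 : F) = 0 := by
    have h6 : (5 : F) = 0 := by exact_mod_cast h5
    have : (1 : F) = 5 - 2 * 2 := by norm_num
    rw [this, h6, h]; ring
  exact one_ne_zero this

lemma odd_char : ringChar F ≠ 2 := by
  have h1 : ringChar F = 5 := ringChar.eq F 5 ▸ rfl
  rw [h1]
  norm_num

lemma isSquare_iff {a : F} (ha : a ≠ 0) : IsSquare a ↔ a ^ 12 = 1 := by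
  have := FiniteField.isSquare_iff (F := F) odd_char ha
  rw [hF.out] at this
  exact this

lemma neg_one_sq : IsSquare (-1 : F) := by
  rw [isSquare_iff (neg_ne_zero.mpr one_ne_zero)]
  norm_num

lemma sq_neg {a : F} : IsSquare (-a) ↔ IsSquare a := by
  constructor
  · intro h
    have := neg_one_sq.mul h
    simpa using this
  · intro h
    have := neg_one_sq.mul h
    simpa using this

/-- product of two nonsquares is a square -/
lemma nonsq_mul {a b : F} (ha : a ≠ 0) (hb : b ≠ 0) (h1 : ¬ IsSquare a) (h2 : ¬ IsSquare b) :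
    IsSquare (a * b) := by
  rw [isSquare_iff ha] at h1
  rw [isSquare_iff hb] at h2
  rw [isSquare_iff (mul_ne_zero ha hb), mul_pow]
  have h3 : ∀ x : F, x ≠ 0 → x ^ 12 ≠ 1 → x ^ 12 = -1 := by
    intro x hx h
    have h4 : x ^ 24 = 1 := by
      have := FiniteField.pow_card_sub_one_eq_one x hx
      rwa [hF.out] at this
    have h5 : (x ^ 12 - 1) * (x ^ 12 + 1) = 0 := by
      have : (x ^ 12 - 1) * (x ^ 12 + 1) = x ^ 24 - 1 := by ring
      rw [this, h4, sub_self]
    rcases mul_eq_zero.mp h5 with h6 | h6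
    · exact absurd (sub_eq_zero.mp h6) h
    · exact eq_neg_of_add_eq_zero_left h6
  rw [h3 a ha h1, h3 b hb h2]
  norm_num

lemma phi_sq {a : F} : IsSquare (phi F a) ↔ IsSquare a := by
  constructor
  · rintro ⟨b, hb⟩
    refine ⟨phi F b, ?_⟩
    rw [← map_mul, ← hb, phi_phi]
  · rintro ⟨b, rfl⟩
    exact ⟨phi F b, map_mul _ _ _⟩

/-- quadratic sign -/
def sg : Fˣ →* ℤˣ where
  toFun a := if IsSquare (a : F) then 1 else -1
  map_one' := by
    rw [if_pos]
    exact ⟨1, by simp⟩
  map_mul' a b := by
    have ha := a.ne_zero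
    have hb := b.ne_zero
    by_cases h1 : IsSquare (a : F) <;> by_cases h2 : IsSquare (b : F)
    · rw [if_pos h1, if_pos h2, if_pos, one_mul]
      rw [Units.val_mul]
      exact h1.mul h2
    · rw [if_pos h1, if_neg h2, if_neg, one_mul]
      rw [Units.val_mul]
      intro h3
      apply h2
      have h4 : (b : F) = (a : F)⁻¹ * (a * b) := by field_simp
      rw [h4]
      exact h1.inv.mul h3
    · rw [if_neg h1, if_pos h2, if_neg, mul_one]
      rw [Units.val_mul]
      intro h3
      apply h1
      have h4 : (a : F) = (a * b) * (b : F)⁻¹ := by field_simp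
      rw [h4]
      exact h3.mul h2.inv
    · rw [if_neg h1, if_neg h2, if_pos]
      · norm_num
      · rw [Units.val_mul]
        exact nonsq_mul ha hb h1 h2

lemma sg_eq_one {a : Fˣ} : sg a = 1 ↔ IsSquare (a : F) := by
  show (if IsSquare (a : F) then (1 : ℤˣ) else -1) = 1 ↔ _
  split_ifs with h
  · simp [h]
  · simp [h]

lemma sg_eq_neg {a : Fˣ} : sg a = -1 ↔ ¬ IsSquare (a : F) := by
  show (if IsSquare (a : F) then (1 : ℤˣ) else -1) = -1 ↔ _
  split_ifs with h
  · simp [h]
  · simp [h]

/-- sign of a matrix -/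
def qq : GL (Fin 2) F →* ℤˣ := sg.comp Matrix.GeneralLinearGroup.det

lemma qq_one_iff (A : GL (Fin 2) F) : qq A = 1 ↔ IsSquare (A.1.det) := sg_eq_one

lemma qq_neg_iff (A : GL (Fin 2) F) : qq A = -1 ↔ ¬ IsSquare (A.1.det) := sg_eq_neg

lemma qq_map (A : GL (Fin 2) F) : qq (A.map (phi F)) = qq A := by
  have h1 : (A.map (phi F)).1.det = phi F A.1.det := by
    have : (A.map (phi F)).1 = A.1.map (phi F) := rfl
    rw [this]
    exact ((phi F).map_det A.1).symm
  by_cases h : IsSquare A.1.det
  · rw [(qq_one_iff A).mpr h, qq_one_iff, h1]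
    exact phi_sq.mpr h
  · rw [(qq_neg_iff A).mpr h, qq_neg_iff, h1]
    exact fun h' => h (phi_sq.mp h')

/-- linear fractional maps -/
def mm : GL (Fin 2) F →* Equiv.Perm (OnePoint F) := MulAction.toPermHom _ _

lemma mm_apply (A : GL (Fin 2) F) (x : OnePoint F) : mm A x = A • x := rfl

/-- the Frobenius permutation of the projective line -/
def fr : Equiv.Perm (OnePoint F) where
  toFun := OnePoint.map (phi F)
  invFun := OnePoint.map (phi F)
  left_inv x := by
    cases x with
    | infty => simp
    | coe x => simp [phi_phi]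
  right_inv x := by
    cases x with
    | infty => simp
    | coe x => simp [phi_phi]

lemma fr_inf : fr (F := F) OnePoint.infty = OnePoint.infty := rfl
lemma fr_coe (x : F) : fr (x : OnePoint F) = ((x ^ 5 : F) : OnePoint F) := rfl

lemma fr_fr : fr (F := F) * fr = 1 := by
  ext x
  exact fr.left_inv x

lemma fr_mm (A : GL (Fin 2) F) : fr * mm A = mm (A.map (phi F)) * fr := by
  ext x
  show OnePoint.map (phi F) (A • x) = (A.map (phi F)) • OnePoint.map (phi F) x
  exact OnePoint.map_smul (phi F) A x

/-- general semilinear fractional map -/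
def el (A : GL (Fin 2) F) (e : Bool) : Equiv.Perm (OnePoint F) := mm A * (bif e then fr else 1)

def tw (e : Bool) (A : GL (Fin 2) F) : GL (Fin 2) F := bif e then A.map (phi F) else A

lemma qq_tw (e : Bool) (A : GL (Fin 2) F) : qq (tw e A) = qq A := by
  cases e
  · rfl
  · exact qq_map A

lemma el_mul (A B : GL (Fin 2) F) (e f : Bool) :
    el A e * el B f = el (A * tw e B) (xor e f) := by
  cases e <;> cases f <;> simp only [el, tw, cond_true, cond_false, mul_one, Bool.xor_false,
    Bool.xor_true, Bool.not_false, Bool.not_true, map_mul]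
  · rw [mul_assoc]
  · rw [mul_assoc, mul_assoc, fr_mm]
  · rw [mul_assoc, ← mul_assoc fr, fr_mm, mul_assoc, fr_fr, mul_one]

lemma el_one : el (1 : GL (Fin 2) F) false = 1 := by
  simp [el]

lemma tw_tw (e : Bool) (A : GL (Fin 2) F) : tw e (tw e A) = A := by
  cases e
  · rfl
  · show (A.map (phi F)).map (phi F) = A
    ext i j
    show phi F (phi F (A i j)) = A i j
    exact phi_phi _

lemma tw_mul (e : Bool) (A B : GL (Fin 2) F) : tw e (A * B) = tw e A * tw e B := by
  cases e
  · rfl
  · exact map_mul _ _ _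

lemma tw_one (e : Bool) : tw e (1 : GL (Fin 2) F) = 1 := by
  cases e
  · rfl
  · exact map_one _

lemma el_inv (A : GL (Fin 2) F) (e : Bool) : (el A e)⁻¹ = el (tw e A⁻¹) e := by
  rw [inv_eq_iff_mul_eq_one, el_mul, tw_tw, mul_inv_cancel, Bool.xor_self, el_one]

lemma el_apply_inf (A : GL (Fin 2) F) (e : Bool) :
    el A e OnePoint.infty = A • (OnePoint.infty : OnePoint F) := by
  cases e <;> rfl

/-- the twisting of the coordinate -/
def pw (e : Bool) (x : F) : F := bif e then x ^ 5 else x

lemma el_apply_coe (A : GL (Fin 2) F) (e : Bool) (x : F) :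
    el A e (x : OnePoint F) = A • ((pw e x : F) : OnePoint F) := by
  cases e <;> rfl

end Pool.Agent.R721.CD
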