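import Pool.Agent.R721.CD.Mob

set_option linter.unusedSectionVars false
set_option linter.style.haveILetI false
set_option autoImplicit false

open scoped BigOperators Classical
open Matrix

noncomputable section

namespace Pool.Agent.R721.CD

variable {F : Type} [Field F] [Fintype F] [hF : Fact (Fintype.card F = 25)]

/-- matrix with given entries -/
def mk (a b c d : F) (h : a * d - b * c ≠ 0) : GL (Fin 2) F :=
  Matrix.GeneralLinearGroup.mkOfDetNeZero !![a, b; c, d] (by rwa [Matrix.det_fin_two_of])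

lemma qq_mk {a b c d : F} (h : a * d - b * c ≠ 0) : qq (mk a b c d h) = 1 ↔ IsSquare (a * d - b * c) := by
  rw [qq_one_iff]
  have : (mk a b c d h).1.det = a * d - b * c := by
    show (!![a, b; c, d] : Matrix (Fin 2) (Fin 2) F).det = _
    rw [Matrix.det_fin_two_of]
  rw [this]

lemma mk_inf {a b c d : F} (h : a * d - b * c ≠ 0) :
    mk a b c d h • (OnePoint.infty : OnePoint F) = if c = 0 then OnePoint.infty else ((a / c : F) : OnePoint F) :=
  OnePoint.smul_infty_eq_ite _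

lemma mk_coe {a b c d : F} (h : a * d - b * c ≠ 0) (x : F) :
    mk a b c d h • (x : OnePoint F) =
      if c * x + d = 0 then OnePoint.infty else (((a * x + b) / (c * x + d) : F) : OnePoint F) :=
  OnePoint.smul_some_eq_ite

lemma det_ne (A : GL (Fin 2) F) : A 0 0 * A 1 1 - A 0 1 * A 1 0 ≠ 0 := by
  have := A.det_ne_zero
  rwa [Matrix.det_fin_two] at this

lemma pw_zero (e : Bool) : pw e (0 : F) = 0 := by cases e <;> simp [pw]
lemma pw_one (e : Bool) : pw e (1 : F) = 1 := by cases e <;> simp [pw]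
lemma pw_mul (e : Bool) (x y : F) : pw e (x * y) = pw e x * pw e y := by
  cases e <;> simp [pw, mul_pow]
lemma pw_add (e : Bool) (x y : F) : pw e (x + y) = pw e x + pw e y := by
  cases e
  · rfl
  · exact map_add (phi F) x y
lemma pw_pw (e f : Bool) (x : F) : pw e (pw f x) = pw (xor e f) x := by
  cases e <;> cases f <;> simp only [pw, cond_true, cond_false, Bool.xor_false,
    Bool.xor_true, Bool.not_false, Bool.not_true, ← pow_mul]
  exact pow25 x
lemma pw_ne {e : Bool} {x : F} (hx : x ≠ 0) : pw e x ≠ 0 := by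
  cases e
  · exact hx
  · exact pow_ne_zero _ hx
lemma pw_neg (e : Bool) (x : F) : pw e (-x) = - pw e x := by
  have := pw_add e x (-x)
  rw [add_neg_cancel, pw_zero] at this
  exact (neg_eq_of_add_eq_zero_right this.symm).symm
lemma pw_inj (e : Bool) : Function.Injective (pw (F := F) e) := by
  intro x y h
  have := congrArg (pw e) h
  rwa [pw_pw, pw_pw, Bool.xor_self] at this

lemma exists_ne_pow : ∃ x : F, x ^ 5 ≠ x := by
  by_contra hcon
  push Not at hcon
  have h1 : (Polynomial.X ^ 5 - Polynomial.X : Polynomial F) ≠ 0 := by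
    intro h
    have := congrArg (fun p => Polynomial.coeff p 1) h
    simp [Polynomial.coeff_X_pow] at this
  have h2 := Polynomial.card_roots' (Polynomial.X ^ 5 - Polynomial.X : Polynomial F)
  have h3 : (Polynomial.X ^ 5 - Polynomial.X : Polynomial F).natDegree ≤ 5 := by
    compute_degree
  have h4 : (Finset.univ : Finset F) ⊆ (Polynomial.X ^ 5 - Polynomial.X : Polynomial F).roots.toFinset := by
    intro x _
    rw [Multiset.mem_toFinset, Polynomial.mem_roots h1]
    simp [hcon x]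
  have h5 := Finset.card_le_card h4
  have h6 := Multiset.toFinset_card_le (Polynomial.X ^ 5 - Polynomial.X : Polynomial F).roots
  rw [Finset.card_univ, hF.out] at h5
  omega

/-- a matrix fixing three points is scalar -/
lemma scalar_of_fix {C : GL (Fin 2) F} (h1 : C • (OnePoint.infty : OnePoint F) = OnePoint.infty)
    (h2 : C • ((0 : F) : OnePoint F) = ((0 : F) : OnePoint F))
    (h3 : C • ((1 : F) : OnePoint F) = ((1 : F) : OnePoint F)) :
    C 1 0 = 0 ∧ C 0 1 = 0 ∧ C 0 0 = C 1 1 := by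
  have hd := det_ne C
  have e1 : C 1 0 = 0 := OnePoint.smul_infty_eq_self_iff.mp h1
  rw [OnePoint.smul_some_eq_ite, e1] at h2 h3
  rw [e1] at hd
  have h11 : C 1 1 ≠ 0 := by
    intro h
    apply hd
    rw [h]; ring
  rw [if_neg (by simpa using h11), OnePoint.coe_eq_coe] at h2 h3
  have e2 : C 0 1 = 0 := by
    rw [div_eq_iff (by simpa using h11)] at h2
    simpa using h2
  refine ⟨e1, e2, ?_⟩
  rw [div_eq_iff (by simpa using h11), e2] at h3
  simpa using h3

lemma smul_of_scalar {C : GL (Fin 2) F} (h1 : C 1 0 = 0) (h2 : C 0 1 = 0) (h3 : C 0 0 = C 1 1)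
    (x : OnePoint F) : C • x = x := by
  have hd := det_ne C
  have h11 : C 1 1 ≠ 0 := by
    intro h
    apply hd
    rw [h, h1]; ring
  cases x with
  | infty => exact OnePoint.smul_infty_eq_self_iff.mpr h1
  | coe x =>
    rw [OnePoint.smul_some_eq_ite, h1, h2, h3]
    rw [if_neg (by simpa using h11), OnePoint.coe_eq_coe, zero_mul, zero_add, add_zero,
      mul_div_cancel_left₀ _ h11]

lemma el_eq_one {C : GL (Fin 2) F} {e : Bool} (h : el C e = 1) : e = false ∧ qq C = 1 := by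
  have h1 : C • (OnePoint.infty : OnePoint F) = OnePoint.infty := by
    rw [← el_apply_inf C e, h]; rfl
  have h2 : C • ((0 : F) : OnePoint F) = ((0 : F) : OnePoint F) := by
    have := el_apply_coe C e 0
    rw [h, pw_zero] at this
    exact this.symm
  have h3 : C • ((1 : F) : OnePoint F) = ((1 : F) : OnePoint F) := by
    have := el_apply_coe C e 1
    rw [h, pw_one] at this
    exact this.symm
  obtain ⟨e1, e2, e3⟩ := scalar_of_fix h1 h2 h3
  constructor
  · cases e
    · rfl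
    · exfalso
      obtain ⟨x, hx⟩ := exists_ne_pow (F := F)
      apply hx
      have := el_apply_coe C true x
      rw [h, smul_of_scalar e1 e2 e3] at this
      have h4 : (x : OnePoint F) = ((pw true x : F) : OnePoint F) := this
      rw [OnePoint.coe_eq_coe] at h4
      exact h4.symm
  · rw [qq_one_iff, Matrix.det_fin_two]
    have e1' : C.1 1 0 = 0 := e1
    have e2' : C.1 0 1 = 0 := e2
    have e3' : C.1 0 0 = C.1 1 1 := e3
    rw [e1', e2', e3']
    exact ⟨C.1 1 1, by ring⟩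

lemma el_inj {A B : GL (Fin 2) F} {e f : Bool} (h : el A e = el B f) : e = f ∧ qq A = qq B := by
  have h1 : (el B f)⁻¹ * el A e = 1 := by rw [h, inv_mul_cancel]
  rw [el_inv, el_mul] at h1
  obtain ⟨h2, h3⟩ := el_eq_one h1
  constructor
  · revert h2
    cases e <;> cases f <;> simp
  · rw [map_mul, qq_tw, qq_tw, map_inv] at h3
    rw [inv_mul_eq_one] at h3
    exact h3.symm

/-- sign of the twist -/
def sgb (e : Bool) : ℤˣ := bif e then -1 else 1

lemma sgb_mul (e f : Bool) : sgb e * sgb f = sgb (xor e f) := by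
  cases e <;> cases f <;> decide

/-- `PΓL(2,25)` -/
def GG (F : Type) [Field F] [Fintype F] [Fact (Fintype.card F = 25)] :
    Subgroup (Equiv.Perm (OnePoint F)) where
  carrier := {σ | ∃ A e, σ = el A e}
  mul_mem' := by
    rintro _ _ ⟨A, e, rfl⟩ ⟨B, f, rfl⟩
    exact ⟨_, _, el_mul A B e f⟩
  one_mem' := ⟨1, false, el_one.symm⟩
  inv_mem' := by
    rintro _ ⟨A, e, rfl⟩
    exact ⟨_, _, el_inv A e⟩

/-- `M(25)` -/
def KK (F : Type) [Field F] [Fintype F] [Fact (Fintype.card F = 25)] :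
    Subgroup (Equiv.Perm (OnePoint F)) where
  carrier := {σ | ∃ A e, qq A = sgb e ∧ σ = el A e}
  mul_mem' := by
    rintro _ _ ⟨A, e, hA, rfl⟩ ⟨B, f, hB, rfl⟩
    exact ⟨_, _, by rw [map_mul, qq_tw, hA, hB, sgb_mul], el_mul A B e f⟩
  one_mem' := ⟨1, false, by rw [map_one]; rfl, el_one.symm⟩
  inv_mem' := by
    rintro _ ⟨A, e, hA, rfl⟩
    refine ⟨_, _, ?_, el_inv A e⟩
    rw [qq_tw, map_inv, hA]
    cases e <;> rfl

/-- `PSL(2,25)` -/
def SS (F : Type) [Field F] [Fintype F] [Fact (Fintype.card F = 25)] :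
    Subgroup (Equiv.Perm (OnePoint F)) where
  carrier := {σ | ∃ A, qq A = 1 ∧ σ = el A false}
  mul_mem' := by
    rintro _ _ ⟨A, hA, rfl⟩ ⟨B, hB, rfl⟩
    exact ⟨_, by rw [map_mul, qq_tw, hA, hB, mul_one], el_mul A B false false⟩
  one_mem' := ⟨1, by rw [map_one], el_one.symm⟩
  inv_mem' := by
    rintro _ ⟨A, hA, rfl⟩
    exact ⟨_, by rw [qq_tw, map_inv, hA, inv_one], el_inv A false⟩

lemma SK : SS F ≤ KK F := by
  rintro _ ⟨A, hA, rfl⟩
  exact ⟨A, false, hA, rfl⟩

lemma KG : KK F ≤ GG F := by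
  rintro _ ⟨A, e, -, rfl⟩
  exact ⟨A, e, rfl⟩

lemma mem_KK {A : GL (Fin 2) F} {e : Bool} : el A e ∈ KK F ↔ qq A = sgb e := by
  constructor
  · rintro ⟨B, f, hB, h⟩
    obtain ⟨h1, h2⟩ := el_inj h
    rw [h2, hB, h1]
  · intro h
    exact ⟨A, e, h, rfl⟩

lemma mem_SS {A : GL (Fin 2) F} {e : Bool} : el A e ∈ SS F ↔ e = false ∧ qq A = 1 := by
  constructor
  · rintro ⟨B, hB, h⟩
    obtain ⟨h1, h2⟩ := el_inj h
    exact ⟨h1, by rw [h2, hB]⟩
  · rintro ⟨rfl, h⟩
    exact ⟨A, h, rfl⟩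

/-- commutators lie in `SS` -/
lemma com_SS {σ τ : Equiv.Perm (OnePoint F)} (hσ : σ ∈ GG F) (hτ : τ ∈ GG F) :
    σ * τ * σ⁻¹ * τ⁻¹ ∈ SS F := by
  obtain ⟨A, e, rfl⟩ := hσ
  obtain ⟨B, f, rfl⟩ := hτ
  rw [el_inv, el_inv, el_mul, el_mul, el_mul, mem_SS]
  constructor
  · cases e <;> cases f <;> rfl
  · simp only [map_mul, qq_tw, map_inv]
    have h1 : ∀ u v : ℤˣ, u * v * u⁻¹ * v⁻¹ = 1 := by
      intro u v
      rw [mul_comm u v]
      group
    exact h1 _ _

lemma norm_SS {σ τ : Equiv.Perm (OnePoint F)} (hσ : σ ∈ GG F) (hτ : τ ∈ SS F) :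
    σ * τ * σ⁻¹ ∈ SS F := by
  have h1 := com_SS hσ (KG (SK hτ))
  have h2 : σ * τ * σ⁻¹ = (σ * τ * σ⁻¹ * τ⁻¹) * τ := by group
  rw [h2]
  exact mul_mem h1 hτ

lemma norm_KK {σ τ : Equiv.Perm (OnePoint F)} (hσ : σ ∈ GG F) (hτ : τ ∈ KK F) :
    σ * τ * σ⁻¹ ∈ KK F := by
  have h1 := com_SS hσ (KG hτ)
  have h2 : σ * τ * σ⁻¹ = (σ * τ * σ⁻¹ * τ⁻¹) * τ := by group
  rw [h2]
  exact mul_mem (SK h1) hτ

lemma idx_KK {σ τ : Equiv.Perm (OnePoint F)} (hσ : σ ∈ GG F) (hτ : τ ∈ GG F) (h1 : σ ∉ KK F)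
    (h2 : τ ∉ KK F) : σ * τ ∈ KK F := by
  obtain ⟨A, e, rfl⟩ := hσ
  obtain ⟨B, f, rfl⟩ := hτ
  rw [mem_KK] at h1 h2
  rw [el_mul, mem_KK, map_mul, qq_tw, ← sgb_mul]
  have key : ∀ u v : ℤˣ, u ≠ v → u = -v := by decide
  rw [key _ _ h1, key _ _ h2]
  simp

/-- affine maps -/
def af (a b : F) (e : Bool) (ha : a ≠ 0) : Equiv.Perm (OnePoint F) :=
  el (mk a b 0 1 (by simpa using ha)) e

lemma af_inf {a b : F} {e : Bool} (ha : a ≠ 0) : af a b e ha OnePoint.infty = OnePoint.infty := by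
  unfold af
  rw [el_apply_inf, mk_inf, if_pos rfl]

lemma af_coe {a b : F} {e : Bool} (ha : a ≠ 0) (x : F) :
    af a b e ha (x : OnePoint F) = ((a * pw e x + b : F) : OnePoint F) := by
  unfold af
  rw [el_apply_coe, mk_coe, if_neg (by simp)]
  simp

lemma af_G {a b : F} {e : Bool} (ha : a ≠ 0) : af a b e ha ∈ GG F := ⟨_, _, rfl⟩

lemma qq_af {a b : F} (ha : a ≠ 0) : qq (mk a b 0 1 (by simpa using ha)) = 1 ↔ IsSquare a := by
  rw [qq_mk]
  simp

lemma af_K {a b : F} {e : Bool} (ha : a ≠ 0) : af a b e ha ∈ KK F ↔ (IsSquare a ↔ e = false) := by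
  unfold af
  rw [mem_KK]
  have h1 := qq_af (b := b) ha
  have key : ∀ u : ℤˣ, u = 1 ∨ u = -1 := by decide
  cases e
  · show qq _ = 1 ↔ _
    rw [h1]; simp
  · show qq _ = -1 ↔ _
    have h2 : qq (mk a b 0 1 (by simpa using ha)) = -1 ↔ ¬ (qq (mk a b 0 1 (by simpa using ha)) = 1) := by
      rcases key (qq (mk a b 0 1 (by simpa using ha))) with h | h <;> rw [h] <;> decide
    rw [h2, h1]; simp

lemma af_S {a b : F} {e : Bool} (ha : a ≠ 0) : af a b e ha ∈ SS F ↔ e = false ∧ IsSquare a := by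
  unfold af
  rw [mem_SS, qq_af ha]

/-- the stabiliser of infinity -/
lemma stab_inf {σ : Equiv.Perm (OnePoint F)} (hσ : σ ∈ GG F) (h : σ OnePoint.infty = OnePoint.infty) :
    ∃ (a b : F) (e : Bool) (ha : a ≠ 0), σ = af a b e ha := by
  obtain ⟨A, e, rfl⟩ := hσ
  rw [el_apply_inf, OnePoint.smul_infty_eq_self_iff] at h
  have hd := det_ne A
  rw [h] at hd
  have h11 : A 1 1 ≠ 0 := by
    intro h'
    apply hd
    rw [h']; ring
  have h00 : A 0 0 ≠ 0 := by
    intro h'
    apply hd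
    rw [h']; ring
  refine ⟨A 0 0 / A 1 1, A 0 1 / A 1 1, e, div_ne_zero h00 h11, ?_⟩
  ext x
  cases x with
  | infty =>
    rw [af_inf, el_apply_inf, OnePoint.smul_infty_eq_self_iff.mpr h]
  | coe x =>
    rw [af_coe, el_apply_coe, OnePoint.smul_some_eq_ite, h, if_neg (by simpa using h11)]
    congr 1
    rw [zero_mul, zero_add]
    field_simp

lemma af_eq_iff {a b a' b' : F} {e e' : Bool} (ha : a ≠ 0) (ha' : a' ≠ 0)
    (h : af a b e ha = af a' b' e' ha') : a = a' ∧ b = b' ∧ e = e' := by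
  have h0 : af a b e ha ((0 : F) : OnePoint F) = af a' b' e' ha' ((0 : F) : OnePoint F) := by rw [h]
  have h1 : af a b e ha ((1 : F) : OnePoint F) = af a' b' e' ha' ((1 : F) : OnePoint F) := by rw [h]
  rw [af_coe, af_coe, OnePoint.coe_eq_coe, pw_zero, pw_zero] at h0
  rw [af_coe, af_coe, OnePoint.coe_eq_coe, pw_one, pw_one] at h1
  have hb : b = b' := by simpa using h0
  have haa : a = a' := by
    rw [hb] at h1
    simpa using h1
  exact ⟨haa, hb, (el_inj h).1⟩

lemma af_mul {a b a' b' : F} {e e' : Bool} (ha : a ≠ 0) (ha' : a' ≠ 0) :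
    af a b e ha * af a' b' e' ha' =
      af (a * pw e a') (a * pw e b' + b) (xor e e') (mul_ne_zero ha (pw_ne ha')) := by
  ext x
  cases x with
  | infty => rw [Equiv.Perm.mul_apply, af_inf, af_inf, af_inf]
  | coe x =>
    rw [Equiv.Perm.mul_apply, af_coe, af_coe, af_coe]
    congr 1
    rw [pw_add, pw_mul, pw_pw]
    ring

/-- the swaps of infinity and zero -/
lemma swap_form {σ : Equiv.Perm (OnePoint F)} {A : GL (Fin 2) F} {e : Bool} (hσ : σ = el A e)
    (h : σ OnePoint.infty = ((0 : F) : OnePoint F)) (h' : σ ((0 : F) : OnePoint F) = OnePoint.infty) :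
    ∃ a : F, a ≠ 0 ∧ (qq A = 1 ↔ IsSquare a) ∧ ∀ x : F, x ≠ 0 →
      σ (x : OnePoint F) = ((a / pw e x : F) : OnePoint F) := by
  subst hσ
  rw [el_apply_inf, OnePoint.smul_infty_eq_ite] at h
  rw [el_apply_coe, pw_zero, OnePoint.smul_some_eq_ite] at h'
  have hd := det_ne A
  have h10 : A 1 0 ≠ 0 := by
    intro h0
    rw [if_pos h0] at h
    exact OnePoint.infty_ne_coe _ h
  rw [if_neg h10, OnePoint.coe_eq_coe, div_eq_zero_iff] at h
  have h00 : A 0 0 = 0 := by
    rcases h with h | h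
    · exact h
    · exact absurd h h10
  have h11 : A 1 1 = 0 := by
    by_contra h0
    rw [if_neg (by simpa using h0)] at h'
    exact OnePoint.coe_ne_infty _ h'
  have h01 : A 0 1 ≠ 0 := by
    intro h0
    apply hd
    rw [h0, h11]; ring
  refine ⟨A 0 1 / A 1 0, div_ne_zero h01 h10, ?_, ?_⟩
  · rw [qq_one_iff, Matrix.det_fin_two]
    have e1 : A.1 0 0 = 0 := h00
    have e2 : A.1 1 1 = 0 := h11
    have e3 : A.1 0 1 = A 0 1 := rfl
    have e4 : A.1 1 0 = A 1 0 := rfl
    rw [e1, e2, e3, e4, zero_mul, zero_sub, sq_neg]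
    constructor
    · intro h
      have : A 0 1 / A 1 0 = (A 0 1 * A 1 0) * ((A 1 0)⁻¹ * (A 1 0)⁻¹) := by field_simp
      rw [this]
      exact h.mul ⟨_, rfl⟩
    · intro h
      have : A 0 1 * A 1 0 = (A 0 1 / A 1 0) * (A 1 0 * A 1 0) := by field_simp
      rw [this]
      exact h.mul ⟨_, rfl⟩
  · intro x hx
    rw [el_apply_coe, OnePoint.smul_some_eq_ite, h11, h00]
    have hp := pw_ne (e := e) hx
    rw [if_neg (by
      rw [add_zero]
      exact mul_ne_zero h10 hp)]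
    congr 1
    field_simp
    ring

end Pool.Agent.R721.CD
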