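import Pool.Agent.R721.CD.Mob2
import Pool.Agent.R721.CD.GFinal

set_option linter.unusedSectionVars false
set_option linter.style.haveILetI false
set_option autoImplicit false

open scoped BigOperators Classical
open Matrix

noncomputable section

namespace Pool.Agent.R721.CD

variable {F : Type} [Field F] [Fintype F] [hF : Fact (Fintype.card F = 25)]

lemma af_one : af (1 : F) 0 false one_ne_zero = 1 := by
  ext x
  cases x with
  | infty => rw [af_inf]; rfl
  | coe x =>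
    rw [af_coe]
    show ((1 * x + 0 : F) : OnePoint F) = _
    rw [one_mul, add_zero]
    rfl

lemma trans_SS {P Q : OnePoint F} (h : P ≠ Q) :
    ∃ σ ∈ SS F, σ (OnePoint.infty : OnePoint F) = P ∧ σ ((0 : F) : OnePoint F) = Q := by
  cases P with
  | infty =>
    cases Q with
    | infty => exact absurd rfl h
    | coe q =>
      refine ⟨af 1 q false one_ne_zero, (af_S _).mpr ⟨rfl, ⟨1, by simp⟩⟩, af_inf _, ?_⟩
      rw [af_coe, pw_zero, mul_zero, zero_add]
  | coe p =>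
    have hdet : p * 0 - (-1) * 1 ≠ (0 : F) := by simp
    set W := el (mk p (-1) 1 0 hdet) false with hW
    have hWS : W ∈ SS F := by
      rw [hW, mem_SS]
      refine ⟨rfl, (qq_mk _).mpr ⟨1, by ring⟩⟩
    have hWi : W (OnePoint.infty : OnePoint F) = ((p : F) : OnePoint F) := by
      rw [hW, el_apply_inf, mk_inf, if_neg one_ne_zero, div_one]
    obtain ⟨R, hR⟩ : ∃ R, W R = Q := ⟨W⁻¹ Q, by simp⟩
    cases R with
    | infty =>
      rw [hWi] at hR
      exact absurd hR h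
    | coe r =>
      refine ⟨W * af 1 r false one_ne_zero, mul_mem hWS ((af_S _).mpr ⟨rfl, ⟨1, by simp⟩⟩), ?_, ?_⟩
      · rw [Equiv.Perm.mul_apply, af_inf, hWi]
      · rw [Equiv.Perm.mul_apply, af_coe, pw_zero, mul_zero, zero_add, hR]

lemma inv_ap (τ : Equiv.Perm (OnePoint F)) (x : OnePoint F) : τ⁻¹ (τ x) = x := by
  rw [← Equiv.Perm.mul_apply, inv_mul_cancel]; rfl

lemma ap_inv (τ : Equiv.Perm (OnePoint F)) (x : OnePoint F) : τ (τ⁻¹ x) = x := by
  rw [← Equiv.Perm.mul_apply, mul_inv_cancel]; rfl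

/-- conjugating a swap to the standard position -/
lemma swap_conj {g τ : Equiv.Perm (OnePoint F)} {P Q : OnePoint F} (h1 : τ (OnePoint.infty : OnePoint F) = P)
    (h2 : τ ((0 : F) : OnePoint F) = Q) (hP : g P = Q) (hQ : g Q = P) :
    (τ⁻¹ * g * τ) (OnePoint.infty : OnePoint F) = ((0 : F) : OnePoint F) ∧ (τ⁻¹ * g * τ) ((0 : F) : OnePoint F) = (OnePoint.infty : OnePoint F) := by
  constructor
  · rw [Equiv.Perm.mul_apply, Equiv.Perm.mul_apply, h1, hP, ← h2, inv_ap]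
  · rw [Equiv.Perm.mul_apply, Equiv.Perm.mul_apply, h2, hQ, ← h1, inv_ap]

lemma fix_conj {g τ : Equiv.Perm (OnePoint F)} {x : OnePoint F} (h : (τ⁻¹ * g * τ) x = x) :
    g (τ x) = τ x := by
  rw [Equiv.Perm.mul_apply, Equiv.Perm.mul_apply] at h
  have := congrArg τ h
  rwa [ap_inv] at this

lemma swap_fix {g : Equiv.Perm (OnePoint F)} {a : F} (ha : a ≠ 0) (hs : IsSquare a)
    (h : ∀ x : F, x ≠ 0 → g (x : OnePoint F) = ((a / x : F) : OnePoint F)) :
    ∃ Q, g Q = Q := by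
  obtain ⟨y, hy⟩ := hs
  have hy0 : y ≠ 0 := by
    rintro rfl
    exact ha (by rw [hy]; ring)
  refine ⟨((y : F) : OnePoint F), ?_⟩
  rw [h y hy0, hy, mul_div_assoc, div_self hy0, mul_one]

lemma inv1_SS {g : Equiv.Perm (OnePoint F)} (hg : g ∈ SS F) (P : OnePoint F) (h : g (g P) = P) :
    ∃ Q, g Q = Q := by
  by_cases hP : g P = P
  · exact ⟨P, hP⟩
  obtain ⟨τ, hτ, h1, h2⟩ := trans_SS (Ne.symm hP)
  obtain ⟨e1, e2⟩ := swap_conj h1 h2 rfl h
  have hm : τ⁻¹ * g * τ ∈ SS F := mul_mem (mul_mem (inv_mem hτ) hg) hτ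
  obtain ⟨A, hA, hA'⟩ := hm
  obtain ⟨a, ha, hs, hv⟩ := swap_form hA' e1 e2
  obtain ⟨Q, hQ⟩ := swap_fix ha (hs.mp hA) hv
  exact ⟨_, fix_conj hQ⟩

lemma inv2_KK {g : Equiv.Perm (OnePoint F)} (hg : g ∈ KK F) (h : g * g = 1) :
    ∃ Q, g Q = Q := by
  by_cases hP : g (OnePoint.infty : OnePoint F) = (OnePoint.infty : OnePoint F)
  · exact ⟨_, hP⟩
  obtain ⟨τ, hτ, h1, h2⟩ := trans_SS (Ne.symm hP)
  have hgg : g (g (OnePoint.infty : OnePoint F)) = (OnePoint.infty : OnePoint F) := by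
    rw [← Equiv.Perm.mul_apply, h]; rfl
  obtain ⟨e1, e2⟩ := swap_conj h1 h2 rfl hgg
  have hm : τ⁻¹ * g * τ ∈ KK F := mul_mem (mul_mem (inv_mem (SK hτ)) hg) (SK hτ)
  have hsq : (τ⁻¹ * g * τ) * (τ⁻¹ * g * τ) = 1 := by
    have : (τ⁻¹ * g * τ) * (τ⁻¹ * g * τ) = τ⁻¹ * (g * g) * τ := by group
    rw [this, h]; group
  obtain ⟨A, e, hA, hA'⟩ := hm
  obtain ⟨a, ha, hs, hv⟩ := swap_form hA' e1 e2
  cases e
  · obtain ⟨Q, hQ⟩ := swap_fix ha (hs.mp hA) hv
    exact ⟨_, fix_conj hQ⟩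
  · exfalso
    have h3 := hv 1 one_ne_zero
    rw [pw_one, div_one] at h3
    have h4 := hv a ha
    have h5 : (τ⁻¹ * g * τ) ((τ⁻¹ * g * τ) ((1 : F) : OnePoint F)) = ((1 : F) : OnePoint F) := by
      rw [← Equiv.Perm.mul_apply, hsq]; rfl
    rw [h3, h4, OnePoint.coe_eq_coe] at h5
    have h6 : a ^ 4 = 1 := by
      have h7 : a = a ^ 5 := by
        have : pw true a = a ^ 5 := rfl
        rw [this, div_eq_one_iff_eq (pow_ne_zero _ ha)] at h5
        exact h5
      have h8 : a * a ^ 4 = a * 1 := by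
        rw [mul_one]
        nth_rewrite 3 [h7]
        ring
      exact mul_left_cancel₀ ha h8
    have h9 : IsSquare a := by
      rw [isSquare_iff ha]
      have : a ^ 12 = (a ^ 4) ^ 3 := by ring
      rw [this, h6, one_pow]
    have h10 := hs.mpr h9
    rw [hA] at h10
    exact absurd h10 (by decide)

lemma sharp_KK {g : Equiv.Perm (OnePoint F)} (hg : g ∈ KK F) {P Q R : OnePoint F} (hPQ : P ≠ Q)
    (hPR : P ≠ R) (hQR : Q ≠ R) (hP : g P = P) (hQ : g Q = Q) (hR : g R = R) : g = 1 := by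
  obtain ⟨τ, hτ, h1, h2⟩ := trans_SS hPQ
  have hm : τ⁻¹ * g * τ ∈ KK F := mul_mem (mul_mem (inv_mem (SK hτ)) hg) (SK hτ)
  have e1 : (τ⁻¹ * g * τ) (OnePoint.infty : OnePoint F) = (OnePoint.infty : OnePoint F) := by
    rw [Equiv.Perm.mul_apply, Equiv.Perm.mul_apply, h1, hP, ← h1, inv_ap]
  have e2 : (τ⁻¹ * g * τ) ((0 : F) : OnePoint F) = ((0 : F) : OnePoint F) := by
    rw [Equiv.Perm.mul_apply, Equiv.Perm.mul_apply, h2, hQ, ← h2, inv_ap]
  obtain ⟨x, hx⟩ : ∃ x, τ x = R := ⟨τ⁻¹ R, by simp⟩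
  have e3 : (τ⁻¹ * g * τ) x = x := by
    rw [Equiv.Perm.mul_apply, Equiv.Perm.mul_apply, hx, hR, ← hx, inv_ap]
  obtain ⟨a, b, e, ha, hab⟩ := stab_inf (KG hm) e1
  rw [hab] at e2 e3 hm
  rw [af_coe, pw_zero, mul_zero, zero_add, OnePoint.coe_eq_coe] at e2
  subst e2
  have key : τ⁻¹ * g * τ = 1 → g = 1 := by
    intro h
    have : g = τ * (τ⁻¹ * g * τ) * τ⁻¹ := by group
    rw [this, h]; group
  apply key
  rw [hab]
  cases x with
  | infty => exact absurd (h1.symm.trans hx) hPR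
  | coe c =>
    have hc : c ≠ 0 := by
      rintro rfl
      exact hQR (h2.symm.trans hx)
    rw [af_coe, add_zero, OnePoint.coe_eq_coe] at e3
    cases e
    · have : a = 1 := by
        have h3 : a * c = 1 * c := by rw [one_mul]; exact e3
        exact mul_right_cancel₀ hc h3
      subst this
      exact af_one
    · exfalso
      rw [af_K] at hm
      have h3 : a * c ^ 5 = c := e3
      have h4 : IsSquare a := by
        refine ⟨(c⁻¹) ^ 2, ?_⟩
        have h5 : a * c ^ 4 = 1 := by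
          have : (a * c ^ 4) * c = 1 * c := by
            rw [one_mul]
            nth_rewrite 3 [← h3]
            ring
          exact mul_right_cancel₀ hc this
        have h6 : a = a * c ^ 4 * ((c⁻¹) ^ 2 * (c⁻¹) ^ 2) := by
          field_simp
        rw [h6, h5, one_mul]
      have := hm.mp h4
      exact Bool.noConfusion this

/-- the translations -/
def NN (F : Type) [Field F] [Fintype F] [Fact (Fintype.card F = 25)] :
    Subgroup (Equiv.Perm (OnePoint F)) where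
  carrier := {σ | ∃ b : F, σ = af 1 b false one_ne_zero}
  mul_mem' := by
    rintro _ _ ⟨a, rfl⟩ ⟨b, rfl⟩
    refine ⟨b + a, ?_⟩
    rw [af_mul]
    congr 1
    · show (1 : F) * 1 = 1
      ring
    · show (1 : F) * b + a = b + a
      ring
  one_mem' := ⟨0, af_one.symm⟩
  inv_mem' := by
    rintro _ ⟨b, rfl⟩
    refine ⟨-b, ?_⟩
    rw [inv_eq_iff_mul_eq_one, af_mul, ← af_one]
    congr 1
    · show (1 : F) * 1 = 1
      ring
    · show (1 : F) * -b + b = 0
      ring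

lemma NSS : NN F ≤ SS F := by
  rintro _ ⟨b, rfl⟩
  exact (af_S _).mpr ⟨rfl, ⟨1, by simp⟩⟩

lemma pow_af (a : F) (ha : a ≠ 0) (n : ℕ) :
    (af a 0 false ha) ^ n = af (a ^ n) 0 false (pow_ne_zero _ ha) := by
  induction n with
  | zero =>
    rw [pow_zero, ← af_one]
    congr 1
    exact (pow_zero a).symm
  | succ n ih =>
    rw [pow_succ, ih, af_mul]
    congr 1
    · show a ^ n * a = a ^ (n + 1)
      ring
    · show a ^ n * 0 + 0 = (0 : F)
      ring

end Pool.Agent.R721.CD
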