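import Pool.Agent.R721.CD.Mob3

set_option linter.unusedSectionVars false
set_option linter.style.haveILetI false
set_option autoImplicit false

open scoped BigOperators Classical
open Matrix

noncomputable section

namespace Pool.Agent.R721.CD

variable {F : Type} [Field F] [Fintype F] [hF : Fact (Fintype.card F = 25)]

/-- affine coordinate -/
def val (x : OnePoint F) : F := x.elim (0 : F) (fun y => y)

lemma val_coe (x : F) : val (x : OnePoint F) = x := rfl

/-- the slope of an affine map -/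
def sl (σ : Equiv.Perm (OnePoint F)) : F := val (σ ((1 : F) : OnePoint F)) - val (σ ((0 : F) : OnePoint F))

lemma sl_af {a b : F} {e : Bool} (ha : a ≠ 0) : sl (af a b e ha) = a := by
  unfold sl
  rw [af_coe, af_coe, val_coe, val_coe, pw_one, pw_zero]
  ring

variable (F) in
/-- faithful linear character of the multiplicative group -/
def Lam : Fˣ →* ℂˣ := (Pool.Agent.Helper884.IC.exists_faithful (C := Fˣ) inferInstance).choose

lemma Lam_inj : Function.Injective (Lam F) :=
  (Pool.Agent.Helper884.IC.exists_faithful (C := Fˣ) inferInstance).choose_spec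

def LL (x : F) : ℂˣ := if h : x ≠ 0 then Lam F (Units.mk0 x h) else 1

lemma LL_mul {x y : F} (hx : x ≠ 0) (hy : y ≠ 0) : LL (x * y) = LL x * LL y := by
  unfold LL
  rw [dif_pos hx, dif_pos hy, dif_pos (mul_ne_zero hx hy), ← map_mul]
  congr 1
  exact Units.ext rfl

lemma LL_one : LL (1 : F) = 1 := by
  unfold LL
  rw [dif_pos one_ne_zero]
  have : Units.mk0 (1 : F) one_ne_zero = 1 := Units.ext rfl
  rw [this, map_one]

lemma LL_pow {x : F} (hx : x ≠ 0) (n : ℕ) : LL (x ^ n) = LL x ^ n := by
  induction n with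
  | zero => rw [pow_zero, pow_zero, LL_one]
  | succ n ih => rw [pow_succ, LL_mul (pow_ne_zero _ hx) hx, ih, pow_succ]

lemma pow24 {x : F} (hx : x ≠ 0) : x ^ 24 = 1 := by
  have := FiniteField.pow_card_sub_one_eq_one x hx
  rwa [hF.out] at this

lemma LL_24 {x : F} (hx : x ≠ 0) : LL x ^ 24 = 1 := by
  rw [← LL_pow hx, pow24 hx, LL_one]

lemma LL_eq_one {x : F} (hx : x ≠ 0) (h : LL x = 1) : x = 1 := by
  unfold LL at h
  rw [dif_pos hx] at h
  have := Lam_inj (h.trans (map_one _).symm)
  exact congrArg Units.val this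

lemma LL_pw {x : F} (hx : x ≠ 0) (e : Bool) : LL (pw e x) ^ 6 = LL x ^ 6 := by
  cases e
  · rfl
  · show LL (x ^ 5) ^ 6 = _
    rw [LL_pow hx, ← pow_mul]
    have : LL x ^ (5 * 6) = LL x ^ 24 * LL x ^ 6 := by rw [← pow_add]
    rw [this, LL_24 hx, one_mul]

/-! ### orders -/

lemma card_units : Nat.card Fˣ = 24 := by
  have := Nat.card_eq_card_units_add_one F
  rw [Nat.card_eq_fintype_card (α := F), hF.out] at this
  omega

lemma exists_nonsq : ∃ z : F, z ≠ 0 ∧ ¬ IsSquare z := by
  obtain ⟨z, hz⟩ := FiniteField.exists_nonsquare (F := F) odd_char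
  refine ⟨z, ?_, hz⟩
  rintro rfl
  exact hz ⟨0, by simp⟩

lemma card_ker : Nat.card (sg (F := F)).ker = 12 := by
  have hsurj : Function.Surjective (sg (F := F)) := by
    intro u
    obtain ⟨z, hz0, hz⟩ := exists_nonsq (F := F)
    have key : u = 1 ∨ u = -1 := by revert u; decide
    rcases key with rfl | rfl
    · exact ⟨1, map_one _⟩
    · exact ⟨Units.mk0 z hz0, sg_eq_neg.mpr hz⟩
  have h1 := Subgroup.card_eq_card_quotient_mul_card_subgroup (sg (F := F)).ker
  have h2 := Nat.card_congr (QuotientGroup.quotientKerEquivOfSurjective (sg (F := F)) hsurj).toEquiv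
  have h3 : Nat.card ℤˣ = 2 := by
    rw [Nat.card_eq_fintype_card]; decide
  rw [card_units, h2, h3] at h1
  omega

lemma card_Om : Fintype.card (OnePoint F) = 26 := by
  have : Fintype.card (OnePoint F) = Fintype.card (Option F) := Fintype.card_congr (Equiv.refl _)
  rw [this, Fintype.card_option, hF.out]

lemma card_SS : Nat.card (SS F) = 7800 := by
  haveI : MulAction.IsPretransitive (SS F) (OnePoint F) := by
    have htr : ∀ q : OnePoint F, ∃ x : SS F, x • (OnePoint.infty : OnePoint F) = q := by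
      intro q
      by_cases hq : q = ((0 : F) : OnePoint F)
      · obtain ⟨σ, hσ, h, -⟩ := trans_SS (P := q) (Q := (OnePoint.infty : OnePoint F)) (by rw [hq]; exact OnePoint.coe_ne_infty _)
        exact ⟨⟨σ, hσ⟩, h⟩
      · obtain ⟨σ, hσ, h, -⟩ := trans_SS hq
        exact ⟨⟨σ, hσ⟩, h⟩
    refine ⟨fun p q => ?_⟩
    obtain ⟨x, rfl⟩ := htr p
    obtain ⟨y, rfl⟩ := htr q
    exact ⟨y * x⁻¹, by rw [smul_smul, inv_mul_cancel_right]⟩
  have h1 := MulAction.index_stabilizer_of_transitive (SS F) (OnePoint.infty : OnePoint F)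
  have h2 := Subgroup.card_mul_index (MulAction.stabilizer (SS F) (OnePoint.infty : OnePoint F))
  rw [h1, Nat.card_eq_fintype_card (α := OnePoint F), card_Om] at h2
  have h3 : Nat.card (MulAction.stabilizer (SS F) (OnePoint.infty : OnePoint F)) = 300 := by
    let f : (sg (F := F)).ker × F → MulAction.stabilizer (SS F) (OnePoint.infty : OnePoint F) := fun p =>
      ⟨⟨af (p.1 : Fˣ) p.2 false (Units.ne_zero _),
        (af_S (Units.ne_zero _)).mpr ⟨rfl, sg_eq_one.mp p.1.2⟩⟩, af_inf (Units.ne_zero _)⟩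
    have hf : Function.Bijective f := by
      constructor
      · rintro ⟨a, b⟩ ⟨a', b'⟩ h
        have h4 : af ((a : Fˣ) : F) b false (Units.ne_zero _) =
            af ((a' : Fˣ) : F) b' false (Units.ne_zero _) :=
          congrArg (fun z : MulAction.stabilizer (SS F) (OnePoint.infty : OnePoint F) => ((z : SS F) : Equiv.Perm (OnePoint F))) h
        obtain ⟨h5, h6, -⟩ := af_eq_iff _ _ h4
        exact Prod.ext (Subtype.ext (Units.ext h5)) h6
      · rintro ⟨⟨σ, hσ⟩, hi⟩
        obtain ⟨a, b, e, ha, rfl⟩ := stab_inf (KG (SK hσ)) hi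
        obtain ⟨rfl, hs⟩ := (af_S ha).mp hσ
        exact ⟨⟨⟨Units.mk0 a ha, sg_eq_one.mpr hs⟩, b⟩, rfl⟩
    rw [← Nat.card_congr (Equiv.ofBijective f hf), Nat.card_prod, card_ker,
      Nat.card_eq_fintype_card, hF.out]
  rw [h3] at h2
  omega

lemma card_KK : Nat.card (KK F) = 15600 := by
  have h1 : ((SS F).subgroupOf (KK F)).index = 2 := by
    rw [Subgroup.index_eq_two_iff]
    obtain ⟨z, hz0, hz⟩ := exists_nonsq (F := F)
    have haK : af z 0 true hz0 ∈ KK F := (af_K hz0).mpr ⟨fun h => absurd h hz, fun h => Bool.noConfusion h⟩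
    refine ⟨⟨af z 0 true hz0, haK⟩, ?_⟩
    rintro ⟨_, B, f, hB, rfl⟩
    rw [Subgroup.mem_subgroupOf, Subgroup.mem_subgroupOf]
    show Xor (el B f * el _ true ∈ SS F) (el B f ∈ SS F)
    have h2 : el B f ∈ SS F ↔ f = false := by
      rw [mem_SS]
      constructor
      · exact fun h => h.1
      · rintro rfl
        exact ⟨rfl, hB⟩
    have h3 : el B f * el (mk z 0 0 1 (by simpa using hz0)) true ∈ SS F ↔ f = true := by
      have h4 : el B f * el (mk z 0 0 1 (by simpa using hz0)) true ∈ KK F :=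
        mul_mem ⟨B, f, hB, rfl⟩ haK
      rw [el_mul] at h4 ⊢
      rw [mem_KK] at h4
      rw [mem_SS]
      constructor
      · intro h
        revert h
        cases f <;> simp
      · rintro rfl
        exact ⟨rfl, h4⟩
    have h3' := h3
    rw [h2]
    change Xor (el B f * el (mk z 0 0 1 (by simpa using hz0)) true ∈ SS F) (f = false)
    rw [h3]
    cases f <;> simp [Xor]
  have h2 := Subgroup.card_mul_index ((SS F).subgroupOf (KK F))
  rw [h1, Nat.card_congr (Subgroup.subgroupOfEquivOfLe (SK (F := F))).toEquiv, card_SS] at h2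
  omega

lemma card_GG : Nat.card (GG F) = 31200 := by
  have h1 : ((KK F).subgroupOf (GG F)).index = 2 := by
    rw [Subgroup.index_eq_two_iff]
    have haK : af (1 : F) 0 true one_ne_zero ∉ KK F := by
      rw [af_K]
      intro h
      exact Bool.noConfusion (h.mp ⟨1, by simp⟩)
    refine ⟨⟨af 1 0 true one_ne_zero, af_G _⟩, ?_⟩
    rintro ⟨σ, hσ⟩
    rw [Subgroup.mem_subgroupOf, Subgroup.mem_subgroupOf]
    show Xor (σ * af 1 0 true one_ne_zero ∈ KK F) (σ ∈ KK F)
    by_cases h : σ ∈ KK F
    · right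
      refine ⟨h, fun h2 => haK ?_⟩
      exact (Subgroup.mul_mem_cancel_left _ h).mp h2
    · left
      exact ⟨idx_KK hσ (af_G _) h haK, h⟩
  have h2 := Subgroup.card_mul_index ((KK F).subgroupOf (GG F))
  rw [h1, Nat.card_congr (Subgroup.subgroupOfEquivOfLe (KG (F := F))).toEquiv, card_KK] at h2
  omega

end Pool.Agent.R721.CD
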