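import Pool.Agent.R721.CD.Mob4

set_option linter.unusedSectionVars false
set_option linter.style.haveILetI false
set_option autoImplicit false

open scoped BigOperators Classical
open Matrix

noncomputable section

namespace Pool.Agent.R721.CD

variable {F : Type} [Field F] [Fintype F] [hF : Fact (Fintype.card F = 25)]

instance : Fintype (KK F) := Fintype.ofFinite _
instance : Fintype (GG F) := Fintype.ofFinite _

lemma smul_KK (g : KK F) (P : OnePoint F) : g • P = (g : Equiv.Perm (OnePoint F)) P := rfl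
lemma smul_GG (g : GG F) (P : OnePoint F) : g • P = (g : Equiv.Perm (OnePoint F)) P := rfl

/-- elements of `SS` fixing infinity -/
lemma SS_inf {σ : Equiv.Perm (OnePoint F)} (hσ : σ ∈ SS F) (h : σ (OnePoint.infty : OnePoint F) = (OnePoint.infty : OnePoint F)) :
    ∃ (a b : F) (ha : a ≠ 0), IsSquare a ∧ σ = af a b false ha := by
  obtain ⟨a, b, e, ha, rfl⟩ := stab_inf (KG (SK hσ)) h
  obtain ⟨rfl, hs⟩ := (af_S ha).mp hσ
  exact ⟨a, b, ha, hs, rfl⟩

lemma SS_inf_zero {σ : Equiv.Perm (OnePoint F)} (hσ : σ ∈ SS F) (h : σ (OnePoint.infty : OnePoint F) = (OnePoint.infty : OnePoint F))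
    (h0 : σ ((0 : F) : OnePoint F) = ((0 : F) : OnePoint F)) :
    ∃ (a : F) (ha : a ≠ 0), IsSquare a ∧ σ = af a 0 false ha := by
  obtain ⟨a, b, ha, hs, rfl⟩ := SS_inf hσ h
  rw [af_coe, pw_zero, mul_zero, zero_add, OnePoint.coe_eq_coe] at h0
  subst h0
  exact ⟨a, ha, hs, rfl⟩

/-- the inversion -/
def ww : Equiv.Perm (OnePoint F) := el (mk 0 1 1 0 (by simp)) false

lemma ww_S : ww (F := F) ∈ SS F := by
  unfold ww
  rw [mem_SS, qq_mk]
  exact ⟨rfl, by simpa using neg_one_sq (F := F)⟩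

lemma ww_inf : ww (OnePoint.infty : OnePoint F) = ((0 : F) : OnePoint F) := by
  unfold ww
  rw [el_apply_inf, mk_inf, if_neg one_ne_zero, zero_div]

lemma ww_zero : ww ((0 : F) : OnePoint F) = (OnePoint.infty : OnePoint F) := by
  unfold ww
  rw [el_apply_coe, mk_coe, pw_zero, if_pos (by ring)]

lemma ww_coe {x : F} (hx : x ≠ 0) : ww ((x : F) : OnePoint F) = ((x⁻¹ : F) : OnePoint F) := by
  unfold ww
  rw [el_apply_coe, mk_coe]
  have : pw false x = x := rfl
  rw [this, if_neg (by simpa using hx)]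
  congr 1
  rw [zero_mul, zero_add, one_mul, add_zero, one_div]

lemma ww_conj {a : F} (ha : a ≠ 0) : ww * af a 0 false ha * ww⁻¹ = (af a 0 false ha)⁻¹ := by
  have h1 : (af a 0 false ha)⁻¹ = af a⁻¹ 0 false (inv_ne_zero ha) := by
    rw [inv_eq_iff_mul_eq_one, af_mul, ← af_one]
    congr 1
    · show a * a⁻¹ = 1
      exact mul_inv_cancel₀ ha
    · show a * 0 + 0 = (0 : F)
      ring
  rw [h1, mul_inv_eq_iff_eq_mul]
  ext x
  rw [Equiv.Perm.mul_apply, Equiv.Perm.mul_apply]
  cases x with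
  | infty =>
    rw [af_inf, ww_inf, af_coe, pw_zero, mul_zero, zero_add]
  | coe x =>
    rw [af_coe]
    have hp : pw false x = x := rfl
    rw [hp, add_zero]
    by_cases hx : x = 0
    · subst hx
      rw [mul_zero, ww_zero, af_inf]
    · rw [ww_coe (mul_ne_zero ha hx), ww_coe hx, af_coe]
      congr 1
      have hp' : pw false (x⁻¹) = x⁻¹ := rfl
      rw [hp', add_zero, mul_inv]

lemma s_conj {z a : F} (hz : z ≠ 0) (ha : a ≠ 0) :
    af z 0 true hz * af a 0 false ha * (af z 0 true hz)⁻¹ = (af a 0 false ha) ^ 5 := by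
  rw [mul_inv_eq_iff_eq_mul, pow_af, af_mul, af_mul]
  congr 1
  · show z * a ^ 5 = a ^ 5 * z
    ring
  · show z * 0 ^ 5 + 0 = a ^ 5 * 0 + 0
    ring

lemma N_conj {b b' : F} (hb : b ≠ 0) (hb' : b' ≠ 0) :
    ∃ σ ∈ KK F, σ * af 1 b false one_ne_zero * σ⁻¹ = af 1 b' false one_ne_zero := by
  by_cases h : IsSquare (b' / b)
  · refine ⟨af (b' / b) 0 false (div_ne_zero hb' hb), (af_K _).mpr ⟨fun _ => rfl, fun _ => h⟩, ?_⟩
    rw [mul_inv_eq_iff_eq_mul, af_mul, af_mul]
    congr 1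
    · show b' / b * 1 = 1 * (b' / b)
      ring
    · show b' / b * b + 0 = 1 * 0 + b'
      field_simp
      ring
  · have h2 : b' / b ^ 5 ≠ 0 := div_ne_zero hb' (pow_ne_zero _ hb)
    refine ⟨af (b' / b ^ 5) 0 true h2, (af_K _).mpr ⟨fun h3 => ?_, fun h3 => Bool.noConfusion h3⟩, ?_⟩
    · exfalso
      apply h
      have : b' / b = (b' / b ^ 5) * (b ^ 2 * b ^ 2) := by field_simp
      rw [this]
      exact h3.mul ⟨_, rfl⟩
    · rw [mul_inv_eq_iff_eq_mul, af_mul, af_mul]
      congr 1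
      · show b' / b ^ 5 * 1 ^ 5 = 1 * (b' / b ^ 5)
        ring
      · show b' / b ^ 5 * b ^ 5 + 0 = 1 * 0 + b'
        field_simp
        ring

lemma card_NN : Nat.card (NN F) = 25 := by
  let f : F → NN F := fun b => ⟨af 1 b false one_ne_zero, b, rfl⟩
  have hf : Function.Bijective f := by
    constructor
    · intro b b' h
      have := congrArg (fun z : NN F => (z : Equiv.Perm (OnePoint F))) h
      exact (af_eq_iff one_ne_zero one_ne_zero this).2.1
    · rintro ⟨_, b, rfl⟩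
      exact ⟨b, rfl⟩
  rw [← Nat.card_congr (Equiv.ofBijective f hf), Nat.card_eq_fintype_card, hF.out]

variable (F) in
/-- the configuration of `M(25)` -/
def kc : KCfg (KK F) (OnePoint F) where
  S := (SS F).subgroupOf (KK F)
  N := (NN F).subgroupOf (KK F)
  inf := (OnePoint.infty : OnePoint F)
  o := ((0 : F) : OnePoint F)
  hio := OnePoint.infty_ne_coe _
  cardOm := card_Om
  cardK := card_KK
  cardS := by
    rw [Nat.card_congr (Subgroup.subgroupOfEquivOfLe (SK (F := F))).toEquiv, card_SS]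
  normS := ⟨fun n hn g => norm_SS (KG g.2) hn⟩
  comS := fun g h => com_SS (KG g.2) (KG h.2)
  sharp := fun g P Q R h1 h2 h3 h4 h5 h6 => Subtype.ext (sharp_KK g.2 h1 h2 h3 h4 h5 h6)
  trans := fun P Q h => by
    obtain ⟨σ, hσ, h1, h2⟩ := trans_SS h
    exact ⟨⟨σ, SK hσ⟩, hσ, h1, h2⟩
  NS := fun n hn => NSS hn
  cardN := by
    rw [Nat.card_congr (Subgroup.subgroupOfEquivOfLe ((NSS (F := F)).trans SK)).toEquiv, card_NN]
  Ninf := by
    rintro ⟨n, hnK⟩ ⟨b, hb⟩
    show n (OnePoint.infty : OnePoint F) = (OnePoint.infty : OnePoint F)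
    have hb' : n = af 1 b false one_ne_zero := hb
    rw [hb', af_inf]
  Ntr := by
    intro P hP
    cases P with
    | infty => exact absurd rfl hP
    | coe p =>
      have hm : af 1 p false one_ne_zero ∈ NN F := ⟨p, rfl⟩
      refine ⟨⟨af 1 p false one_ne_zero, SK (NSS hm)⟩, hm, ?_⟩
      show af 1 p false one_ne_zero ((0 : F) : OnePoint F) = _
      rw [af_coe, pw_zero, mul_zero, zero_add]
  Nfree := by
    rintro ⟨n, hnK⟩ ⟨b, hb⟩ hn1 P hP
    have hb' : n = af 1 b false one_ne_zero := hb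
    subst hb'
    show af 1 b false one_ne_zero P ≠ P
    cases P with
    | infty => exact absurd rfl hP
    | coe p =>
      rw [af_coe]
      intro h
      rw [OnePoint.coe_eq_coe] at h
      have hb0 : b = 0 := by
        have h2 : 1 * p + b = p := h
        linear_combination h2
      apply hn1
      subst hb0
      exact Subtype.ext af_one
  Nmem := by
    rintro ⟨g, hgK⟩ hgS hinf hno
    have hgS' : g ∈ SS F := hgS
    obtain ⟨a, b, ha, hs, hab⟩ := SS_inf hgS' hinf
    show g ∈ NN F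
    by_cases ha1 : a = 1
    · subst ha1
      exact ⟨b, hab⟩
    · exfalso
      have h1a : 1 - a ≠ 0 := sub_ne_zero.mpr (Ne.symm ha1)
      apply hno ((b / (1 - a) : F) : OnePoint F) (OnePoint.coe_ne_infty _)
      show g ((b / (1 - a) : F) : OnePoint F) = _
      rw [hab, af_coe]
      congr 1
      show a * (b / (1 - a)) + b = b / (1 - a)
      field_simp
      ring
  Nconj := by
    rintro ⟨n, hn⟩ ⟨b, hb⟩ ⟨n', hn'⟩ ⟨b', hb'⟩ h1 h1'
    have e1 : n = af 1 b false one_ne_zero := hb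
    have e2 : n' = af 1 b' false one_ne_zero := hb'
    subst e1 e2
    have hb0 : b ≠ 0 := by
      rintro rfl
      exact h1 (Subtype.ext af_one)
    have hb0' : b' ≠ 0 := by
      rintro rfl
      exact h1' (Subtype.ext af_one)
    obtain ⟨σ, hσ, h⟩ := N_conj hb0 hb0'
    exact ⟨⟨σ, hσ⟩, Subtype.ext h⟩
  cardT := by
    let f : (sg (F := F)).ker → ((SS F).subgroupOf (KK F) ⊓ MulAction.stabilizer (KK F) (OnePoint.infty : OnePoint F) ⊓
        MulAction.stabilizer (KK F) ((0 : F) : OnePoint F) : Subgroup (KK F)) := fun a =>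
      ⟨⟨af ((a : Fˣ) : F) 0 false (Units.ne_zero _),
        SK ((af_S (Units.ne_zero _)).mpr ⟨rfl, sg_eq_one.mp a.2⟩)⟩,
        ⟨⟨(af_S (Units.ne_zero _)).mpr ⟨rfl, sg_eq_one.mp a.2⟩, af_inf (Units.ne_zero _)⟩, by
          show af ((a : Fˣ) : F) 0 false (Units.ne_zero _) ((0 : F) : OnePoint F) = _
          rw [af_coe, pw_zero, mul_zero, zero_add]⟩⟩
    have hf : Function.Bijective f := by
      constructor
      · intro a a' h
        have h4 : af ((a : Fˣ) : F) 0 false (Units.ne_zero _) =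
            af ((a' : Fˣ) : F) 0 false (Units.ne_zero _) :=
          congrArg (fun z => ((z.1 : KK F) : Equiv.Perm (OnePoint F))) h
        exact Subtype.ext (Units.ext (af_eq_iff _ _ h4).1)
      · rintro ⟨⟨σ, hσ⟩, ⟨⟨hS, hi⟩, h0⟩⟩
        obtain ⟨a, ha, hs, rfl⟩ := SS_inf_zero hS hi h0
        exact ⟨⟨Units.mk0 a ha, sg_eq_one.mpr hs⟩, rfl⟩
    rw [← Nat.card_congr (Equiv.ofBijective f hf), card_ker]
  lam :=
    { toFun := fun g => LL (sl ((g : KK F) : Equiv.Perm (OnePoint F)))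
      map_one' := by
        show LL (sl (1 : Equiv.Perm (OnePoint F))) = 1
        rw [← af_one, sl_af, LL_one]
      map_mul' := by
        rintro ⟨⟨σ, hσK⟩, ⟨hσS, hσi⟩⟩ ⟨⟨τ, hτK⟩, ⟨hτS, hτi⟩⟩
        obtain ⟨a, b, ha, hs, rfl⟩ := SS_inf hσS hσi
        obtain ⟨a', b', ha', hs', rfl⟩ := SS_inf hτS hτi
        show LL (sl (af a b false ha * af a' b' false ha')) =
          LL (sl (af a b false ha)) * LL (sl (af a' b' false ha'))
        rw [af_mul, sl_af, sl_af, sl_af]
        exact LL_mul ha ha' }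
  lamN := by
    rintro ⟨n, hnK⟩ hn ⟨b, hb⟩
    have e1 : n = af 1 b false one_ne_zero := hb
    subst e1
    show LL (sl (af 1 b false one_ne_zero)) = 1
    rw [sl_af, LL_one]
  lamT := by
    rintro ⟨t, htK⟩ ht h0 h1
    obtain ⟨a, ha, hs, rfl⟩ := SS_inf_zero ht.1 ht.2 h0
    have h2 : LL (sl (af a 0 false ha)) = 1 := h1
    rw [sl_af] at h2
    have := LL_eq_one ha h2
    subst this
    exact Subtype.ext af_one
  s := ⟨af (exists_nonsq (F := F)).choose 0 true (exists_nonsq (F := F)).choose_spec.1,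
    (af_K _).mpr ⟨fun h => absurd h (exists_nonsq (F := F)).choose_spec.2, fun h => Bool.noConfusion h⟩⟩
  hs := by
    rintro ⟨t, htK⟩ ht hi h0
    obtain ⟨a, ha, hs, rfl⟩ := SS_inf_zero ht hi h0
    exact Subtype.ext (s_conj (exists_nonsq (F := F)).choose_spec.1 ha)
  w := ⟨ww, SK ww_S⟩
  hw := by
    rintro ⟨t, htK⟩ ht hi h0
    obtain ⟨a, ha, hs, rfl⟩ := SS_inf_zero ht hi h0
    exact Subtype.ext (ww_conj ha)
  inv1 := fun g hg P h => inv1_SS hg P h
  inv2 := fun g h => inv2_KK g.2 (congrArg Subtype.val h)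

end Pool.Agent.R721.CD
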