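import Pool.Agent.R721.CD.Mob5

set_option linter.unusedSectionVars false
set_option linter.style.haveILetI false
set_option autoImplicit false

open scoped BigOperators Classical
open Matrix

noncomputable section

namespace Pool.Agent.R721.CD

variable {F : Type} [Field F] [Fintype F] [hF : Fact (Fintype.card F = 25)]

/-- the affine group -/
def CC (F : Type) [Field F] [Fintype F] [Fact (Fintype.card F = 25)] :
    Subgroup (Equiv.Perm (OnePoint F)) where
  carrier := {σ | ∃ (a b : F) (ha : a ≠ 0), σ = af a b false ha}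
  mul_mem' := by
    rintro _ _ ⟨a, b, ha, rfl⟩ ⟨a', b', ha', rfl⟩
    exact ⟨_, _, _, af_mul ha ha'⟩
  one_mem' := ⟨1, 0, one_ne_zero, af_one.symm⟩
  inv_mem' := by
    rintro _ ⟨a, b, ha, rfl⟩
    refine ⟨a⁻¹, -(a⁻¹ * b), inv_ne_zero ha, ?_⟩
    rw [inv_eq_iff_mul_eq_one, af_mul, ← af_one]
    congr 1
    · show a * a⁻¹ = 1
      exact mul_inv_cancel₀ ha
    · show a * -(a⁻¹ * b) + b = 0
      field_simp
      ring

lemma CG : CC F ≤ GG F := by
  rintro _ ⟨a, b, ha, rfl⟩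
  exact af_G ha

lemma NC : NN F ≤ CC F := by
  rintro _ ⟨b, rfl⟩
  exact ⟨1, b, one_ne_zero, rfl⟩

lemma norm_NN {σ τ : Equiv.Perm (OnePoint F)} (hσ : σ ∈ CC F) (hτ : τ ∈ NN F) :
    σ * τ * σ⁻¹ ∈ NN F := by
  obtain ⟨a, b, ha, rfl⟩ := hσ
  obtain ⟨t, rfl⟩ := hτ
  refine ⟨a * t, ?_⟩
  rw [mul_inv_eq_iff_eq_mul, af_mul, af_mul]
  congr 1
  · show a * 1 = 1 * a
    ring
  · show a * t + b = 1 * b + a * t
    ring

lemma com_NN {σ τ : Equiv.Perm (OnePoint F)} (hσ : σ ∈ CC F) (hτ : τ ∈ CC F) :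
    σ * τ * σ⁻¹ * τ⁻¹ ∈ NN F := by
  obtain ⟨a, b, ha, rfl⟩ := hσ
  obtain ⟨a', b', ha', rfl⟩ := hτ
  refine ⟨a * b' + b - a' * b - b', ?_⟩
  rw [mul_inv_eq_iff_eq_mul, mul_inv_eq_iff_eq_mul, mul_assoc, af_mul, af_mul, af_mul]
  congr 1
  · show a * a' = 1 * (a' * a)
    ring
  · show a * b' + b = 1 * (a' * b + b') + (a * b' + b - a' * b - b')
    ring

lemma card_CC : Nat.card (CC F) = 600 := by
  let f : Fˣ × F → CC F := fun p =>
    ⟨af (p.1 : F) p.2 false (Units.ne_zero _), (p.1 : F), p.2, Units.ne_zero _, rfl⟩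
  have hf : Function.Bijective f := by
    constructor
    · rintro ⟨a, b⟩ ⟨a', b'⟩ h
      have h4 : af (a : F) b false (Units.ne_zero _) = af (a' : F) b' false (Units.ne_zero _) :=
        congrArg (fun z : CC F => (z : Equiv.Perm (OnePoint F))) h
      obtain ⟨h5, h6, -⟩ := af_eq_iff (Units.ne_zero _) (Units.ne_zero _) h4
      exact Prod.ext (Units.ext h5) h6
    · rintro ⟨_, a, b, ha, rfl⟩
      exact ⟨⟨Units.mk0 a ha, b⟩, rfl⟩
  rw [← Nat.card_congr (Equiv.ofBijective f hf), Nat.card_prod, card_units,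
    Nat.card_eq_fintype_card, hF.out]

lemma four_sq : IsSquare (4 : F) := ⟨2, by norm_num⟩

/-- a fixed point free element of `SS` commutes with an element outside `KK` -/
lemma comm_ES {σ : Equiv.Perm (OnePoint F)} (hσ : σ ∈ SS F) (hno : ∀ P, σ P ≠ P) :
    ∃ τ ∈ GG F, τ ∉ KK F ∧ τ * σ = σ * τ := by
  obtain ⟨A, hA, rfl⟩ := hσ
  set α := A 0 0 with hα
  set β := A 0 1 with hβ
  set γ := A 1 0 with hγ
  set δ := A 1 1 with hδ
  have hd : α * δ - β * γ ≠ 0 := det_ne A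
  have hγ0 : γ ≠ 0 := by
    intro h
    apply hno (OnePoint.infty : OnePoint F)
    rw [el_apply_inf]
    exact OnePoint.smul_infty_eq_self_iff.mpr h
  have h2 := two_ne (F := F)
  have hdisc : ¬ IsSquare ((δ - α) ^ 2 + 4 * β * γ) := by
    rintro ⟨y, hy⟩
    -- explicit fixed point
    set x := ((α - δ) + y) / (2 * γ) with hx
    have hq : γ * x ^ 2 + (δ - α) * x - β = 0 := by
      rw [hx]
      field_simp
      linear_combination -hy
    apply hno (x : OnePoint F)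
    rw [el_apply_coe]
    show A • ((x : F) : OnePoint F) = _
    rw [OnePoint.smul_some_eq_ite]
    have hne : A 1 0 * x + A 1 1 ≠ 0 := by
      intro h0
      apply hd
      have e1 : γ * x + δ = 0 := h0
      have e2 : δ = -(γ * x) := by linear_combination e1
      rw [e2] at hq ⊢
      linear_combination γ * hq
    rw [if_neg hne, OnePoint.coe_eq_coe, div_eq_iff hne]
    show α * x + β = x * (γ * x + δ)
    linear_combination -hq
  -- the commuting matrix
  have hdet : (α - (α + δ) / 2) * (δ - (α + δ) / 2) - β * γ = -(((δ - α) ^ 2 + 4 * β * γ) / 4) := by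
    have h4 : (4 : F) ≠ 0 := by
      have : (4 : F) = 2 * 2 := by norm_num
      rw [this]
      exact mul_ne_zero h2 h2
    field_simp
    ring
  have hdisc0 : ((δ - α) ^ 2 + 4 * β * γ) ≠ 0 := by
    intro h
    rw [h] at hdisc
    exact hdisc ⟨0, by simp⟩
  have h4 : (4 : F) ≠ 0 := by
    have : (4 : F) = 2 * 2 := by norm_num
    rw [this]
    exact mul_ne_zero h2 h2
  have hdet0 : (α - (α + δ) / 2) * (δ - (α + δ) / 2) - β * γ ≠ 0 := by
    rw [hdet]
    exact neg_ne_zero.mpr (div_ne_zero hdisc0 h4)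
  refine ⟨el (mk (α - (α + δ) / 2) β γ (δ - (α + δ) / 2) hdet0) false, ⟨_, _, rfl⟩, ?_, ?_⟩
  · rw [mem_KK]
    show ¬ (qq _ = 1)
    rw [qq_mk, hdet, sq_neg]
    intro h
    apply hdisc
    have : (δ - α) ^ 2 + 4 * β * γ = ((δ - α) ^ 2 + 4 * β * γ) / 4 * 4 := by field_simp
    rw [this]
    exact h.mul four_sq
  · rw [el_mul, el_mul]
    congr 1
    set D := mk (α - (α + δ) / 2) β γ (δ - (α + δ) / 2) hdet0 with hD
    have e00 : D.1 0 0 = α - (α + δ) / 2 := rfl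
    have e01 : D.1 0 1 = β := rfl
    have e10 : D.1 1 0 = γ := rfl
    have e11 : D.1 1 1 = δ - (α + δ) / 2 := rfl
    show D * A = A * D
    ext i j
    rw [Matrix.GeneralLinearGroup.coe_mul, Matrix.GeneralLinearGroup.coe_mul, Matrix.mul_apply,
      Matrix.mul_apply, Fin.sum_univ_two, Fin.sum_univ_two]
    fin_cases i <;> fin_cases j
    · show D.1 0 0 * α + D.1 0 1 * γ = α * D.1 0 0 + β * D.1 1 0
      rw [e00, e01, e10]; ring
    · show D.1 0 0 * β + D.1 0 1 * δ = α * D.1 0 1 + β * D.1 1 1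
      rw [e00, e01, e11]; ring
    · show D.1 1 0 * α + D.1 1 1 * γ = γ * D.1 0 0 + δ * D.1 1 0
      rw [e00, e10, e11]; ring
    · show D.1 1 0 * β + D.1 1 1 * δ = γ * D.1 0 1 + δ * D.1 1 1
      rw [e01, e10, e11]; ring

variable (F) in
/-- the configuration of `PΓL(2,25)` -/
def gc : GCfg (GG F) (KK F) (OnePoint F) (kc F) where
  i := Subgroup.inclusion KG
  inj := Subgroup.inclusion_injective _
  act := fun _ _ => rfl
  cardG := card_GG
  normK := fun g k => ⟨⟨_, norm_KK g.2 k.2⟩, rfl⟩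
  idx := by
    intro g h h1 h2
    have hg : (g : Equiv.Perm (OnePoint F)) ∉ KK F := fun hm => h1 ⟨_, hm⟩ rfl
    have hh : (h : Equiv.Perm (OnePoint F)) ∉ KK F := fun hm => h2 ⟨_, hm⟩ rfl
    exact ⟨⟨_, idx_KK g.2 h.2 hg hh⟩, rfl⟩
  normS := fun g k hk => ⟨⟨_, norm_KK g.2 k.2⟩, norm_SS g.2 hk, rfl⟩
  comS := fun g h => ⟨⟨_, SK (com_SS g.2 h.2)⟩, com_SS g.2 h.2, rfl⟩
  comm := by
    rintro k ⟨hk, hno⟩
    obtain ⟨τ, hτ, hn, hc⟩ := comm_ES hk hno
    refine ⟨⟨τ, hτ⟩, fun k hk => hn ?_, Subtype.ext hc⟩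
    have := congrArg Subtype.val hk
    have h2 : (k : Equiv.Perm (OnePoint F)) = τ := this
    rw [← h2]
    exact k.2
  C := (CC F).subgroupOf (GG F)
  cardC := by
    rw [Nat.card_congr (Subgroup.subgroupOfEquivOfLe (CG (F := F))).toEquiv, card_CC]
  NC := fun k hk => NC hk
  normN := fun g hg k hk => ⟨⟨_, norm_KK g.2 k.2⟩, norm_NN hg hk, rfl⟩
  comN := fun g hg h hh => ⟨⟨_, SK (com_SS g.2 h.2)⟩, com_NN hg hh, rfl⟩
  tau :=
    { toFun := fun g => (LL (sl ((g : GG F) : Equiv.Perm (OnePoint F)))) ^ 6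
      map_one' := by
        show (LL (sl (1 : Equiv.Perm (OnePoint F)))) ^ 6 = 1
        rw [← af_one, sl_af, LL_one, one_pow]
      map_mul' := by
        rintro ⟨⟨σ, hσG⟩, hσi⟩ ⟨⟨τ, hτG⟩, hτi⟩
        obtain ⟨a, b, e, ha, rfl⟩ := stab_inf hσG hσi
        obtain ⟨a', b', e', ha', rfl⟩ := stab_inf hτG hτi
        show (LL (sl (af a b e ha * af a' b' e' ha'))) ^ 6 =
          (LL (sl (af a b e ha))) ^ 6 * (LL (sl (af a' b' e' ha'))) ^ 6
        rw [af_mul, sl_af, sl_af, sl_af, LL_mul ha (pw_ne ha'), mul_pow, LL_pw ha'] }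
  htau := fun k hk hk' => rfl

end Pool.Agent.R721.CD
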