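import Pool.Agent.R721.CD.Exist

set_option linter.unusedSectionVars false
set_option linter.style.haveILetI false
set_option autoImplicit false

open scoped BigOperators Classical
open Representation Pool.Agent.Helper884.IC

noncomputable section

namespace Pool.Agent.R721.CD.KCfg

variable {K Om : Type} [Group K] [Fintype K] [MulAction K Om] [Fintype Om] (c : KCfg K Om)

lemma sm_sq_real (H : Subgroup K) {f : K → ℂ} (h : IsRepChar f) :
    sm H (fun g => f g * f g⁻¹) = ((∑ g : K, (if g ∈ H then ‖f g‖ ^ 2 else 0) : ℝ) : ℂ) := by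
  unfold sm
  push_cast
  refine Finset.sum_congr rfl fun g _ => ?_
  split_ifs
  · rw [mul_inv_eq h]
  · rfl

theorem vals48 {psi : K → ℂ} (h : IsIrrChar psi) (hD : psi 1 = 48) :
    (∀ g, g ∉ c.S → psi g = 0) ∧ (∀ v ∈ c.N, v ≠ 1 → psi v = -2) ∧
      (∀ t ∈ c.T, t ≠ 1 → psi t = 0) := by
  have hcl := h.isClass
  have hrc := IsRepChar.of_irr h
  rcases c.cls h with ⟨h1, -⟩ | ⟨hS0, n, a, D, hn, hN, ha, hT, hD', hc⟩
  · rw [hD] at h1
    norm_num at h1
  have hD48 : D = 48 := by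
    rw [hD] at hD'
    exact_mod_cast hD'.symm
  obtain ⟨ha0, hn0⟩ : a = 0 ∧ n 0 = 0 := by
    rcases hc with ⟨h', -, -⟩ | ⟨h', -, -⟩ | ⟨-, h2, h3⟩ | ⟨h', -, -, -⟩
    · omega
    · omega
    · exact ⟨h2, h3⟩
    · omega
  have hvalN : ∀ v ∈ c.N, v ≠ 1 → psi v = -2 := by
    intro v hv hv1
    have h2 := c.sm_N psi hcl hv hv1
    rw [hN, ha0, hD] at h2
    push_cast at h2
    linear_combination -h2 / 24
  have hall : ∀ j ∈ Finset.range 12, n j = 0 := by
    intro j hj
    have h2 : ∑ j ∈ Finset.range 12, n j = 0 := by rw [← ha, ha0]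
    exact (Finset.sum_eq_zero_iff.mp h2) j hj
  have hT2 : sm c.T (fun g => psi g * psi g⁻¹) = 48 ^ 2 := by
    rw [hT, Finset.sum_eq_zero (fun j hj => by rw [hall j hj]; simp), hD, ha0]
    simp
  have hvalT : ∀ t ∈ c.T, t ≠ 1 → psi t = 0 := by
    intro t ht ht1
    rw [sm_sq_real c.T hrc] at hT2
    have h2 : ∑ g : K, (if g ∈ c.T then ‖psi g‖ ^ 2 else 0) = (48 : ℝ) ^ 2 := by
      exact_mod_cast hT2
    have h3 : ∑ g ∈ ({1, t} : Finset K), (if g ∈ c.T then ‖psi g‖ ^ 2 else 0) ≤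
        ∑ g : K, (if g ∈ c.T then ‖psi g‖ ^ 2 else 0) := by
      refine Finset.sum_le_sum_of_subset_of_nonneg (Finset.subset_univ _) (fun g _ _ => ?_)
      split_ifs
      · positivity
      · exact le_refl _
    rw [Finset.sum_pair (Ne.symm ht1), if_pos (one_mem _), if_pos ht, h2, hD] at h3
    have h4 : ‖(48 : ℂ)‖ = 48 := by simp
    rw [h4] at h3
    have h5 : ‖psi t‖ ^ 2 = 0 := le_antisymm (by linarith) (by positivity)
    have h6 : ‖psi t‖ = 0 := by
      exact pow_eq_zero_iff (two_ne_zero) |>.mp h5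
    exact norm_eq_zero.mp h6
  refine ⟨?_, hvalN, hvalT⟩
  -- norm of the restriction to S
  obtain ⟨rho, hrho⟩ := mult_nat_rep (G := c.S) (hrc.comp c.S.subtype) (hrc.comp c.S.subtype)
  have hSr : sm c.S (fun g => psi g * psi g⁻¹) = 7800 * rho := by
    rw [← hrho]
    unfold B
    rw [sm_subtype, c.cardS]
    push_cast
    rw [mul_inv_cancel_left₀ (by norm_num)]
    rfl
  obtain ⟨v, hv, hv1⟩ := c.exists_n
  obtain ⟨z, hz, hE⟩ := c.ES_integral (fun g => psi g * psi g⁻¹) (sq_class hrc)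
    (fun g => (char_integral h g).mul (char_integral h g⁻¹))
  have hE2 := c.E_sum (fun g => psi g * psi g⁻¹) (sq_class hrc)
  rw [hE, hSr, c.sm_N _ (sq_class hrc) hv hv1, hT2] at hE2
  have hv2 : psi v⁻¹ = -2 := hvalN _ (inv_mem hv) (by simpa using hv1)
  beta_reduce at hE2
  rw [hvalN v hv hv1, hv2, inv_one, hD] at hE2
  obtain ⟨k, hk⟩ := int_of_rat hz (7800 * rho - 4800) 1200 (by norm_num) (by
    push_cast
    linear_combination hE2)
  rw [hk] at hE2
  have hkr : 1200 * k = 7800 * (rho : ℤ) - 4800 := by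
    have : (1200 : ℂ) * (k : ℂ) = 7800 * (rho : ℂ) - 4800 := by linear_combination hE2
    exact_mod_cast this
  have hrho2 : 2 ≤ rho := by
    have hrpos : rho ≠ 0 := by
      intro h0
      rw [h0] at hSr
      rw [sm_sq_real c.S hrc] at hSr
      have h2 : ∑ g : K, (if g ∈ c.S then ‖psi g‖ ^ 2 else 0) = (0 : ℝ) := by
        have : ((∑ g : K, (if g ∈ c.S then ‖psi g‖ ^ 2 else 0) : ℝ) : ℂ) = ((0 : ℝ) : ℂ) := by
          rw [hSr]; simp
        exact_mod_cast this
      have h3 : (if (1 : K) ∈ c.S then ‖psi 1‖ ^ 2 else 0) ≤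
          ∑ g : K, (if g ∈ c.S then ‖psi g‖ ^ 2 else 0) := by
        refine Finset.single_le_sum (f := fun g => if g ∈ c.S then ‖psi g‖ ^ 2 else 0)
          (fun g _ => ?_) (Finset.mem_univ _)
        beta_reduce
        split_ifs
        · positivity
        · exact le_refl _
      rw [if_pos (one_mem _), h2, hD] at h3
      have h4 : ‖(48 : ℂ)‖ = 48 := by simp
      rw [h4] at h3
      norm_num at h3
    omega
  -- hence psi vanishes off S
  intro g hg
  have h1 := norm_sum h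
  rw [c.cardK] at h1
  have h2 : ∑ g : K, (if g ∈ c.S then ‖psi g‖ ^ 2 else 0) = (7800 : ℝ) * rho := by
    rw [sm_sq_real c.S hrc] at hSr
    exact_mod_cast hSr
  have h3 : ∑ x : K, (if x ∈ c.S then ‖psi x‖ ^ 2 else 0) + ‖psi g‖ ^ 2 ≤ ∑ x : K, ‖psi x‖ ^ 2 := by
    have e1 : ∑ x : K, ((if x ∈ c.S then ‖psi x‖ ^ 2 else 0) + (if x = g then ‖psi x‖ ^ 2 else 0)) ≤
        ∑ x : K, ‖psi x‖ ^ 2 := by
      refine Finset.sum_le_sum fun x _ => ?_
      by_cases hx : x ∈ c.S
      · rw [if_pos hx, if_neg (fun e : x = g => hg (e ▸ hx)), add_zero]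
      · rw [if_neg hx, zero_add]
        split_ifs
        · exact le_refl _
        · positivity
    rw [Finset.sum_add_distrib] at e1
    simpa using e1
  rw [h2, h1] at h3
  have h4 : (2 : ℝ) ≤ rho := by exact_mod_cast hrho2
  have h5 : ‖psi g‖ ^ 2 ≤ 0 := by
    push_cast at h3
    linarith
  have h6 : ‖psi g‖ ^ 2 = 0 := le_antisymm h5 (by positivity)
  exact norm_eq_zero.mp (pow_eq_zero_iff (two_ne_zero) |>.mp h6)

/-- values on elements with one or two fixed points -/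
theorem val48 {psi : K → ℂ} (h : IsIrrChar psi) (hD : psi 1 = 48) {k : K} (hk : k ∈ c.S)
    (hk1 : k ≠ 1) {P : Om} (hP : k • P = P) :
    ((∀ Q, Q ≠ P → k • Q ≠ Q) → psi k = -2) ∧ ((∃ Q, Q ≠ P ∧ k • Q = Q) → psi k = 0) := by
  obtain ⟨-, hvN, hvT⟩ := c.vals48 h hD
  have hcl := h.isClass
  constructor
  · intro hQ
    obtain ⟨Q0, hQ0⟩ : ∃ Q0 : Om, P ≠ Q0 := by
      by_cases hPi : P = c.inf
      · exact ⟨c.o, by rw [hPi]; exact c.hio⟩
      · exact ⟨c.inf, hPi⟩
    obtain ⟨x, hx, hxi, -⟩ := c.trans P Q0 hQ0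
    have hmem : x⁻¹ * k * x ∈ c.N := by
      apply c.Nmem
      · have := c.normS.conj_mem k hk x⁻¹
        simpa using this
      · rw [mul_smul, mul_smul, hxi, hP, ← hxi, inv_smul_smul]
      · intro R hR hkR
        have e1 : k • x • R = x • R := by
          rw [mul_smul, mul_smul, inv_smul_eq_iff] at hkR
          exact hkR
        refine hQ (x • R) ?_ e1
        intro h2
        apply hR
        rw [← hxi] at h2
        exact MulAction.injective x h2
    have h1 := hvN _ hmem (by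
      intro h2
      apply hk1
      have : k = x * (x⁻¹ * k * x) * x⁻¹ := by group
      rw [this, h2]; group)
    rw [← h1]
    have : x⁻¹ * k * x = x⁻¹ * k * x⁻¹⁻¹ := by group
    rw [this, hcl]
  · rintro ⟨Q, hQP, hQ⟩
    obtain ⟨x, hx, hxi, hxo⟩ := c.trans P Q (Ne.symm hQP)
    have hmem : x⁻¹ * k * x ∈ c.T := by
      rw [c.mem_T]
      refine ⟨⟨?_, ?_⟩, ?_⟩
      · have := c.normS.conj_mem k hk x⁻¹
        simpa using this
      · rw [mul_smul, mul_smul, hxi, hP, ← hxi, inv_smul_smul]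
      · rw [mul_smul, mul_smul, hxo, hQ, ← hxo, inv_smul_smul]
    have h1 := hvT _ hmem (by
      intro h2
      apply hk1
      have : k = x * (x⁻¹ * k * x) * x⁻¹ := by group
      rw [this, h2]; group)
    rw [← h1]
    have : x⁻¹ * k * x = x⁻¹ * k * x⁻¹⁻¹ := by group
    rw [this, hcl]

end Pool.Agent.R721.CD.KCfg
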